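import Pool.Agent.T6.H79.BZ4.Block2

set_option autoImplicit false

/-!
# Barnes zeta functions, fourth moment, part 10: almost all shifts
-/

namespace Pool.Agent.T6.H79.BZ4

open Finset Filter Topology MeasureTheory Complex FourierTransform
open Pool.Agent.H131R5.BZ Pool.Agent.Y930.Bz Pool.Agent.Y616.BM Pool.Agent.T6.H60.BC
open Pool.Agent.T6.H60.BD

/-- the fourth moment in terms of the convolution -/
noncomputable def J4 (k z : ℝ → ℂ) (α : ℝ) : ENNReal := ∫⁻ U : ℝ, ‖JI k z α U‖ₑ ^ 2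

lemma J4_meas {k : ℝ → ℂ} (hkm : Measurable k) {z : ℝ → ℂ} (hz : Measurable z) :
    Measurable (J4 k z) :=
  (JI_meas hkm hz).lintegral_prod_right'

/-- abstract form of the Borel–Cantelli argument -/
lemma ae_of_avg {J : ℕ → ℝ → ENNReal} (hJ : ∀ n, Measurable (J n)) {C : ℝ} (hC : 0 ≤ C) (q p : ℕ)
    (h : ∀ n : ℕ, ∫⁻ α in Set.Ioi (0 : ℝ), ENNReal.ofReal (α * Real.exp (-α)) * J n α ≤
      ENNReal.ofReal (C * ((n : ℝ) + 1) ^ q * ((2 : ℝ) ^ n) ^ p)) :
    ∀ᵐ α : ℝ, 0 < α → ∃ B : ℝ, 0 ≤ B ∧ ∀ n : ℕ, J n α ≤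
      ENNReal.ofReal (B * ((n : ℝ) + 1) ^ (q + 2) * ((2 : ℝ) ^ n) ^ p) := by
  set c : ℕ → ENNReal := fun n => ENNReal.ofReal ((((n : ℝ) + 1) ^ (q + 2) * ((2 : ℝ) ^ n) ^ p)⁻¹)
    with hc
  set wt : ℝ → ENNReal := fun α => ENNReal.ofReal (α * Real.exp (-α)) with hwt
  have hwtm : Measurable wt := by
    refine Measurable.ennreal_ofReal ?_
    fun_prop
  have hterm : ∀ n, Measurable fun α => c n * (wt α * J n α) := fun n =>
    (hwtm.mul (hJ n)).const_mul _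
  have hsum : ∫⁻ α in Set.Ioi (0 : ℝ), ∑' n, c n * (wt α * J n α) ≠ ⊤ := by
    rw [lintegral_tsum fun n => (hterm n).aemeasurable]
    have h1 : ∀ n, ∫⁻ α in Set.Ioi (0 : ℝ), c n * (wt α * J n α) ≤
        ENNReal.ofReal (C * (1 / ((n : ℝ) + 1) ^ 2)) := by
      intro n
      have hmul : Measurable fun α => wt α * J n α := hwtm.mul (hJ n)
      rw [lintegral_const_mul _ hmul]
      refine (mul_le_mul_right (h n) _).trans ?_
      simp only [hc]
      rw [← ENNReal.ofReal_mul (by positivity)]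
      apply le_of_eq
      congr 1
      rw [pow_add]
      field_simp
    refine ne_top_of_le_ne_top ?_ (ENNReal.tsum_le_tsum h1)
    have hs : Summable fun n : ℕ => C * (1 / ((n : ℝ) + 1) ^ 2) := by
      apply Summable.mul_left
      have := (summable_nat_add_iff 1).2 (Real.summable_one_div_nat_pow.2 (show 1 < 2 by norm_num))
      refine this.congr fun n => ?_
      push_cast
      rfl
    rw [← ENNReal.ofReal_tsum_of_nonneg (fun n => by positivity) hs]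
    exact ENNReal.ofReal_ne_top
  have hae := ae_lt_top (Measurable.ennreal_tsum hterm) hsum
  rw [ae_restrict_iff' measurableSet_Ioi] at hae
  filter_upwards [hae] with α hα hα0
  have hfin := hα hα0
  set S := ∑' n, c n * (wt α * J n α) with hS
  have hw0 : 0 < α * Real.exp (-α) := by positivity
  refine ⟨S.toReal * (α * Real.exp (-α))⁻¹, by positivity, fun n => ?_⟩
  have h2 : c n * (wt α * J n α) ≤ S := ENNReal.le_tsum n
  set P : ℝ := ((n : ℝ) + 1) ^ (q + 2) * ((2 : ℝ) ^ n) ^ p with hP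
  have hP0 : 0 < P := by positivity
  have h3 : J n α = ENNReal.ofReal (P * (α * Real.exp (-α))⁻¹) * (c n * (wt α * J n α)) := by
    simp only [hc, hwt]
    rw [← mul_assoc, ← mul_assoc, ← ENNReal.ofReal_mul (by positivity),
      ← ENNReal.ofReal_mul (by positivity)]
    have h4 : P * (α * Real.exp (-α))⁻¹ * P⁻¹ * (α * Real.exp (-α)) = 1 := by field_simp
    rw [h4, ENNReal.ofReal_one, one_mul]
  calc J n α = ENNReal.ofReal (P * (α * Real.exp (-α))⁻¹) * (c n * (wt α * J n α)) := h3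
    _ ≤ ENNReal.ofReal (P * (α * Real.exp (-α))⁻¹) * S := mul_le_mul_right h2 _
    _ = ENNReal.ofReal (P * (α * Real.exp (-α))⁻¹) * ENNReal.ofReal S.toReal := by
        rw [ENNReal.ofReal_toReal hfin.ne]
    _ = _ := by
        rw [← ENNReal.ofReal_mul (by positivity)]
        congr 1
        rw [hP]
        ring

/-- almost all shifts larger than a given one -/
theorem ae_shift {r d : ℕ} {w : Fin r → ℝ} (hw : ∀ j, 0 < w j) {e : Fin d → Fin r}
    (he : Function.Injective e) (hp : BoxB (w ∘ e)) (hd : 1 ≤ d) {a : ℝ} (ha : 0 < a) {y₀ : ℝ}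
    (hy : 0 < y₀) (hy1 : y₀ ≤ 1) : ∃ q : ℕ, ∀ᵐ α : ℝ, 0 < α → ∃ B : ℝ, 0 ≤ B ∧ ∀ n : ℕ,
      ∑ j ∈ Finset.range (2 * n + 1), ∫⁻ ξ : ℝ,
        ‖𝓕 (kb (a + α) w ((r : ℝ) - (d : ℝ) / 2) ((1 / 2 : ℝ) ^ n) (y₀ * 2 ^ j)) ξ‖ₑ ^ 4 ≤
      ENNReal.ofReal (B * ((n : ℝ) + 1) ^ q * ((2 : ℝ) ^ n) ^ (4 * r - 2 * d - 1)) := by
  obtain ⟨C, hC, hb⟩ := block hw he hp hd ha hy hy1
  set σ : ℝ := (r : ℝ) - (d : ℝ) / 2 with hσd
  have hdr : d ≤ r := by
    have := Fintype.card_le_of_injective e he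
    simpa using this
  have hdr' : (d : ℝ) ≤ r := by exact_mod_cast hdr
  have hd' : (1 : ℝ) ≤ d := by exact_mod_cast hd
  have hσ : 0 < σ := by rw [hσd]; linarith
  set q₀ : ℕ := 3 * (d + 4 + r) + 1 with hq₀
  set p : ℕ := 4 * r - 2 * d - 1 with hpd
  obtain ⟨m₀, hm0, hm1, hm⟩ := exists_low hw
  set K : ℕ → ℕ → ℝ → ℂ := fun n j => kb a w σ ((1 / 2 : ℝ) ^ n) (y₀ * 2 ^ j) with hK
  set Z : ℕ → ℝ → ℂ := fun n u => zr u ((1 / 2 : ℝ) ^ n) with hZ
  have hη : ∀ n : ℕ, (0 : ℝ) < (1 / 2 : ℝ) ^ n := fun n => by positivity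
  have hη1 : ∀ n : ℕ, (1 / 2 : ℝ) ^ n ≤ 1 := fun n => pow_le_one₀ (by norm_num) (by norm_num)
  have hM : ∀ j : ℕ, 0 < y₀ * 2 ^ j := fun j => by positivity
  have hslice : ∀ (n j : ℕ) (α : ℝ), 0 < α → F4 (K n j) (Z n) α = J4 (K n j) (Z n) α := by
    intro n j α hα
    set δ : ℝ := min 1 (3 * m₀ * y₀) with hδd
    have hδ : 0 < δ := lt_min one_pos (by positivity)
    have hδ1 : δ ≤ 1 := min_le_left _ _
    have hδ2 : δ ≤ 3 * m₀ * y₀ := min_le_right _ _
    have hδx : ∀ i, δ * (1 / 2 : ℝ) ^ n ≤ w i * (3 * (y₀ * 2 ^ j) * (1 / 2 : ℝ) ^ n) := by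
      intro i
      have hwi := hm i
      have hwi0 := (hw i).le
      have h1 : (1 : ℝ) ≤ 2 ^ j := one_le_pow₀ (by norm_num)
      calc δ * (1 / 2 : ℝ) ^ n ≤ (3 * m₀ * y₀) * (1 / 2 : ℝ) ^ n := by gcongr
        _ = m₀ * (3 * (y₀ * 1) * (1 / 2 : ℝ) ^ n) := by ring
        _ ≤ _ := by gcongr
    exact four_slice (kb_meas _ _ _ _ _) (kb_int ha hw hσ (hη n) (hη1 n) (hM j) hδ hδ1 hδx)
      (kb_bdd ha hw hσ (hη n) (hη1 n) (hM j) hδ hδ1 hδx) (zr_meas _) (fun u => by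
        rw [zr_re]
        have h2 : 0 ≤ Real.sin ((1 / 2 : ℝ) ^ n) :=
          le_trans (by positivity) (sin_ge (hη n).le (hη1 n))
        have := Real.exp_pos (-u)
        positivity) hα.le
  have hJm : ∀ n, Measurable fun α => ∑ j ∈ Finset.range (2 * n + 1), J4 (K n j) (Z n) α :=
    fun n => Finset.measurable_fun_sum _ fun j _ => J4_meas (kb_meas _ _ _ _ _) (zr_meas _)
  have havg : ∀ n : ℕ, ∫⁻ α in Set.Ioi (0 : ℝ), ENNReal.ofReal (α * Real.exp (-α)) *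
      ∑ j ∈ Finset.range (2 * n + 1), J4 (K n j) (Z n) α ≤
      ENNReal.ofReal ((2 * C) * ((n : ℝ) + 1) ^ (q₀ + 1) * ((2 : ℝ) ^ n) ^ p) := by
    intro n
    calc _ = ∫⁻ α in Set.Ioi (0 : ℝ), ∑ j ∈ Finset.range (2 * n + 1),
          ENNReal.ofReal (α * Real.exp (-α)) * J4 (K n j) (Z n) α := by
          refine lintegral_congr fun α => ?_
          rw [Finset.mul_sum]
      _ = ∑ j ∈ Finset.range (2 * n + 1), ∫⁻ α in Set.Ioi (0 : ℝ),
          ENNReal.ofReal (α * Real.exp (-α)) * J4 (K n j) (Z n) α := by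
          rw [lintegral_finsetSum _ fun j _ => ?_]
          have h3 : Measurable fun α : ℝ => ENNReal.ofReal (α * Real.exp (-α)) := by
            refine Measurable.ennreal_ofReal ?_
            fun_prop
          exact h3.mul (J4_meas (kb_meas _ _ _ _ _) (zr_meas _))
      _ ≤ ∑ _j ∈ Finset.range (2 * n + 1), ENNReal.ofReal (C * ((n : ℝ) + 1) ^ q₀ *
          ((2 : ℝ) ^ n) ^ p) := by
          refine Finset.sum_le_sum fun j hj => ?_
          have hj' : j ≤ 2 * n := Nat.lt_succ_iff.1 (Finset.mem_range.1 hj)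
          refine le_trans (le_of_eq ?_) (hb n j hj')
          refine setLIntegral_congr_fun measurableSet_Ioi fun α hα => ?_
          show ENNReal.ofReal (α * Real.exp (-α)) * J4 (K n j) (Z n) α =
            ENNReal.ofReal (α * Real.exp (-α)) * F4 (K n j) (Z n) α
          rw [hslice n j α hα]
      _ ≤ _ := by
          rw [Finset.sum_const, Finset.card_range, nsmul_eq_mul, ← ENNReal.ofReal_natCast,
            ← ENNReal.ofReal_mul (by positivity)]
          apply ENNReal.ofReal_le_ofReal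
          have h4 : ((2 * n + 1 : ℕ) : ℝ) ≤ 2 * ((n : ℝ) + 1) := by
            push_cast
            linarith
          calc ((2 * n + 1 : ℕ) : ℝ) * (C * ((n : ℝ) + 1) ^ q₀ * ((2 : ℝ) ^ n) ^ p) ≤
              (2 * ((n : ℝ) + 1)) * (C * ((n : ℝ) + 1) ^ q₀ * ((2 : ℝ) ^ n) ^ p) := by gcongr
            _ = _ := by ring
  refine ⟨q₀ + 1 + 2, ?_⟩
  filter_upwards [ae_of_avg hJm (by positivity) (q₀ + 1) p havg] with α hα hα0
  obtain ⟨B, hB, hb'⟩ := hα hα0
  refine ⟨B, hB, fun n => ?_⟩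
  refine le_trans (le_of_eq ?_) (hb' n)
  refine Finset.sum_congr rfl fun j _ => ?_
  rw [← hslice n j α hα0]
  unfold F4
  simp only [hK, hZ]
  rw [kb_add]

end Pool.Agent.T6.H79.BZ4
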