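import Pool.Agent.T6.H79.BZ4.Fin
import Pool.Agent.T6.H79.BZ4.AeA
import Pool.Agent.Y616.BM.Ae

set_option autoImplicit false

/-!
# Barnes zeta functions, fourth moment, part 15: almost all weights and shifts
-/

namespace Pool.Agent.T6.H79.BZ4

open Finset Filter Topology MeasureTheory Complex FourierTransform
open Pool.Agent.H131R5.BZ Pool.Agent.Y930.Bz Pool.Agent.Y616.BM Pool.Agent.T6.H60.BC
open Pool.Agent.T6.H60.BD

/-- the box property of all rational images -/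
def BoxAll {d : ℕ} (v : Fin d → ℝ) : Prop :=
  ∀ A : Fin d → Fin d → ℚ, (rm A).det ≠ 0 → BoxB ((rm A).mulVec v)

theorem ae_boxAll (d : ℕ) : ∀ᵐ v : Fin d → ℝ, BoxAll v := by
  unfold BoxAll
  simp only [ae_all_iff]
  intro A hA
  have h1 := Real.map_matrix_volume_pi_eq_smul_volume_pi hA
  have h2 : ∀ᵐ p ∂(Measure.map (Matrix.toLin' (rm A)) (volume : Measure (Fin d → ℝ))),
      BoxB p := by
    rw [h1]
    exact Measure.ae_smul_measure (ae_box d) _
  have h3 : Measurable (Matrix.toLin' (rm A)) :=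
    (LinearMap.continuous_of_finiteDimensional _).measurable
  have h4 := ae_of_ae_map h3.aemeasurable h2
  filter_upwards [h4] with v hv
  rwa [Matrix.toLin'_apply] at hv

/-- the box property of a part of the weights -/
theorem box_sub {d r : ℕ} {v : Fin d → ℝ} (hv : LinearIndependent ℚ v) (hB : BoxAll v)
    {w : Fin r → ℝ}
    (hspan : Submodule.span ℚ (Set.range w) = Submodule.span ℚ (Set.range v)) :
    ∃ e : Fin d → Fin r, Function.Injective e ∧ BoxB (w ∘ e) := by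
  obtain ⟨B, e, he, hdet, hwB⟩ := lin hv hspan
  refine ⟨e, he, ?_⟩
  have h1 : (rm B).submatrix e id = rm fun i k => B (e i) k := by
    ext i k
    simp [rm]
  rw [h1] at hdet
  have h2 := hB _ hdet
  have h3 : w ∘ e = (rm fun i k => B (e i) k).mulVec v := by
    rw [← h1, hwB]
    rfl
  rwa [h3]

/-- translation of an almost everywhere statement -/
lemma ae_transl {P : ℝ → Prop} (h : ∀ᵐ α : ℝ, P α) (b : ℝ) : ∀ᵐ a : ℝ, P (a - b) :=
  (measurePreserving_sub_right volume b).quasiMeasurePreserving.ae h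

/-- the moments for almost all shifts -/
theorem ae_moments {d r : ℕ} (hd : 1 ≤ d) {w : Fin r → ℝ} (hw : ∀ j, 0 < w j)
    {e : Fin d → Fin r} (he : Function.Injective e) (hp : BoxB (w ∘ e)) :
    ∀ᵐ a : ℝ, 0 < a → ∀ c : ℕ → ℂ, Tay a w c → ∀ (k : ℕ) (σ ε : ℝ), 2 ≤ k →
      (r : ℝ) - (d : ℝ) / k ≤ σ → 0 < ε → ∃ C : ℝ, 0 ≤ C ∧ ∀ T : ℝ, 1 ≤ T →
        ∫⁻ t in Set.Icc 1 T, ‖FF a w c ((σ : ℂ) + (t : ℂ) * I)‖ₑ ^ (2 * k) ≤
        ENNReal.ofReal (C * T ^ (1 + ε)) := by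
  have hdr : d ≤ r := by simpa using Fintype.card_le_of_injective e he
  have hc1 := Real.cos_one_pos
  have hpi := Real.pi_gt_three
  set W : ℝ := 1 + ∑ j, w j with hW
  have hW1 : 1 ≤ W := by
    have : 0 ≤ ∑ j, w j := Finset.sum_nonneg fun j _ => (hw j).le
    linarith
  have hWj : ∀ j, w j ≤ W := by
    intro j
    have : w j ≤ ∑ j, w j := Finset.single_le_sum (f := w) (fun j _ => (hw j).le)
      (Finset.mem_univ j)
    linarith
  set y₀ : ℝ := Real.cos 1 / (4 * Real.pi * W) with hy₀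
  have hy : 0 < y₀ := by positivity
  have hy1 : y₀ ≤ 1 := by
    rw [hy₀, div_le_one (by positivity)]
    have h1 := Real.cos_le_one 1
    nlinarith
  have hyw : ∀ j, w j * (2 * Real.pi * y₀ / Real.cos 1) ≤ 1 / 2 := by
    intro j
    have h1 : 2 * Real.pi * y₀ / Real.cos 1 = 1 / (2 * W) := by
      rw [hy₀]
      field_simp
      ring
    rw [h1, mul_one_div, div_le_iff₀ (by positivity)]
    have := hWj j
    linarith
  have h1 : ∀ N : ℕ, ∃ q : ℕ, ∀ᵐ α : ℝ, 0 < α → ∃ B : ℝ, 0 ≤ B ∧ ∀ n : ℕ,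
      ∑ j ∈ Finset.range (2 * n + 1), ∫⁻ ξ : ℝ,
        ‖𝓕 (kb (1 / ((N : ℝ) + 1) + α) w ((r : ℝ) - (d : ℝ) / 2) ((1 / 2 : ℝ) ^ n)
          (y₀ * 2 ^ j)) ξ‖ₑ ^ 4 ≤
      ENNReal.ofReal (B * ((n : ℝ) + 1) ^ q * ((2 : ℝ) ^ n) ^ (4 * r - 2 * d - 1)) :=
    fun N => ae_shift hw he hp hd (by positivity) hy hy1
  choose q hq using h1
  have h2 := fun N : ℕ => ae_transl (hq N) (1 / ((N : ℝ) + 1))
  filter_upwards [ae_all_iff.2 h2] with a ha ha0 c hc k σ ε hk hσ hε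
  obtain ⟨N, hN⟩ := exists_nat_gt (1 / a)
  have hNa : 1 / ((N : ℝ) + 1) < a := by
    rw [div_lt_iff₀ ha0] at hN
    rw [div_lt_iff₀ (by positivity)]
    nlinarith
  have h3 := ha N (by linarith)
  have h4 : 1 / ((N : ℝ) + 1) + (a - 1 / ((N : ℝ) + 1)) = a := by ring
  rw [h4] at h3
  exact FF_moment hd hdr ha0 hw hc hy hy1 hyw h3 hk hσ hε

end Pool.Agent.T6.H79.BZ4
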