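import Pool.Agent.T6.H79.BZ4.Box

set_option autoImplicit false

/-!
# Barnes zeta functions, fourth moment, part 2: simultaneous approximation in intervals
-/

namespace Pool.Agent.T6.H79.BZ4

open Finset Filter Topology MeasureTheory
open Pool.Agent.T6.H60.BC Pool.Agent.T6.H60.BD

lemma nd_neg (x : ℝ) : nd (-x) = nd x := by
  have h : ∀ x : ℝ, nd (-x) ≤ nd x := by
    intro x
    have h1 := nd_le_sub (-x) (-round x)
    have h2 : |-x - ((-round x : ℤ) : ℝ)| = nd x := by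
      unfold nd
      rw [← abs_neg]
      congr 1
      push_cast
      ring
    rwa [h2] at h1
  apply le_antisymm (h x)
  have := h (-x)
  rwa [neg_neg] at this

lemma nd_small {x : ℝ} (h0 : 0 ≤ x) (h1 : x ≤ 1 / 4) : nd x = x := by
  have h2 : nd x ≤ x := by
    have := nd_le_sub x 0
    simpa [abs_of_nonneg h0] using this
  have h3 : |x - round x| ≤ x := h2
  have h4 := abs_le.1 h3
  have h5 : (round x : ℝ) < 1 := by linarith
  have h6 : (-1 : ℝ) < round x := by linarith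
  have h7 : round x < 1 := by exact_mod_cast h5
  have h8 : -1 < round x := by exact_mod_cast h6
  have h9 : round x = 0 := by omega
  unfold nd
  rw [h9]
  simp [abs_of_nonneg h0]

lemma EE_sub {r d : ℕ} (w : Fin r → ℝ) (e : Fin d → Fin r) (κ : Fin r → ℕ) :
    EE w κ ⊆ EE (w ∘ e) (κ ∘ e) := fun _ hy i => hy (e i)

/-- the part near the origin -/
lemma EE_near {r : ℕ} {w : Fin r → ℝ} (j₀ : Fin r) (hw : 0 < w j₀) {c : ℝ}
    (hc : w j₀ * c ≤ 1 / 4) (κ : Fin r → ℕ) :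
    volume (EE w κ ∩ Set.Icc 0 c) ≤ ENNReal.ofReal ((w j₀)⁻¹ * (1 / 2 : ℝ) ^ κ j₀) := by
  have hsub : EE w κ ∩ Set.Icc 0 c ⊆ Set.Icc 0 ((w j₀)⁻¹ * (1 / 2 : ℝ) ^ κ j₀) := by
    rintro y ⟨h1, h2, h3⟩
    refine ⟨h2, ?_⟩
    have h4 : w j₀ * y ≤ 1 / 4 := (mul_le_mul_of_nonneg_left h3 hw.le).trans hc
    have h5 := h1 j₀
    rw [nd_small (mul_nonneg hw.le h2) h4] at h5
    rw [inv_mul_eq_div, le_div_iff₀ hw]
    linarith
  refine (measure_mono hsub).trans ?_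
  rw [Real.volume_Icc, sub_zero]

/-- the part away from the origin -/
lemma EE_far {r d : ℕ} {w : Fin r → ℝ} {e : Fin d → Fin r} (hp : BoxB (w ∘ e)) {c : ℝ}
    (hc : 0 < c) : ∃ C : ℝ, 0 ≤ C ∧ ∀ (n : ℕ) (κ : Fin r → ℕ) (y : ℝ), (∀ j, κ j ≤ n) → c ≤ y →
      y ≤ 2 ^ (2 * n + 2) → volume (EE w κ ∩ Set.Icc c y) ≤
        ENNReal.ofReal (C * ((n : ℝ) + 1) ^ (d + 4) * (y * ∏ i, (1 / 2 : ℝ) ^ κ (e i))) := by
  obtain ⟨G, hG, hb⟩ := hp c hc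
  refine ⟨G * (1 / c + 2), by positivity, fun n κ y hκ hy hy2 => ?_⟩
  have hy0 : 0 < y := hc.trans_le hy
  have hex : ∃ m : ℕ, y ≤ 2 ^ m := ⟨_, hy2⟩
  obtain ⟨m, hm, hm2, hm3⟩ : ∃ m : ℕ, y ≤ 2 ^ m ∧ m ≤ 2 * n + 2 ∧ (2 : ℝ) ^ m ≤ (1 / c + 2) * y := by
    classical
    refine ⟨Nat.find hex, Nat.find_spec hex, Nat.find_min' hex hy2, ?_⟩
    have h1 : 1 ≤ (1 / c) * y := by rw [one_div, inv_mul_eq_div, le_div_iff₀ hc]; linarith
    rcases Nat.eq_zero_or_pos (Nat.find hex) with h0 | h0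
    · rw [h0, pow_zero]
      nlinarith
    · have h2 : ¬ y ≤ 2 ^ (Nat.find hex - 1) := Nat.find_min hex (by omega)
      have h3 : (2 : ℝ) ^ (Nat.find hex) = 2 * 2 ^ (Nat.find hex - 1) := by
        rw [← pow_succ']
        congr 1
        omega
      rw [h3]
      push Not at h2
      nlinarith
  have h1 : EE w κ ∩ Set.Icc c y ⊆ EE (w ∘ e) (κ ∘ e) ∩ Set.Icc c (2 ^ m) :=
    Set.inter_subset_inter (EE_sub w e κ) (Set.Icc_subset_Icc_right hm)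
  refine (measure_mono h1).trans ((hb n (κ ∘ e) m (fun i => hκ _) hm2).trans ?_)
  apply ENNReal.ofReal_le_ofReal
  have hP : 0 ≤ ∏ i, (1 / 2 : ℝ) ^ κ (e i) := Finset.prod_nonneg fun i _ => by positivity
  have e1 : (∏ i, (1 / 2 : ℝ) ^ (κ ∘ e) i) = ∏ i, (1 / 2 : ℝ) ^ κ (e i) := rfl
  rw [e1]
  calc G * ((n : ℝ) + 1) ^ (d + 4) * 2 ^ m * ∏ i, (1 / 2 : ℝ) ^ κ (e i)
      ≤ G * ((n : ℝ) + 1) ^ (d + 4) * ((1 / c + 2) * y) * ∏ i, (1 / 2 : ℝ) ^ κ (e i) := by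
        gcongr
    _ = _ := by ring

/-- intervals starting from the origin -/
lemma EE_zero {r d : ℕ} {w : Fin r → ℝ} (hw : ∀ j, 0 < w j) {e : Fin d → Fin r}
    (hp : BoxB (w ∘ e)) (j₀ : Fin r) :
    ∃ C : ℝ, 0 ≤ C ∧ ∀ (n : ℕ) (κ : Fin r → ℕ) (y : ℝ), (∀ j, κ j ≤ n) → 0 ≤ y →
      y ≤ 2 ^ (2 * n + 2) → volume (EE w κ ∩ Set.Icc 0 y) ≤
        ENNReal.ofReal (C * ((n : ℝ) + 1) ^ (d + 4) *
          ((1 / 2 : ℝ) ^ κ j₀ + y * ∏ i, (1 / 2 : ℝ) ^ κ (e i))) := by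
  set c : ℝ := 1 / (4 * w j₀) with hcd
  have hw0 := hw j₀
  have hc : 0 < c := by positivity
  have hwc : w j₀ * c ≤ 1 / 4 := by
    rw [hcd]
    apply le_of_eq
    field_simp
  obtain ⟨G, hG, hb⟩ := EE_far hp hc
  refine ⟨(w j₀)⁻¹ + G, by positivity, fun n κ y hκ hy hy2 => ?_⟩
  have hP : 0 ≤ ∏ i, (1 / 2 : ℝ) ^ κ (e i) := Finset.prod_nonneg fun i _ => by positivity
  have hn1 : 1 ≤ ((n : ℝ) + 1) ^ (d + 4) := one_le_pow₀ (by
    have : (0 : ℝ) ≤ n := Nat.cast_nonneg n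
    linarith)
  have hnear := EE_near j₀ hw0 hwc κ
  have key1 : (w j₀)⁻¹ * (1 / 2 : ℝ) ^ κ j₀ ≤ (w j₀)⁻¹ * ((n : ℝ) + 1) ^ (d + 4) *
      ((1 / 2 : ℝ) ^ κ j₀ + y * ∏ i, (1 / 2 : ℝ) ^ κ (e i)) := by
    have h1 : (w j₀)⁻¹ ≤ (w j₀)⁻¹ * ((n : ℝ) + 1) ^ (d + 4) := le_mul_of_one_le_right
      (by positivity) hn1
    have h2 : (1 / 2 : ℝ) ^ κ j₀ ≤ (1 / 2 : ℝ) ^ κ j₀ + y * ∏ i, (1 / 2 : ℝ) ^ κ (e i) := by
      have : 0 ≤ y * ∏ i, (1 / 2 : ℝ) ^ κ (e i) := mul_nonneg hy hP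
      linarith
    exact mul_le_mul h1 h2 (by positivity) (by positivity)
  have hQ : 0 ≤ (1 / 2 : ℝ) ^ κ j₀ + y * ∏ i, (1 / 2 : ℝ) ^ κ (e i) := by
    have : 0 ≤ y * ∏ i, (1 / 2 : ℝ) ^ κ (e i) := mul_nonneg hy hP
    positivity
  rcases le_total y c with h | h
  · refine (measure_mono (Set.inter_subset_inter_right _ (Set.Icc_subset_Icc_right h))).trans
      (hnear.trans (ENNReal.ofReal_le_ofReal (key1.trans ?_)))
    have : 0 ≤ G * ((n : ℝ) + 1) ^ (d + 4) *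
      ((1 / 2 : ℝ) ^ κ j₀ + y * ∏ i, (1 / 2 : ℝ) ^ κ (e i)) := by positivity
    nlinarith
  · have hsub : EE w κ ∩ Set.Icc 0 y ⊆ (EE w κ ∩ Set.Icc 0 c) ∪ (EE w κ ∩ Set.Icc c y) := by
      rintro t ⟨h1, h2, h3⟩
      rcases le_total t c with h4 | h4
      · exact Or.inl ⟨h1, h2, h4⟩
      · exact Or.inr ⟨h1, h4, h3⟩
    refine (measure_mono hsub).trans ((measure_union_le _ _).trans
      ((add_le_add hnear (hb n κ y hκ h hy2)).trans ?_))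
    rw [← ENNReal.ofReal_add (by positivity) (by positivity)]
    apply ENNReal.ofReal_le_ofReal
    have key2 : G * ((n : ℝ) + 1) ^ (d + 4) * (y * ∏ i, (1 / 2 : ℝ) ^ κ (e i)) ≤
        G * ((n : ℝ) + 1) ^ (d + 4) *
          ((1 / 2 : ℝ) ^ κ j₀ + y * ∏ i, (1 / 2 : ℝ) ^ κ (e i)) := by
      apply mul_le_mul_of_nonneg_left _ (by positivity)
      have : 0 < (1 / 2 : ℝ) ^ κ j₀ := by positivity
      linarith
    nlinarith

/-- all intervals -/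
theorem EE_vol {r d : ℕ} {w : Fin r → ℝ} (hw : ∀ j, 0 < w j) {e : Fin d → Fin r}
    (hp : BoxB (w ∘ e)) (j₀ : Fin r) :
    ∃ C : ℝ, 0 ≤ C ∧ ∀ (n : ℕ) (κ : Fin r → ℕ) (x y : ℝ), (∀ j, κ j ≤ n) → 0 ≤ y →
      y ≤ 2 ^ (2 * n + 2) → volume (EE w κ ∩ Set.Icc x (x + y)) ≤
        ENNReal.ofReal (C * ((n : ℝ) + 1) ^ (d + 4) *
          ((1 / 2 : ℝ) ^ κ j₀ + y * ∏ i, (1 / 2 : ℝ) ^ κ (e i))) := by
  obtain ⟨C, hC, hb⟩ := EE_zero hw hp j₀
  refine ⟨2 * (C * (2 * 2 ^ d)), by positivity, fun n κ x y hκ hy hy2 => ?_⟩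
  set κ' : Fin r → ℕ := fun j => κ j - 1 with hκ'
  set S : Set ℝ := EE w κ' ∩ Set.Icc 0 y with hS
  have hP : 0 ≤ ∏ i, (1 / 2 : ℝ) ^ κ (e i) := Finset.prod_nonneg fun i _ => by positivity
  have hp1 : ∀ k : ℕ, (1 / 2 : ℝ) ^ (k - 1) ≤ 2 * (1 / 2 : ℝ) ^ k := by
    intro k
    rcases Nat.eq_zero_or_pos k with h | h
    · subst h
      norm_num
    · obtain ⟨k', rfl⟩ : ∃ k', k = k' + 1 := ⟨k - 1, by omega⟩
      rw [Nat.add_sub_cancel, pow_succ]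
      linarith
  have hnd2 : ∀ k : ℕ, ∀ z : ℝ, nd z ≤ 2 * (1 / 2 : ℝ) ^ k → nd z ≤ (1 / 2 : ℝ) ^ (k - 1) := by
    intro k z hz
    rcases Nat.eq_zero_or_pos k with h | h
    · subst h
      have := nd_le_half z
      simp only [Nat.zero_sub, pow_zero]
      linarith
    · obtain ⟨k', rfl⟩ : ∃ k', k = k' + 1 := ⟨k - 1, by omega⟩
      rw [Nat.add_sub_cancel]
      rw [pow_succ] at hz
      linarith
  rcases (EE w κ ∩ Set.Icc x (x + y)).eq_empty_or_nonempty with he | ⟨y₀, hy0, hy1⟩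
  · rw [he, measure_empty]
    exact bot_le
  · have hsub : EE w κ ∩ Set.Icc x (x + y) ⊆ (fun t : ℝ => t - y₀) ⁻¹' (S ∪ Neg.neg ⁻¹' S) := by
      rintro t ⟨h1, h2⟩
      have h3 : ∀ j, nd (w j * (t - y₀)) ≤ (1 / 2 : ℝ) ^ κ' j := by
        intro j
        apply hnd2
        have h4 : w j * (t - y₀) = w j * t - w j * y₀ := by ring
        rw [h4]
        have h5 := nd_sub_le (w j * t) (w j * y₀)
        have h6 := h1 j
        have h7 := hy0 j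
        linarith
      rcases le_total 0 (t - y₀) with h | h
      · left
        exact ⟨h3, h, by linarith [h2.2, hy1.1]⟩
      · right
        refine ⟨fun j => ?_, by simpa using h, ?_⟩
        · have h4 : w j * -(t - y₀) = -(w j * (t - y₀)) := by ring
          show nd (w j * -(t - y₀)) ≤ _
          rw [h4, nd_neg]
          exact h3 j
        · show -(t - y₀) ≤ y
          linarith [h2.1, hy1.2]
    have hSm : MeasurableSet S := (EE_meas w κ').inter measurableSet_Icc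
    refine (measure_mono hsub).trans ?_
    have htr : volume ((fun t : ℝ => t - y₀) ⁻¹' (S ∪ Neg.neg ⁻¹' S)) =
        volume (S ∪ Neg.neg ⁻¹' S) := by
      simp only [sub_eq_add_neg]
      exact measure_preimage_add_right volume (-y₀) _
    rw [htr]
    refine (measure_union_le _ _).trans ?_
    rw [Measure.measure_preimage_neg]
    have h1 := hb n κ' y (fun j => (Nat.sub_le _ _).trans (hκ j)) hy hy2
    refine (add_le_add h1 h1).trans ?_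
    have hP' : 0 ≤ ∏ i, (1 / 2 : ℝ) ^ κ' (e i) := Finset.prod_nonneg fun i _ => by positivity
    rw [← ENNReal.ofReal_add (by positivity) (by positivity)]
    apply ENNReal.ofReal_le_ofReal
    have h2 : ∏ i, (1 / 2 : ℝ) ^ κ' (e i) ≤ 2 ^ d * ∏ i, (1 / 2 : ℝ) ^ κ (e i) := by
      calc ∏ i, (1 / 2 : ℝ) ^ κ' (e i) ≤ ∏ i, (2 * (1 / 2 : ℝ) ^ κ (e i)) :=
            Finset.prod_le_prod (fun i _ => by positivity) fun i _ => hp1 _
        _ = _ := by rw [Finset.prod_mul_distrib]; simp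
    have h3 : (1 / 2 : ℝ) ^ κ' j₀ ≤ 2 * 2 ^ d * (1 / 2 : ℝ) ^ κ j₀ := by
      refine (hp1 _).trans ?_
      have : (1 : ℝ) ≤ 2 ^ d := one_le_pow₀ (by norm_num)
      have h4 : 0 < (1 / 2 : ℝ) ^ κ j₀ := by positivity
      nlinarith
    have h4 : y * ∏ i, (1 / 2 : ℝ) ^ κ' (e i) ≤ 2 * 2 ^ d * (y * ∏ i, (1 / 2 : ℝ) ^ κ (e i)) := by
      have h5 := mul_le_mul_of_nonneg_left h2 hy
      have h6 : 0 ≤ 2 ^ d * (y * ∏ i, (1 / 2 : ℝ) ^ κ (e i)) := by positivity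
      nlinarith
    have h5 : (1 / 2 : ℝ) ^ κ' j₀ + y * ∏ i, (1 / 2 : ℝ) ^ κ' (e i) ≤
        2 * 2 ^ d * ((1 / 2 : ℝ) ^ κ j₀ + y * ∏ i, (1 / 2 : ℝ) ^ κ (e i)) := by linarith
    have h6 := mul_le_mul_of_nonneg_left h5 (show 0 ≤ C * ((n : ℝ) + 1) ^ (d + 4) by positivity)
    nlinarith

end Pool.Agent.T6.H79.BZ4
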