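import Mathlib

set_option autoImplicit false

/-!
# Barnes zeta functions, fourth moment, part 5: the average over the shift
-/

namespace Pool.Agent.T6.H79.BZ4

open Finset Filter Topology MeasureTheory Complex ComplexConjugate

/-- the weight of the average -/
lemma wt_int (r : ℂ) (hr : 0 < r.re) :
    ∫ t in Set.Ioi (0 : ℝ), (t : ℂ) * cexp (-(r * t)) = (1 / r) ^ 2 := by
  have hr0 : r ≠ 0 := by
    rintro rfl
    simp at hr
  have hd : ∀ t ∈ Set.Ici (0 : ℝ), HasDerivAt
      (fun t : ℝ => -(((t : ℂ) / r + 1 / r ^ 2) * cexp (-(r * t)))) ((t : ℂ) * cexp (-(r * t))) t := by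
    intro t _
    have h0 : HasDerivAt (fun t : ℝ => (t : ℂ)) 1 t := Complex.ofRealCLM.hasDerivAt
    have h1 : HasDerivAt (fun t : ℝ => (t : ℂ) / r + 1 / r ^ 2) (1 / r) t :=
      (h0.div_const r).add_const _
    have h2 : HasDerivAt (fun t : ℝ => cexp (-(r * t))) (cexp (-(r * t)) * (-(r * 1))) t :=
      ((h0.const_mul r).neg).cexp
    refine (h1.mul h2).neg.congr_deriv ?_
    field_simp
    ring
  have hnorm : ∀ t : ℝ, ‖cexp (-(r * t))‖ = Real.exp (-r.re * t) := by
    intro t
    rw [Complex.norm_exp]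
    congr 1
    simp
  have hint : IntegrableOn (fun t : ℝ => (t : ℂ) * cexp (-(r * t))) (Set.Ioi 0) := by
    have h1 := integrableOn_rpow_mul_exp_neg_mul_rpow (p := 1) (s := 1) (b := r.re)
      (by norm_num) one_pos hr
    refine Integrable.mono (μ := volume.restrict (Set.Ioi 0)) h1 (by
      have : Continuous fun t : ℝ => (t : ℂ) * cexp (-(r * t)) := by fun_prop
      exact this.aestronglyMeasurable) ?_
    filter_upwards [ae_restrict_mem measurableSet_Ioi] with t ht
    have ht0 : (0 : ℝ) < t := ht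
    rw [norm_mul, hnorm, Complex.norm_real, norm_mul, Real.rpow_one,
      Real.norm_of_nonneg (Real.exp_pos _).le]
  have hlim : Tendsto (fun t : ℝ => -(((t : ℂ) / r + 1 / r ^ 2) * cexp (-(r * t)))) atTop
      (𝓝 0) := by
    have h1 := (tendsto_rpow_mul_exp_neg_mul_atTop_nhds_zero 1 r.re hr).const_mul (‖r‖⁻¹)
    have h2 := (tendsto_rpow_mul_exp_neg_mul_atTop_nhds_zero 0 r.re hr).const_mul (‖1 / r ^ 2‖)
    have h3 := h1.add h2
    simp only [mul_zero, add_zero] at h3
    refine squeeze_zero_norm' ?_ h3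
    filter_upwards [eventually_ge_atTop (0 : ℝ)] with t ht
    rw [norm_neg, norm_mul, hnorm, Real.rpow_one, Real.rpow_zero, one_mul]
    calc ‖(t : ℂ) / r + 1 / r ^ 2‖ * Real.exp (-r.re * t) ≤
        (‖(t : ℂ) / r‖ + ‖1 / r ^ 2‖) * Real.exp (-r.re * t) := by
          gcongr
          exact norm_add_le _ _
      _ = _ := by
          rw [norm_div, Complex.norm_real, Real.norm_of_nonneg ht]
          ring
  rw [integral_Ioi_of_hasDerivAt_of_tendsto' hd hint hlim]
  simp

lemma wt_real : ∫ t in Set.Ioi (0 : ℝ), t * Real.exp (-t) = 1 := by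
  have h := wt_int 1 (by norm_num)
  have h2 : ∫ t in Set.Ioi (0 : ℝ), (t : ℂ) * cexp (-(1 * t)) =
      ((∫ t in Set.Ioi (0 : ℝ), t * Real.exp (-t) : ℝ) : ℂ) := by
    rw [← integral_complex_ofReal]
    refine setIntegral_congr_fun measurableSet_Ioi fun t _ => ?_
    push_cast
    rw [one_mul]
  rw [h2] at h
  norm_num at h
  exact_mod_cast h

lemma wt_integrable : Integrable (fun t : ℝ => t * Real.exp (-t))
    (volume.restrict (Set.Ioi (0 : ℝ))) := by
  by_contra h
  have := integral_undef h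
  rw [wt_real] at this
  exact one_ne_zero this

lemma wt_lint : ∫⁻ t in Set.Ioi (0 : ℝ), ENNReal.ofReal (t * Real.exp (-t)) = 1 := by
  rw [← ofReal_integral_eq_lintegral_ofReal wt_integrable, wt_real, ENNReal.ofReal_one]
  filter_upwards [ae_restrict_mem measurableSet_Ioi] with t ht
  have : (0 : ℝ) < t := ht
  positivity

/-- the average of the square of an exponential integral -/
theorem avg_exp {X : Type*} [MeasurableSpace X] {μ : Measure X} [SFinite μ] {φ ζ : X → ℂ}
    (hφm : Measurable φ) (hφ : Integrable φ μ) (hζ : Measurable ζ) (hre : ∀ x, 0 ≤ (ζ x).re) :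
    ∫⁻ α in Set.Ioi (0 : ℝ), ENNReal.ofReal (α * Real.exp (-α)) *
      ‖∫ x, φ x * cexp (-(α : ℂ) * ζ x) ∂μ‖ₑ ^ 2 ≤
    ∫⁻ x, ∫⁻ y, ‖φ x‖ₑ * ‖φ y‖ₑ * ENNReal.ofReal ((1 + ((ζ x).im - (ζ y).im) ^ 2)⁻¹) ∂μ ∂μ := by
  set g : ℝ → ℂ := fun α => ∫ x, φ x * cexp (-((|α| : ℝ) : ℂ) * ζ x) ∂μ with hg
  set G : ℝ → X × X → ℂ := fun α p => ((α * Real.exp (-α) : ℝ) : ℂ) *
    ((φ p.1 * conj (φ p.2)) * cexp (-((|α| : ℝ) : ℂ) * (ζ p.1 + conj (ζ p.2)))) with hG
  have hconjm : Measurable fun x => conj (φ x) := Complex.continuous_conj.measurable.comp hφm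
  have hconjz : Measurable fun x => conj (ζ x) := Complex.continuous_conj.measurable.comp hζ
  have hGm : Measurable (Function.uncurry G) := by
    simp only [hG, Function.uncurry_def]
    have h1 : Measurable fun q : ℝ × X × X => ((q.1 * Real.exp (-q.1) : ℝ) : ℂ) := by fun_prop
    have h2 : Measurable fun q : ℝ × X × X => φ q.2.1 * conj (φ q.2.2) :=
      (hφm.comp (measurable_fst.comp measurable_snd)).mul
        (hconjm.comp (measurable_snd.comp measurable_snd))
    have h3 : Measurable fun q : ℝ × X × X => ζ q.2.1 + conj (ζ q.2.2) :=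
      (hζ.comp (measurable_fst.comp measurable_snd)).add
        (hconjz.comp (measurable_snd.comp measurable_snd))
    have h4 : Measurable fun q : ℝ × X × X => -((|q.1| : ℝ) : ℂ) := by
      have : Continuous fun t : ℝ => -((|t| : ℝ) : ℂ) := by fun_prop
      exact this.measurable.comp measurable_fst
    exact h1.mul (h2.mul ((h4.mul h3).cexp))
  have hexp : ∀ (α : ℝ) (z : ℂ), 0 ≤ z.re → ‖cexp (-((|α| : ℝ) : ℂ) * z)‖ ≤ 1 := by
    intro α z hz
    rw [Complex.norm_exp]
    have : (-((|α| : ℝ) : ℂ) * z).re = -(|α| * z.re) := by simp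
    rw [this, Real.exp_le_one_iff]
    have := mul_nonneg (abs_nonneg α) hz
    linarith
  have hφφ : Integrable (fun p : X × X => φ p.1 * conj (φ p.2)) (μ.prod μ) := by
    have h1 : Integrable (fun x => conj (φ x)) μ :=
      hφ.norm.mono hconjm.aestronglyMeasurable (Eventually.of_forall fun x => by simp)
    exact hφ.mul_prod h1
  have hGi : Integrable (Function.uncurry G)
      ((volume.restrict (Set.Ioi (0 : ℝ))).prod (μ.prod μ)) := by
    have h1 : Integrable (fun t : ℝ => ((t * Real.exp (-t) : ℝ) : ℂ))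
        (volume.restrict (Set.Ioi (0 : ℝ))) := wt_integrable.ofReal
    refine (h1.mul_prod hφφ).mono hGm.aestronglyMeasurable (Eventually.of_forall fun q => ?_)
    simp only [hG, Function.uncurry_def]
    rw [norm_mul, norm_mul (((q.1 * Real.exp (-q.1) : ℝ) : ℂ)), norm_mul (φ q.2.1 * conj (φ q.2.2))]
    gcongr
    calc ‖φ q.2.1 * conj (φ q.2.2)‖ * ‖cexp (-((|q.1| : ℝ) : ℂ) * (ζ q.2.1 + conj (ζ q.2.2)))‖
        ≤ ‖φ q.2.1 * conj (φ q.2.2)‖ * 1 := by
          gcongr
          apply hexp
          simp only [Complex.add_re, Complex.conj_re]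
          exact add_nonneg (hre _) (hre _)
      _ = _ := mul_one _
  -- the square of `g`
  have hgg : ∀ α : ℝ, ∫ p, G α p ∂(μ.prod μ) = ((α * Real.exp (-α) * ‖g α‖ ^ 2 : ℝ) : ℂ) := by
    intro α
    have h1 : ((‖g α‖ ^ 2 : ℝ) : ℂ) = g α * conj (g α) := by
      rw [Complex.mul_conj, Complex.normSq_eq_norm_sq]
    have h2 : conj (g α) = ∫ y, conj (φ y) * cexp (-((|α| : ℝ) : ℂ) * conj (ζ y)) ∂μ := by
      simp only [hg]
      rw [← integral_conj]
      refine integral_congr_ae (Eventually.of_forall fun y => ?_)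
      simp only [map_mul, ← Complex.exp_conj, map_neg, Complex.conj_ofReal]
    have h3 : ∫ p, G α p ∂(μ.prod μ) = ((α * Real.exp (-α) : ℝ) : ℂ) * (g α * conj (g α)) := by
      rw [h2]
      simp only [hg]
      rw [← integral_prod_mul, ← integral_const_mul]
      refine integral_congr_ae (Eventually.of_forall fun p => ?_)
      simp only [hG]
      rw [mul_add, Complex.exp_add]
      ring
    rw [h3, ← h1]
    push_cast
    ring
  have hint2 : Integrable (fun α : ℝ => α * Real.exp (-α) * ‖g α‖ ^ 2)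
      (volume.restrict (Set.Ioi (0 : ℝ))) := by
    have h1 := hGi.integral_prod_left
    have h2 : (fun α : ℝ => ∫ p, Function.uncurry G (α, p) ∂(μ.prod μ)) =
        fun α : ℝ => ((α * Real.exp (-α) * ‖g α‖ ^ 2 : ℝ) : ℂ) := funext fun α => hgg α
    rw [h2] at h1
    have h3 := h1.re
    simpa only [RCLike.re_to_complex, Complex.ofReal_re] using h3
  calc ∫⁻ α in Set.Ioi (0 : ℝ), ENNReal.ofReal (α * Real.exp (-α)) *
        ‖∫ x, φ x * cexp (-(α : ℂ) * ζ x) ∂μ‖ₑ ^ 2
      = ∫⁻ α in Set.Ioi (0 : ℝ), ENNReal.ofReal (α * Real.exp (-α) * ‖g α‖ ^ 2) := by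
        refine setLIntegral_congr_fun measurableSet_Ioi fun α hα => ?_
        have hα0 : 0 < α := hα
        simp only [hg]
        rw [abs_of_pos hα0, ENNReal.ofReal_mul (show 0 ≤ α * Real.exp (-α) by positivity),
          ENNReal.ofReal_pow (norm_nonneg _), ofReal_norm]
    _ = ENNReal.ofReal (∫ α in Set.Ioi (0 : ℝ), α * Real.exp (-α) * ‖g α‖ ^ 2) := by
        rw [ofReal_integral_eq_lintegral_ofReal hint2]
        filter_upwards [ae_restrict_mem measurableSet_Ioi] with t ht
        have : (0 : ℝ) < t := ht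
        positivity
    _ ≤ ‖∫ p, (∫ α in Set.Ioi (0 : ℝ), G α p) ∂(μ.prod μ)‖ₑ := by
        rw [← integral_integral_swap hGi]
        have h4 : ∫ α in Set.Ioi (0 : ℝ), ∫ p, G α p ∂(μ.prod μ) =
            ((∫ α in Set.Ioi (0 : ℝ), α * Real.exp (-α) * ‖g α‖ ^ 2 : ℝ) : ℂ) := by
          rw [← integral_complex_ofReal]
          exact integral_congr_ae (Eventually.of_forall fun α => hgg α)
        rw [h4, ← ofReal_norm]
        apply ENNReal.ofReal_le_ofReal
        rw [Complex.norm_real]
        exact le_abs_self _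
    _ ≤ ∫⁻ p, ‖∫ α in Set.Ioi (0 : ℝ), G α p‖ₑ ∂(μ.prod μ) :=
        enorm_integral_le_lintegral_enorm _
    _ ≤ ∫⁻ p : X × X, ‖φ p.1‖ₑ * ‖φ p.2‖ₑ *
        ENNReal.ofReal ((1 + ((ζ p.1).im - (ζ p.2).im) ^ 2)⁻¹) ∂(μ.prod μ) := by
        refine lintegral_mono fun p => ?_
        simp only
        set r : ℂ := 1 + ζ p.1 + conj (ζ p.2) with hr
        have hre' : 1 ≤ r.re := by
          simp only [hr, Complex.add_re, Complex.one_re, Complex.conj_re]
          linarith [hre p.1, hre p.2]
        have him : r.im = (ζ p.1).im - (ζ p.2).im := by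
          simp only [hr, Complex.add_im, Complex.one_im, Complex.conj_im]
          ring
        have h5 : ∫ α in Set.Ioi (0 : ℝ), G α p = (φ p.1 * conj (φ p.2)) * (1 / r) ^ 2 := by
          rw [← wt_int r (by linarith), ← integral_const_mul]
          refine setIntegral_congr_fun measurableSet_Ioi fun α hα => ?_
          have hα0 : 0 < α := hα
          simp only [hG]
          rw [abs_of_pos hα0]
          have h6 : cexp (-(r * α)) = ((Real.exp (-α) : ℝ) : ℂ) *
              cexp (-(α : ℂ) * (ζ p.1 + conj (ζ p.2))) := by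
            rw [Complex.ofReal_exp, ← Complex.exp_add]
            congr 1
            rw [hr]
            push_cast
            ring
          rw [h6]
          push_cast
          ring
        rw [h5, enorm_mul, enorm_mul, ← ofReal_norm (conj (φ p.2)), Complex.norm_conj,
          ofReal_norm]
        gcongr
        rw [← ofReal_norm]
        apply ENNReal.ofReal_le_ofReal
        rw [norm_pow, norm_div, norm_one, one_div, inv_pow]
        apply inv_anti₀ (by positivity)
        rw [← Complex.normSq_eq_norm_sq, Complex.normSq_apply, him]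
        nlinarith
    _ = _ := by
        rw [lintegral_prod]
        have h7 : Measurable fun p : X × X => ‖φ p.1‖ₑ * ‖φ p.2‖ₑ *
            ENNReal.ofReal ((1 + ((ζ p.1).im - (ζ p.2).im) ^ 2)⁻¹) := by
          refine (((hφm.comp measurable_fst).enorm).mul ((hφm.comp measurable_snd).enorm)).mul
            (Measurable.ennreal_ofReal ?_)
          have h8 : Measurable fun x => (ζ x).im := Complex.measurable_im.comp hζ
          exact (measurable_const.add (((h8.comp measurable_fst).sub
            (h8.comp measurable_snd)).pow_const 2)).inv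
        exact h7.aemeasurable

end Pool.Agent.T6.H79.BZ4
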