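import Pool.Agent.TH794.QD.Planch
import Pool.Agent.T6.H79.BZ4.AvgA

set_option autoImplicit false

/-!
# Barnes zeta functions, fourth moment, part 6: fourth powers of Fourier transforms
-/

namespace Pool.Agent.T6.H79.BZ4

open Finset Filter Topology MeasureTheory Complex FourierTransform
open scoped Convolution

/-- Plancherel's theorem for the square of the Fourier transform -/
theorem four_eq {k : ℝ → ℂ} (hk : Integrable k) {B : ℝ} (hB : ∀ u, ‖k u‖ ≤ B) :
    ∫⁻ ξ, ‖𝓕 k ξ‖ₑ ^ 4 = ∫⁻ U, ‖∫ x, k x * k (U - x)‖ₑ ^ 2 := by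
  set K : ℝ → ℂ := k ⋆[ContinuousLinearMap.mul ℂ ℂ] k with hK
  have hKe : ∀ U, K U = ∫ x, k x * k (U - x) := fun U => rfl
  have hKi : Integrable K := hk.integrable_convolution (ContinuousLinearMap.mul ℂ ℂ) hk
  have hB0 : 0 ≤ B := (norm_nonneg _).trans (hB 0)
  have hKb : ∀ U, ‖K U‖ ≤ B * ∫ x, ‖k x‖ := by
    intro U
    rw [hKe, ← integral_const_mul]
    refine norm_integral_le_of_norm_le (hk.norm.const_mul B) (Eventually.of_forall fun x => ?_)
    rw [norm_mul, mul_comm]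
    exact mul_le_mul_of_nonneg_right (hB _) (norm_nonneg _)
  have hK2 : MemLp K 2 := by
    rw [memLp_two_iff_integrable_sq_norm hKi.aestronglyMeasurable]
    refine (hKi.norm.const_mul (B * ∫ x, ‖k x‖)).mono
      (hKi.aestronglyMeasurable.norm.pow 2) (Eventually.of_forall fun x => ?_)
    have h0 : 0 ≤ B * ∫ x, ‖k x‖ := mul_nonneg hB0 (integral_nonneg fun _ => norm_nonneg _)
    rw [Real.norm_of_nonneg (by positivity), Real.norm_of_nonneg (by positivity), sq]
    exact mul_le_mul_of_nonneg_right (hKb x) (norm_nonneg _)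
  have h1 := Pool.Agent.TH794.QD.plancherel K hKi hK2
  calc ∫⁻ ξ, ‖𝓕 k ξ‖ₑ ^ 4 = ∫⁻ ξ, ‖𝓕 K ξ‖ₑ ^ 2 := by
        refine lintegral_congr fun ξ => ?_
        rw [hK, Real.fourier_mul_convolution_eq hk hk, enorm_mul]
        ring
    _ = _ := h1

lemma exp_le_one' {α : ℝ} {c : ℂ} (hα : 0 ≤ α) (hc : 0 ≤ c.re) : ‖cexp (-(α : ℂ) * c)‖ ≤ 1 := by
  rw [Complex.norm_exp]
  have : (-(α : ℂ) * c).re = -(α * c.re) := by simp
  rw [this, Real.exp_le_one_iff]
  have := mul_nonneg hα hc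
  linarith

/-- the inner integral as a function of the shift and the variable of the convolution -/
noncomputable def JI (k z : ℝ → ℂ) (α U : ℝ) : ℂ :=
  ∫ x : ℝ, (k x * k (U - x)) * cexp (-(α : ℂ) * (z x + z (U - x)))

/-- the fourth moment of the Fourier transform of the shifted function -/
noncomputable def F4 (k z : ℝ → ℂ) (α : ℝ) : ENNReal :=
  ∫⁻ ξ : ℝ, ‖𝓕 (fun u : ℝ => k u * cexp (-(α : ℂ) * z u)) ξ‖ₑ ^ 4

lemma four_slice {k : ℝ → ℂ} (hkm : Measurable k) (hk : Integrable k) {B : ℝ}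
    (hB : ∀ u, ‖k u‖ ≤ B) {z : ℝ → ℂ} (hz : Measurable z) (hre : ∀ u, 0 ≤ (z u).re) {α : ℝ}
    (hα : 0 ≤ α) : F4 k z α = ∫⁻ U : ℝ, ‖JI k z α U‖ₑ ^ 2 := by
  unfold F4
  have hm : Measurable fun u : ℝ => k u * cexp (-(α : ℂ) * z u) :=
    hkm.mul ((measurable_const.mul hz).cexp)
  have hle : ∀ u, ‖k u * cexp (-(α : ℂ) * z u)‖ ≤ ‖k u‖ := by
    intro u
    rw [norm_mul]
    exact mul_le_of_le_one_right (norm_nonneg _) (exp_le_one' hα (hre u))
  have hi : Integrable fun u : ℝ => k u * cexp (-(α : ℂ) * z u) :=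
    hk.mono hm.aestronglyMeasurable (Eventually.of_forall hle)
  refine (four_eq hi (B := B) fun u => (hle u).trans (hB u)).trans ?_
  refine lintegral_congr fun U => ?_
  unfold JI
  have h1 : ∫ x : ℝ, k x * cexp (-(α : ℂ) * z x) * (k (U - x) * cexp (-(α : ℂ) * z (U - x))) =
      ∫ x : ℝ, (k x * k (U - x)) * cexp (-(α : ℂ) * (z x + z (U - x))) := by
    refine integral_congr_ae (Eventually.of_forall fun x => ?_)
    show k x * cexp (-(α : ℂ) * z x) * (k (U - x) * cexp (-(α : ℂ) * z (U - x))) =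
      k x * k (U - x) * cexp (-(α : ℂ) * (z x + z (U - x)))
    rw [mul_add, Complex.exp_add]
    ring
  rw [h1]

lemma JI_meas {k : ℝ → ℂ} (hkm : Measurable k) {z : ℝ → ℂ} (hz : Measurable z) :
    Measurable fun q : ℝ × ℝ => ‖JI k z q.1 q.2‖ₑ ^ 2 := by
  have h1 : Measurable fun q : (ℝ × ℝ) × ℝ => (k q.2 * k (q.1.2 - q.2)) *
      cexp (-(q.1.1 : ℂ) * (z q.2 + z (q.1.2 - q.2))) := by
    have e2 : Measurable fun q : (ℝ × ℝ) × ℝ => q.1.2 - q.2 := by fun_prop
    have e3 : Measurable fun q : (ℝ × ℝ) × ℝ => q.2 := measurable_snd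
    have e4 : Measurable fun q : (ℝ × ℝ) × ℝ => -((q.1.1 : ℝ) : ℂ) := by fun_prop
    exact ((hkm.comp e3).mul (hkm.comp e2)).mul
      ((e4.mul ((hz.comp e3).add (hz.comp e2))).cexp)
  have h2 := (h1.stronglyMeasurable.integral_prod_right' (ν := (volume : Measure ℝ)))
  exact h2.measurable.enorm.pow_const 2

lemma JI_avg {k : ℝ → ℂ} (hkm : Measurable k) (hk : Integrable k) {B : ℝ}
    (hB : ∀ u, ‖k u‖ ≤ B) {z : ℝ → ℂ} (hz : Measurable z) (hre : ∀ u, 0 ≤ (z u).re) (U : ℝ) :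
    ∫⁻ α in Set.Ioi (0 : ℝ), ENNReal.ofReal (α * Real.exp (-α)) * ‖JI k z α U‖ₑ ^ 2 ≤
      ∫⁻ x : ℝ, ∫⁻ y : ℝ, (‖k x‖ₑ * ‖k (U - x)‖ₑ) * (‖k y‖ₑ * ‖k (U - y)‖ₑ) *
      ENNReal.ofReal ((1 + ((z x).im + (z (U - x)).im - ((z y).im + (z (U - y)).im)) ^ 2)⁻¹) := by
  have hB0 : 0 ≤ B := (norm_nonneg _).trans (hB 0)
  have hm2 : Measurable fun x : ℝ => k x * k (U - x) :=
    hkm.mul (hkm.comp (measurable_const.sub measurable_id))
  have hi2 : Integrable fun x : ℝ => k x * k (U - x) := by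
    refine (hk.norm.const_mul B).mono hm2.aestronglyMeasurable
      (Eventually.of_forall fun x => ?_)
    rw [norm_mul, norm_mul, norm_norm, Real.norm_of_nonneg hB0, mul_comm]
    exact mul_le_mul_of_nonneg_right (hB _) (norm_nonneg _)
  have hz2 : Measurable fun x : ℝ => z x + z (U - x) :=
    hz.add (hz.comp (measurable_const.sub measurable_id))
  have h4 := avg_exp (μ := (volume : Measure ℝ)) (φ := fun x : ℝ => k x * k (U - x))
    (ζ := fun x : ℝ => z x + z (U - x)) hm2 hi2 hz2 (fun x => by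
      rw [Complex.add_re]
      exact add_nonneg (hre _) (hre _))
  refine le_trans h4 (le_of_eq ?_)
  refine lintegral_congr fun x => lintegral_congr fun y => ?_
  rw [enorm_mul, enorm_mul, Complex.add_im, Complex.add_im]

/-- Fubini and the average over the shift -/
theorem four_avg {k : ℝ → ℂ} (hkm : Measurable k) (hk : Integrable k) {B : ℝ}
    (hB : ∀ u, ‖k u‖ ≤ B) {z : ℝ → ℂ} (hz : Measurable z) (hre : ∀ u, 0 ≤ (z u).re) :
    ∫⁻ α in Set.Ioi (0 : ℝ), ENNReal.ofReal (α * Real.exp (-α)) * F4 k z α ≤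
    ∫⁻ U : ℝ, ∫⁻ x : ℝ, ∫⁻ y : ℝ, (‖k x‖ₑ * ‖k (U - x)‖ₑ) * (‖k y‖ₑ * ‖k (U - y)‖ₑ) *
      ENNReal.ofReal ((1 + ((z x).im + (z (U - x)).im - ((z y).im + (z (U - y)).im)) ^ 2)⁻¹) := by
  have hJm := JI_meas hkm hz
  have e1 : ∫⁻ α in Set.Ioi (0 : ℝ), ENNReal.ofReal (α * Real.exp (-α)) * F4 k z α
      = ∫⁻ α in Set.Ioi (0 : ℝ), ∫⁻ U : ℝ, ENNReal.ofReal (α * Real.exp (-α)) *
          ‖JI k z α U‖ₑ ^ 2 := by
    refine setLIntegral_congr_fun measurableSet_Ioi fun α hα => ?_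
    have hα0 : 0 < α := hα
    have hpr : Measurable fun U : ℝ => ((α, U) : ℝ × ℝ) := measurable_prodMk_left
    have hmm : Measurable fun U : ℝ => ‖JI k z α U‖ₑ ^ 2 := by
      have h7 := hJm.comp hpr
      simp only [Function.comp_def] at h7
      exact h7
    have h5 := four_slice hkm hk hB hz hre hα0.le
    have h6 := lintegral_const_mul (μ := (volume : Measure ℝ))
      (ENNReal.ofReal (α * Real.exp (-α))) hmm
    beta_reduce
    rw [h5]
    exact h6.symm
  have e2 : ∫⁻ α in Set.Ioi (0 : ℝ), ∫⁻ U : ℝ, ENNReal.ofReal (α * Real.exp (-α)) *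
          ‖JI k z α U‖ₑ ^ 2 = ∫⁻ U : ℝ, ∫⁻ α in Set.Ioi (0 : ℝ),
          ENNReal.ofReal (α * Real.exp (-α)) * ‖JI k z α U‖ₑ ^ 2 := by
    apply lintegral_lintegral_swap
    refine Measurable.aemeasurable ?_
    have h3 : Measurable fun q : ℝ × ℝ => ENNReal.ofReal (q.1 * Real.exp (-q.1)) := by
      fun_prop
    exact h3.mul hJm
  rw [e1, e2]
  exact lintegral_mono fun U => JI_avg hkm hk hB hz hre U

/-- the change of variables in the fourfold integral -/
theorem four_cv {h : ℝ → ENNReal} (hm : Measurable h) (c : ℝ) (hc : c ≠ 0) :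
    ∫⁻ U : ℝ, ∫⁻ x : ℝ, ∫⁻ y : ℝ, (h x * h (U - x)) * (h y * h (U - y)) *
      ENNReal.ofReal ((1 + (c * Real.exp (-x) + c * Real.exp (-(U - x)) -
        (c * Real.exp (-y) + c * Real.exp (-(U - y)))) ^ 2)⁻¹) ≤
    2 * ∫⁻ u : ℝ, ∫⁻ v : ℝ, ∫⁻ t : ℝ, h u * h v * (h t ^ 2 *
      ENNReal.ofReal ((1 + ((c * Real.exp (-u) - c * Real.exp (-v)) *
        (c * Real.exp (-u) - c * Real.exp (-t)) / (c * Real.exp (-u))) ^ 2)⁻¹)) := by
  set Ω : ℝ → ENNReal := fun y => ENNReal.ofReal ((1 + y ^ 2)⁻¹) with hΩ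
  have hΩm : Measurable Ω := by
    refine Measurable.ennreal_ofReal ?_
    exact (measurable_const.add (measurable_id.pow_const 2)).inv
  have hΩe : ∀ y, Ω (-y) = Ω y := by
    intro y
    simp only [hΩ]
    rw [neg_sq]
  set e : ℝ → ℝ := fun u => c * Real.exp (-u) with he
  have hem : Measurable e := by fun_prop
  have he0 : ∀ u, e u ≠ 0 := fun u => mul_ne_zero hc (Real.exp_pos _).ne'
  have head : ∀ u s, e (u + s) = e u * Real.exp (-s) := by
    intro u s
    simp only [he]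
    rw [neg_add, Real.exp_add]
    ring
  change ∫⁻ U : ℝ, ∫⁻ x : ℝ, ∫⁻ y : ℝ, (h x * h (U - x)) * (h y * h (U - y)) *
      Ω (e x + e (U - x) - (e y + e (U - y))) ≤
    2 * ∫⁻ u : ℝ, ∫⁻ v : ℝ, ∫⁻ t : ℝ, h u * h v * (h t ^ 2 *
      Ω ((e u - e v) * (e u - e t) / e u))
  -- joint measurability
  have hmA : Measurable fun q : (ℝ × ℝ) × ℝ => (h q.1.2 * h (q.1.1 - q.1.2)) *
      (h q.2 * h (q.1.1 - q.2)) * Ω (e q.1.2 + e (q.1.1 - q.1.2) - (e q.2 + e (q.1.1 - q.2))) := by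
    have m1 : Measurable fun q : (ℝ × ℝ) × ℝ => q.1.2 := by fun_prop
    have m2 : Measurable fun q : (ℝ × ℝ) × ℝ => q.1.1 - q.1.2 := by fun_prop
    have m3 : Measurable fun q : (ℝ × ℝ) × ℝ => q.2 := by fun_prop
    have m4 : Measurable fun q : (ℝ × ℝ) × ℝ => q.1.1 - q.2 := by fun_prop
    exact (((hm.comp m1).mul (hm.comp m2)).mul ((hm.comp m3).mul (hm.comp m4))).mul
      (hΩm.comp (((hem.comp m1).add (hem.comp m2)).sub ((hem.comp m3).add (hem.comp m4))))
  have step1 : ∫⁻ U : ℝ, ∫⁻ x : ℝ, ∫⁻ y : ℝ, (h x * h (U - x)) * (h y * h (U - y)) *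
      Ω (e x + e (U - x) - (e y + e (U - y))) =
      ∫⁻ y : ℝ, ∫⁻ v : ℝ, ∫⁻ s : ℝ, (h y * h v) * (h (y + s) * h (v + s)) *
        Ω ((e v - e y) * (1 - Real.exp (-s))) := by
    -- move `y` outside
    have s1 : ∀ U : ℝ, ∫⁻ x : ℝ, ∫⁻ y : ℝ, (h x * h (U - x)) * (h y * h (U - y)) *
        Ω (e x + e (U - x) - (e y + e (U - y))) =
        ∫⁻ y : ℝ, ∫⁻ x : ℝ, (h x * h (U - x)) * (h y * h (U - y)) *
        Ω (e x + e (U - x) - (e y + e (U - y))) := by
      intro U
      apply lintegral_lintegral_swap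
      refine Measurable.aemeasurable ?_
      have m5 : Measurable fun q : ℝ × ℝ => ((U, q.1), q.2) := by fun_prop
      exact hmA.comp m5
    simp_rw [s1]
    rw [lintegral_lintegral_swap (by
      refine Measurable.aemeasurable ?_
      have m6 : Measurable fun q : (ℝ × ℝ) × ℝ => ((q.1.1, q.2), q.1.2) := by fun_prop
      exact (hmA.comp m6).lintegral_prod_right')]
    refine lintegral_congr fun y => ?_
    -- now the variables `U`, `x`
    rw [lintegral_lintegral_swap (by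
      refine Measurable.aemeasurable ?_
      have m7 : Measurable fun q : ℝ × ℝ => ((q.1, q.2), y) := by fun_prop
      exact hmA.comp m7)]
    have s2 : ∀ x : ℝ, ∫⁻ U : ℝ, (h x * h (U - x)) * (h y * h (U - y)) *
        Ω (e x + e (U - x) - (e y + e (U - y))) =
        ∫⁻ v : ℝ, (h x * h v) * (h y * h (v + x - y)) *
        Ω (e x + e v - (e y + e (v + x - y))) := by
      intro x
      rw [← lintegral_add_right_eq_self (μ := (volume : Measure ℝ)) _ x]
      refine lintegral_congr fun v => ?_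
      rw [add_sub_cancel_right]
    simp_rw [s2]
    rw [lintegral_lintegral_swap (by
      refine Measurable.aemeasurable ?_
      have m8 : Measurable fun q : ℝ × ℝ => ((q.2 + q.1, q.1), y) := by fun_prop
      have m9 := hmA.comp m8
      simp only [Function.comp_def, add_sub_cancel_right] at m9
      exact m9)]
    refine lintegral_congr fun v => ?_
    rw [← lintegral_add_right_eq_self (μ := (volume : Measure ℝ)) _ y]
    refine lintegral_congr fun s => ?_
    have e1 : v + (s + y) - y = v + s := by ring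
    rw [e1, add_comm s y]
    have e2 : e (y + s) + e v - (e y + e (v + s)) = (e v - e y) * (1 - Real.exp (-s)) := by
      rw [head, head]
      ring
    rw [e2]
    ring
  rw [step1]
  have hmB : Measurable fun q : (ℝ × ℝ) × ℝ => (h q.1.1 * h q.1.2) * (h q.2 ^ 2 *
      Ω ((e q.1.1 - e q.1.2) * (e q.1.1 - e q.2) / e q.1.1)) := by
    have m1 : Measurable fun q : (ℝ × ℝ) × ℝ => q.1.1 := by fun_prop
    have m2 : Measurable fun q : (ℝ × ℝ) × ℝ => q.1.2 := by fun_prop
    have m3 : Measurable fun q : (ℝ × ℝ) × ℝ => q.2 := by fun_prop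
    exact ((hm.comp m1).mul (hm.comp m2)).mul (((hm.comp m3).pow_const 2).mul
      (hΩm.comp ((((hem.comp m1).sub (hem.comp m2)).mul ((hem.comp m1).sub (hem.comp m3))).div
        (hem.comp m1))))
  set R := ∫⁻ u : ℝ, ∫⁻ v : ℝ, ∫⁻ t : ℝ, h u * h v * (h t ^ 2 *
      Ω ((e u - e v) * (e u - e t) / e u)) with hR
  -- the two halves
  have hA : ∀ y v : ℝ, ∫⁻ s : ℝ, (h y * h v) * (h (v + s) ^ 2 *
      Ω ((e v - e y) * (1 - Real.exp (-s)))) =
      ∫⁻ t : ℝ, h v * h y * (h t ^ 2 * Ω ((e v - e y) * (e v - e t) / e v)) := by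
    intro y v
    rw [← lintegral_add_left_eq_self (μ := (volume : Measure ℝ))
      (fun t : ℝ => h v * h y * (h t ^ 2 * Ω ((e v - e y) * (e v - e t) / e v))) v]
    refine lintegral_congr fun s => ?_
    have e3 : (e v - e y) * (e v - e (v + s)) / e v = (e v - e y) * (1 - Real.exp (-s)) := by
      rw [head]
      have := he0 v
      field_simp
    rw [e3]
    ring
  have hB : ∀ y v : ℝ, ∫⁻ s : ℝ, (h y * h v) * (h (y + s) ^ 2 *
      Ω ((e v - e y) * (1 - Real.exp (-s)))) =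
      ∫⁻ t : ℝ, h y * h v * (h t ^ 2 * Ω ((e y - e v) * (e y - e t) / e y)) := by
    intro y v
    rw [← lintegral_add_left_eq_self (μ := (volume : Measure ℝ))
      (fun t : ℝ => h y * h v * (h t ^ 2 * Ω ((e y - e v) * (e y - e t) / e y))) y]
    refine lintegral_congr fun s => ?_
    have e3 : (e y - e v) * (e y - e (y + s)) / e y = -((e v - e y) * (1 - Real.exp (-s))) := by
      rw [head]
      have := he0 y
      field_simp
      ring
    rw [e3, hΩe]
  have hmC : Measurable fun q : (ℝ × ℝ) × ℝ => (h q.1.1 * h q.1.2) * (h (q.1.1 + q.2) ^ 2 *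
      Ω ((e q.1.2 - e q.1.1) * (1 - Real.exp (-q.2)))) := by
    have m1 : Measurable fun q : (ℝ × ℝ) × ℝ => q.1.1 := by fun_prop
    have m2 : Measurable fun q : (ℝ × ℝ) × ℝ => q.1.2 := by fun_prop
    have m3 : Measurable fun q : (ℝ × ℝ) × ℝ => q.1.1 + q.2 := by fun_prop
    have m4 : Measurable fun q : (ℝ × ℝ) × ℝ => 1 - Real.exp (-q.2) := by fun_prop
    exact ((hm.comp m1).mul (hm.comp m2)).mul (((hm.comp m3).pow_const 2).mul
      (hΩm.comp (((hem.comp m2).sub (hem.comp m1)).mul m4)))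
  calc ∫⁻ y : ℝ, ∫⁻ v : ℝ, ∫⁻ s : ℝ, (h y * h v) * (h (y + s) * h (v + s)) *
        Ω ((e v - e y) * (1 - Real.exp (-s)))
      ≤ ∫⁻ y : ℝ, ∫⁻ v : ℝ, ((∫⁻ s : ℝ, (h y * h v) * (h (y + s) ^ 2 *
        Ω ((e v - e y) * (1 - Real.exp (-s))))) + ∫⁻ s : ℝ, (h y * h v) * (h (v + s) ^ 2 *
        Ω ((e v - e y) * (1 - Real.exp (-s))))) := by
        refine lintegral_mono fun y => lintegral_mono fun v => ?_
        simp only
        rw [← lintegral_add_left (by
          have m9 : Measurable fun s : ℝ => ((y, v), s) := by fun_prop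
          exact hmC.comp m9)]
        refine lintegral_mono fun s => ?_
        simp only
        have h1 : h (y + s) * h (v + s) ≤ h (y + s) ^ 2 + h (v + s) ^ 2 := by
          rcases le_total (h (y + s)) (h (v + s)) with h2 | h2
          · calc h (y + s) * h (v + s) ≤ h (v + s) * h (v + s) := by gcongr
              _ = h (v + s) ^ 2 := (sq _).symm
              _ ≤ _ := le_add_self
          · calc h (y + s) * h (v + s) ≤ h (y + s) * h (y + s) := by gcongr
              _ = h (y + s) ^ 2 := (sq _).symm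
              _ ≤ _ := le_self_add
        calc _ ≤ (h y * h v) * (h (y + s) ^ 2 + h (v + s) ^ 2) *
              Ω ((e v - e y) * (1 - Real.exp (-s))) := by gcongr
          _ = _ := by ring
    _ = ∫⁻ y : ℝ, ∫⁻ v : ℝ, ((∫⁻ t : ℝ, h y * h v * (h t ^ 2 *
          Ω ((e y - e v) * (e y - e t) / e y))) + ∫⁻ t : ℝ, h v * h y * (h t ^ 2 *
          Ω ((e v - e y) * (e v - e t) / e v))) := by
        refine lintegral_congr fun y => lintegral_congr fun v => ?_
        rw [hA, hB]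
    _ = ∫⁻ y : ℝ, ((∫⁻ v : ℝ, ∫⁻ t : ℝ, h y * h v * (h t ^ 2 *
          Ω ((e y - e v) * (e y - e t) / e y))) + ∫⁻ v : ℝ, ∫⁻ t : ℝ, h v * h y * (h t ^ 2 *
          Ω ((e v - e y) * (e v - e t) / e v))) := by
        refine lintegral_congr fun y => ?_
        rw [lintegral_add_left]
        have m9 : Measurable fun q : ℝ × ℝ => ((y, q.1), q.2) := by fun_prop
        exact (hmB.comp m9).lintegral_prod_right'
    _ = R + ∫⁻ y : ℝ, ∫⁻ v : ℝ, ∫⁻ t : ℝ, h v * h y * (h t ^ 2 *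
          Ω ((e v - e y) * (e v - e t) / e v)) := by
        rw [lintegral_add_left]
        have m9 : Measurable fun q : (ℝ × ℝ) × ℝ => ((q.1.1, q.1.2), q.2) := by fun_prop
        exact ((hmB.comp m9).lintegral_prod_right').lintegral_prod_right'
    _ = R + R := by
        congr 1
        rw [lintegral_lintegral_swap]
        refine Measurable.aemeasurable ?_
        have m9 : Measurable fun q : (ℝ × ℝ) × ℝ => ((q.1.2, q.1.1), q.2) := by fun_prop
        exact (hmB.comp m9).lintegral_prod_right'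
    _ = 2 * R := (two_mul _).symm

end Pool.Agent.T6.H79.BZ4
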