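import Mathlib

set_option autoImplicit false

/-!
# Barnes zeta functions, fourth moment, part 4: a triple integral
-/

namespace Pool.Agent.T6.H79.BZ4

open Finset Filter Topology MeasureTheory

/-- dyadic majorant of `1 / (1 + u ^ 2)` -/
lemma maj2 (u : ℝ) : ENNReal.ofReal ((1 + u ^ 2)⁻¹) ≤
    ∑' l : ℕ, ENNReal.ofReal (4 * (1 / 4 : ℝ) ^ l) *
      (Set.Icc (-(2 : ℝ) ^ l) (2 ^ l)).indicator 1 u := by
  have hex : ∃ l : ℕ, |u| ≤ 2 ^ l := by
    obtain ⟨l, hl⟩ := pow_unbounded_of_one_lt |u| (show (1 : ℝ) < 2 by norm_num)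
    exact ⟨l, hl.le⟩
  classical
  set l := Nat.find hex with hl
  have h1 : |u| ≤ 2 ^ l := Nat.find_spec hex
  refine le_trans ?_ (ENNReal.le_tsum l)
  rw [Set.indicator_of_mem (Set.mem_Icc.2 (abs_le.1 h1)), Pi.one_apply, mul_one]
  apply ENNReal.ofReal_le_ofReal
  rcases Nat.eq_zero_or_pos l with h0 | h0
  · rw [h0, pow_zero, mul_one]
    have : (1 + u ^ 2)⁻¹ ≤ 1 := inv_le_one_of_one_le₀ (by nlinarith [sq_nonneg u])
    linarith
  · have h2 : ¬ |u| ≤ 2 ^ (l - 1) := Nat.find_min hex (by omega)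
    push Not at h2
    obtain ⟨l', hl'⟩ : ∃ l', l = l' + 1 := ⟨l - 1, by omega⟩
    rw [hl'] at h2 ⊢
    rw [Nat.add_sub_cancel] at h2
    have h3 : (4 : ℝ) ^ l' ≤ u ^ 2 := by
      have h4 : ((2 : ℝ) ^ l') ^ 2 ≤ |u| ^ 2 := pow_le_pow_left₀ (by positivity) h2.le 2
      rw [sq_abs, ← pow_mul, mul_comm, pow_mul] at h4
      norm_num at h4
      exact h4
    have h5 : 4 * (1 / 4 : ℝ) ^ (l' + 1) = ((4 : ℝ) ^ l')⁻¹ := by
      rw [pow_succ, one_div, inv_pow]
      ring
    rw [h5]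
    exact inv_anti₀ (by positivity) (by linarith)

/-- dyadic majorant of `1 / (1 + |u|)` -/
lemma maj1 {m : ℕ} {u : ℝ} (hu : |u| ≤ 2 ^ m) : ENNReal.ofReal ((1 + |u|)⁻¹) ≤
    ∑ l ∈ Finset.range (m + 1), ENNReal.ofReal (2 * (1 / 2 : ℝ) ^ l) *
      (Set.Icc (-(2 : ℝ) ^ l) (2 ^ l)).indicator 1 u := by
  have hex : ∃ l : ℕ, |u| ≤ 2 ^ l := ⟨m, hu⟩
  classical
  set l := Nat.find hex with hl
  have h1 : |u| ≤ 2 ^ l := Nat.find_spec hex
  have hlm : l ≤ m := Nat.find_min' hex hu
  refine le_trans ?_ (Finset.single_le_sum (f := fun l : ℕ => ENNReal.ofReal (2 * (1 / 2 : ℝ) ^ l) *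
      (Set.Icc (-(2 : ℝ) ^ l) (2 ^ l)).indicator 1 u) (fun _ _ => bot_le)
      (Finset.mem_range.2 (Nat.lt_succ_of_le hlm)))
  rw [Set.indicator_of_mem (Set.mem_Icc.2 (abs_le.1 h1)), Pi.one_apply, mul_one]
  apply ENNReal.ofReal_le_ofReal
  have hu0 := abs_nonneg u
  rcases Nat.eq_zero_or_pos l with h0 | h0
  · rw [h0, pow_zero, mul_one]
    have : (1 + |u|)⁻¹ ≤ 1 := inv_le_one_of_one_le₀ (by linarith)
    linarith
  · have h2 : ¬ |u| ≤ 2 ^ (l - 1) := Nat.find_min hex (by omega)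
    push Not at h2
    obtain ⟨l', hl'⟩ : ∃ l', l = l' + 1 := ⟨l - 1, by omega⟩
    rw [hl'] at h2 ⊢
    rw [Nat.add_sub_cancel] at h2
    have h5 : 2 * (1 / 2 : ℝ) ^ (l' + 1) = ((2 : ℝ) ^ l')⁻¹ := by
      rw [pow_succ, one_div, inv_pow]
      ring
    rw [h5]
    exact inv_anti₀ (by positivity) (by linarith)

/-- an indicator after an affine map -/
lemma ind_aff {c : ℝ} (hc : 0 < c) (x l t : ℝ) :
    (Set.Icc (-l) l).indicator (1 : ℝ → ENNReal) (c * (t - x)) =
      (Set.Icc (x - l / c) (x + l / c)).indicator 1 t := by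
  have hiff : c * (t - x) ∈ Set.Icc (-l) l ↔ t ∈ Set.Icc (x - l / c) (x + l / c) := by
    rw [Set.mem_Icc, Set.mem_Icc]
    constructor
    · rintro ⟨h1, h2⟩
      constructor
      · have : -(t - x) ≤ l / c := by rw [le_div_iff₀ hc]; linarith
        linarith
      · have : t - x ≤ l / c := by rw [le_div_iff₀ hc]; linarith
        linarith
    · rintro ⟨h1, h2⟩
      have h3 : -(t - x) ≤ l / c := by linarith
      have h4 : t - x ≤ l / c := by linarith
      rw [le_div_iff₀ hc] at h3 h4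
      constructor <;> linarith
  by_cases h : c * (t - x) ∈ Set.Icc (-l) l
  · rw [Set.indicator_of_mem h, Set.indicator_of_mem (hiff.1 h)]
    rfl
  · rw [Set.indicator_of_notMem h, Set.indicator_of_notMem (fun h' => h (hiff.2 h'))]

/-- the integral against `1 / (1 + (c (t - x)) ^ 2)` -/
lemma tail2 {F : ℝ → ENNReal} (hF : Measurable F) {x A B : ℝ} (hA : 0 ≤ A) (hB : 0 ≤ B)
    (H : ∀ y : ℝ, 0 ≤ y → ∫⁻ t in Set.Icc (x - y) (x + y), F t ≤ ENNReal.ofReal (A + B * y))
    {c : ℝ} (hc : 0 < c) :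
    ∫⁻ t, F t * ENNReal.ofReal ((1 + (c * (t - x)) ^ 2)⁻¹) ≤
      ENNReal.ofReal (6 * A + 8 * B / c) := by
  calc ∫⁻ t, F t * ENNReal.ofReal ((1 + (c * (t - x)) ^ 2)⁻¹)
      ≤ ∫⁻ t, ∑' l : ℕ, ENNReal.ofReal (4 * (1 / 4 : ℝ) ^ l) *
        (Set.Icc (x - 2 ^ l / c) (x + 2 ^ l / c)).indicator F t := by
        refine lintegral_mono fun t => ?_
        refine (mul_le_mul_right (maj2 _) _).trans ?_
        rw [← ENNReal.tsum_mul_left]
        refine ENNReal.tsum_le_tsum fun l => ?_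
        rw [ind_aff hc]
        apply le_of_eq
        by_cases h : t ∈ Set.Icc (x - 2 ^ l / c) (x + 2 ^ l / c)
        · rw [Set.indicator_of_mem h, Set.indicator_of_mem h, Pi.one_apply]
          ring
        · rw [Set.indicator_of_notMem h, Set.indicator_of_notMem h]
          ring
    _ = ∑' l : ℕ, ENNReal.ofReal (4 * (1 / 4 : ℝ) ^ l) *
        ∫⁻ t in Set.Icc (x - 2 ^ l / c) (x + 2 ^ l / c), F t := by
        rw [lintegral_tsum fun l =>
          ((hF.indicator measurableSet_Icc).const_mul _).aemeasurable]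
        refine tsum_congr fun l => ?_
        rw [lintegral_const_mul _ (hF.indicator measurableSet_Icc),
          lintegral_indicator measurableSet_Icc]
    _ ≤ ∑' l : ℕ, ENNReal.ofReal (4 * A * (1 / 4 : ℝ) ^ l + 4 * B / c * (1 / 2 : ℝ) ^ l) := by
        refine ENNReal.tsum_le_tsum fun l => ?_
        refine (mul_le_mul_right (H (2 ^ l / c) (by positivity)) _).trans ?_
        rw [← ENNReal.ofReal_mul (by positivity)]
        apply le_of_eq
        congr 1
        have h1 : (1 / 4 : ℝ) ^ l * 2 ^ l = (1 / 2 : ℝ) ^ l := by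
          rw [← mul_pow]
          norm_num
        calc 4 * (1 / 4 : ℝ) ^ l * (A + B * (2 ^ l / c)) =
              4 * A * (1 / 4 : ℝ) ^ l + 4 * B / c * ((1 / 4 : ℝ) ^ l * 2 ^ l) := by ring
          _ = _ := by rw [h1]
    _ = ENNReal.ofReal (∑' l : ℕ, (4 * A * (1 / 4 : ℝ) ^ l + 4 * B / c * (1 / 2 : ℝ) ^ l)) := by
        rw [ENNReal.ofReal_tsum_of_nonneg (fun l => by positivity)]
        exact ((summable_geometric_of_lt_one (by norm_num) (by norm_num)).mul_left _).add
          ((summable_geometric_of_lt_one (by norm_num) (by norm_num)).mul_left _)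
    _ ≤ _ := by
        apply ENNReal.ofReal_le_ofReal
        rw [((summable_geometric_of_lt_one (show (0 : ℝ) ≤ 1 / 4 by norm_num)
          (by norm_num)).mul_left (4 * A)).tsum_add
          ((summable_geometric_of_lt_one (show (0 : ℝ) ≤ 1 / 2 by norm_num)
          (by norm_num)).mul_left (4 * B / c)), tsum_mul_left, tsum_mul_left,
          tsum_geometric_of_lt_one (by norm_num) (by norm_num),
          tsum_geometric_of_lt_one (by norm_num) (by norm_num)]
        have h2 : 4 * B / c * (1 - 1 / 2 : ℝ)⁻¹ = 8 * B / c := by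
          norm_num
          ring
        rw [h2]
        norm_num
        linarith

/-- the integral against `1 / (1 + |t - x|)` -/
lemma tail1 {F : ℝ → ENNReal} (hF : Measurable F) {x A B : ℝ} (hA : 0 ≤ A) (hB : 0 ≤ B)
    (H : ∀ y : ℝ, 0 ≤ y → ∫⁻ t in Set.Icc (x - y) (x + y), F t ≤ ENNReal.ofReal (A + B * y))
    {m : ℕ} {I : Set ℝ} (hI : MeasurableSet I) (hm : ∀ t ∈ I, |t - x| ≤ 2 ^ m) :
    ∫⁻ t in I, F t * ENNReal.ofReal ((1 + |t - x|)⁻¹) ≤
      ENNReal.ofReal (4 * ((m : ℝ) + 1) * (A + B)) := by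
  calc ∫⁻ t in I, F t * ENNReal.ofReal ((1 + |t - x|)⁻¹)
      ≤ ∫⁻ t in I, ∑ l ∈ Finset.range (m + 1), ENNReal.ofReal (2 * (1 / 2 : ℝ) ^ l) *
        (Set.Icc (x - 2 ^ l) (x + 2 ^ l)).indicator F t := by
        refine setLIntegral_mono' hI fun t ht => ?_
        refine (mul_le_mul_right (maj1 (hm t ht)) _).trans ?_
        rw [Finset.mul_sum]
        refine Finset.sum_le_sum fun l _ => ?_
        have h0 := ind_aff (c := 1) one_pos x (2 ^ l) t
        rw [one_mul, div_one] at h0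
        rw [h0]
        apply le_of_eq
        by_cases h : t ∈ Set.Icc (x - 2 ^ l) (x + 2 ^ l)
        · rw [Set.indicator_of_mem h, Set.indicator_of_mem h, Pi.one_apply]
          ring
        · rw [Set.indicator_of_notMem h, Set.indicator_of_notMem h]
          ring
    _ ≤ ∫⁻ t, ∑ l ∈ Finset.range (m + 1), ENNReal.ofReal (2 * (1 / 2 : ℝ) ^ l) *
        (Set.Icc (x - 2 ^ l) (x + 2 ^ l)).indicator F t := setLIntegral_le_lintegral _ _
    _ = ∑ l ∈ Finset.range (m + 1), ENNReal.ofReal (2 * (1 / 2 : ℝ) ^ l) *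
        ∫⁻ t in Set.Icc (x - 2 ^ l) (x + 2 ^ l), F t := by
        rw [lintegral_finsetSum _ fun l _ => (hF.indicator measurableSet_Icc).const_mul _]
        refine Finset.sum_congr rfl fun l _ => ?_
        rw [lintegral_const_mul _ (hF.indicator measurableSet_Icc),
          lintegral_indicator measurableSet_Icc]
    _ ≤ ∑ _l ∈ Finset.range (m + 1), ENNReal.ofReal (4 * (A + B)) := by
        refine Finset.sum_le_sum fun l _ => ?_
        refine (mul_le_mul_right (H (2 ^ l) (by positivity)) _).trans ?_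
        rw [← ENNReal.ofReal_mul (by positivity)]
        apply ENNReal.ofReal_le_ofReal
        have h1 : (1 / 2 : ℝ) ^ l * 2 ^ l = 1 := by
          rw [← mul_pow]
          norm_num
        have h2 : (1 / 2 : ℝ) ^ l ≤ 1 := pow_le_one₀ (by norm_num) (by norm_num)
        have h3 : (1 / 2 : ℝ) ^ l * A ≤ 1 * A := mul_le_mul_of_nonneg_right h2 hA
        calc 2 * (1 / 2 : ℝ) ^ l * (A + B * 2 ^ l) =
              2 * ((1 / 2 : ℝ) ^ l * A) + 2 * B * ((1 / 2 : ℝ) ^ l * 2 ^ l) := by ring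
          _ ≤ 4 * (A + B) := by rw [h1]; linarith
    _ = _ := by
        rw [Finset.sum_const, Finset.card_range, nsmul_eq_mul, ← ENNReal.ofReal_natCast,
          ← ENNReal.ofReal_mul (by positivity)]
        congr 1
        push_cast
        ring

/-- bounds for the restriction to a block -/
lemma blk {F : ℝ → ENNReal} {M A B : ℝ} (hM : 0 < M) (hB : 0 ≤ B)
    (H : ∀ x y : ℝ, 0 ≤ y → y ≤ M → ∫⁻ t in Set.Icc (x - y) (x + y), F t ≤
      ENNReal.ofReal (A + B * y)) (x y : ℝ) (hy : 0 ≤ y) :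
    ∫⁻ t in Set.Icc (x - y) (x + y), (Set.Icc M (2 * M)).indicator F t ≤
      ENNReal.ofReal (A + B * y) := by
  rcases le_total y M with h | h
  · exact (lintegral_mono fun t => Set.indicator_le_self _ _ _).trans (H x y hy h)
  · calc _ ≤ ∫⁻ t, (Set.Icc M (2 * M)).indicator F t := setLIntegral_le_lintegral _ _
      _ = ∫⁻ t in Set.Icc M (2 * M), F t := lintegral_indicator measurableSet_Icc _
      _ ≤ ∫⁻ t in Set.Icc (M - M) (M + M), F t :=
          lintegral_mono_set (Set.Icc_subset_Icc (by linarith) (by linarith))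
      _ ≤ ENNReal.ofReal (A + B * M) := H M M hM.le le_rfl
      _ ≤ _ := ENNReal.ofReal_le_ofReal (by nlinarith)

lemma blk_all {F : ℝ → ENNReal} {M A B : ℝ} (hM : 0 < M)
    (H : ∀ x y : ℝ, 0 ≤ y → y ≤ M → ∫⁻ t in Set.Icc (x - y) (x + y), F t ≤
      ENNReal.ofReal (A + B * y)) : ∫⁻ t in Set.Icc M (2 * M), F t ≤ ENNReal.ofReal (A + B * M) :=
  (lintegral_mono_set (Set.Icc_subset_Icc (by linarith) (by linarith))).trans (H M M hM.le le_rfl)

/-- the inner integral -/
lemma inner {F : ℝ → ENNReal} (hF : Measurable F) {M A B : ℝ} (hM : 0 < M) (hA : 0 ≤ A)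
    (hB : 0 ≤ B) (H : ∀ x y : ℝ, 0 ≤ y → y ≤ M → ∫⁻ t in Set.Icc (x - y) (x + y), F t ≤
      ENNReal.ofReal (A + B * y)) {a b : ℝ} (ha : a ∈ Set.Icc M (2 * M)) :
    ∫⁻ c in Set.Icc M (2 * M), F c *
      ENNReal.ofReal ((1 + (2 * Real.pi * (a - b) * (a - c) / a) ^ 2)⁻¹) ≤
      ENNReal.ofReal (6 * A + 16 * B * M * (1 + |b - a|)⁻¹) := by
  have ha0 : 0 < a := hM.trans_le ha.1
  have hab := abs_nonneg (b - a)
  rcases le_total |b - a| 1 with h | h
  · calc _ ≤ ∫⁻ c in Set.Icc M (2 * M), F c := by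
          refine lintegral_mono fun c => ?_
          calc F c * ENNReal.ofReal ((1 + (2 * Real.pi * (a - b) * (a - c) / a) ^ 2)⁻¹) ≤
              F c * 1 := by
                gcongr
                rw [← ENNReal.ofReal_one]
                apply ENNReal.ofReal_le_ofReal
                exact inv_le_one_of_one_le₀ (by
                  nlinarith [sq_nonneg (2 * Real.pi * (a - b) * (a - c) / a)])
            _ = F c := mul_one _
      _ ≤ ENNReal.ofReal (A + B * M) := blk_all hM H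
      _ ≤ _ := by
          apply ENNReal.ofReal_le_ofReal
          have h1 : (1 / 2 : ℝ) ≤ (1 + |b - a|)⁻¹ := by
            rw [one_div]
            exact inv_anti₀ (by positivity) (by linarith)
          have h2 : 0 ≤ B * M := by positivity
          nlinarith
  · set c₀ : ℝ := 2 * Real.pi * |b - a| / a with hc₀
    have hpi := Real.pi_gt_three
    have hc0 : 0 < c₀ := by
      have : 0 < |b - a| := by linarith
      positivity
    calc _ = ∫⁻ c, (Set.Icc M (2 * M)).indicator F c *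
            ENNReal.ofReal ((1 + (c₀ * (c - a)) ^ 2)⁻¹) := by
          rw [← lintegral_indicator measurableSet_Icc]
          refine lintegral_congr fun c => ?_
          have e1 : (2 * Real.pi * (a - b) * (a - c) / a) ^ 2 = (c₀ * (c - a)) ^ 2 := by
            rw [hc₀]
            have h1 : |b - a| ^ 2 = (b - a) ^ 2 := sq_abs _
            calc (2 * Real.pi * (a - b) * (a - c) / a) ^ 2 =
                (2 * Real.pi / a) ^ 2 * (b - a) ^ 2 * (c - a) ^ 2 := by ring
              _ = (2 * Real.pi / a) ^ 2 * |b - a| ^ 2 * (c - a) ^ 2 := by rw [h1]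
              _ = _ := by ring
          by_cases hc : c ∈ Set.Icc M (2 * M)
          · rw [Set.indicator_of_mem hc, Set.indicator_of_mem hc, e1]
          · rw [Set.indicator_of_notMem hc, Set.indicator_of_notMem hc, zero_mul]
      _ ≤ ENNReal.ofReal (6 * A + 8 * B / c₀) :=
          tail2 (hF.indicator measurableSet_Icc) hA hB (fun y hy => blk hM hB H a y hy) hc0
      _ ≤ _ := by
          apply ENNReal.ofReal_le_ofReal
          have h3 : 8 * B / c₀ ≤ 16 * B * M * (1 + |b - a|)⁻¹ := by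
            rw [← div_eq_mul_inv, div_le_div_iff₀ hc0 (by positivity), hc₀]
            have h4 : 1 + |b - a| ≤ 2 * |b - a| := by linarith
            have h5 : a ≤ 2 * M := ha.2
            have h6 : |b - a| ≤ M * (2 * Real.pi * |b - a| / a) := by
              rw [mul_div_assoc', le_div_iff₀ ha0]
              have h7 : 0 ≤ M * |b - a| := by positivity
              have h8 : |b - a| * a ≤ |b - a| * (2 * M) := mul_le_mul_of_nonneg_left h5 hab
              nlinarith
            calc 8 * B * (1 + |b - a|) ≤ 8 * B * (2 * |b - a|) := by gcongr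
              _ = 16 * B * |b - a| := by ring
              _ ≤ 16 * B * (M * (2 * Real.pi * |b - a| / a)) := by gcongr
              _ = _ := by ring
          linarith

/-- the triple integral -/
theorem trip {F₁ F₂ : ℝ → ENNReal} (h1m : Measurable F₁) (h2m : Measurable F₂) {M : ℝ}
    (hM : 0 < M) {m : ℕ} (hMm : M ≤ 2 ^ m) {A₁ B₁ A₂ B₂ : ℝ} (hA₁ : 0 ≤ A₁) (hB₁ : 0 ≤ B₁)
    (hA₂ : 0 ≤ A₂) (hB₂ : 0 ≤ B₂)
    (H₁ : ∀ x y : ℝ, 0 ≤ y → y ≤ M → ∫⁻ t in Set.Icc (x - y) (x + y), F₁ t ≤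
      ENNReal.ofReal (A₁ + B₁ * y))
    (H₂ : ∀ x y : ℝ, 0 ≤ y → y ≤ M → ∫⁻ t in Set.Icc (x - y) (x + y), F₂ t ≤
      ENNReal.ofReal (A₂ + B₂ * y)) :
    ∫⁻ a in Set.Icc M (2 * M), ∫⁻ b in Set.Icc M (2 * M), ∫⁻ c in Set.Icc M (2 * M),
      F₁ a * F₁ b * (F₂ c * ENNReal.ofReal ((1 + (2 * Real.pi * (a - b) * (a - c) / a) ^ 2)⁻¹)) ≤
      ENNReal.ofReal (64 * ((m : ℝ) + 1) * ((A₁ + B₁ * M) *
        (A₂ * (A₁ + B₁ * M) + B₂ * M * (A₁ + B₁)))) := by
  have hmid : ∀ a ∈ Set.Icc M (2 * M), ∫⁻ b in Set.Icc M (2 * M), ∫⁻ c in Set.Icc M (2 * M),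
      F₁ a * F₁ b * (F₂ c * ENNReal.ofReal ((1 + (2 * Real.pi * (a - b) * (a - c) / a) ^ 2)⁻¹)) ≤
      F₁ a * ENNReal.ofReal (6 * A₂ * (A₁ + B₁ * M) +
        16 * B₂ * M * (4 * ((m : ℝ) + 1) * (A₁ + B₁))) := by
    intro a ha
    have hmea : ∀ b : ℝ, Measurable fun c : ℝ => F₂ c *
        ENNReal.ofReal ((1 + (2 * Real.pi * (a - b) * (a - c) / a) ^ 2)⁻¹) := by
      intro b
      refine h2m.mul (Measurable.ennreal_ofReal ?_)
      fun_prop
    calc _ ≤ ∫⁻ b in Set.Icc M (2 * M), F₁ a * (ENNReal.ofReal (6 * A₂) * F₁ b +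
          ENNReal.ofReal (16 * B₂ * M) * (F₁ b * ENNReal.ofReal ((1 + |b - a|)⁻¹))) := by
          refine lintegral_mono fun b => ?_
          simp only
          rw [lintegral_const_mul _ (hmea b)]
          refine (mul_le_mul_right (inner h2m hM hA₂ hB₂ H₂ ha) _).trans ?_
          rw [ENNReal.ofReal_add (by positivity) (by positivity),
            ENNReal.ofReal_mul (show 0 ≤ 16 * B₂ * M by positivity)]
          apply le_of_eq
          ring
      _ = F₁ a * (ENNReal.ofReal (6 * A₂) * (∫⁻ b in Set.Icc M (2 * M), F₁ b) +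
          ENNReal.ofReal (16 * B₂ * M) *
            ∫⁻ b in Set.Icc M (2 * M), F₁ b * ENNReal.ofReal ((1 + |b - a|)⁻¹)) := by
          have hm1 : Measurable fun b : ℝ => F₁ b * ENNReal.ofReal ((1 + |b - a|)⁻¹) := by
            refine h1m.mul (Measurable.ennreal_ofReal ?_)
            have : Measurable fun b : ℝ => |b - a| := by
              have : Continuous fun b : ℝ => |b - a| := by fun_prop
              exact this.measurable
            exact (measurable_const.add this).inv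
          have hm2 : Measurable fun b : ℝ => ENNReal.ofReal (6 * A₂) * F₁ b +
              ENNReal.ofReal (16 * B₂ * M) * (F₁ b * ENNReal.ofReal ((1 + |b - a|)⁻¹)) :=
            (h1m.const_mul _).add (hm1.const_mul _)
          rw [lintegral_const_mul _ hm2,
            lintegral_add_left (h1m.const_mul _), lintegral_const_mul _ h1m,
            lintegral_const_mul _ hm1]
      _ ≤ F₁ a * (ENNReal.ofReal (6 * A₂) * ENNReal.ofReal (A₁ + B₁ * M) +
          ENNReal.ofReal (16 * B₂ * M) * ENNReal.ofReal (4 * ((m : ℝ) + 1) * (A₁ + B₁))) := by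
          have h5 : ∫⁻ b in Set.Icc M (2 * M), F₁ b * ENNReal.ofReal ((1 + |b - a|)⁻¹) ≤
              ENNReal.ofReal (4 * ((m : ℝ) + 1) * (A₁ + B₁)) := by
            have h6 := tail1 (F := (Set.Icc M (2 * M)).indicator F₁) (x := a) (m := m)
              (h1m.indicator measurableSet_Icc) hA₁ hB₁
              (fun y hy => blk hM hB₁ H₁ a y hy) (I := Set.Icc M (2 * M)) measurableSet_Icc
              (fun t ht => by
                refine le_trans ?_ hMm
                rw [abs_le]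
                constructor <;> linarith [ht.1, ht.2, ha.1, ha.2])
            refine le_trans (le_of_eq ?_) h6
            refine setLIntegral_congr_fun measurableSet_Icc fun b hb => ?_
            show F₁ b * _ = (Set.Icc M (2 * M)).indicator F₁ b * _
            rw [Set.indicator_of_mem hb]
          gcongr
          exact blk_all hM H₁
      _ = _ := by
          rw [← ENNReal.ofReal_mul (by positivity), ← ENNReal.ofReal_mul (by positivity),
            ← ENNReal.ofReal_add (by positivity) (by positivity)]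
  calc _ ≤ ∫⁻ a in Set.Icc M (2 * M), F₁ a * ENNReal.ofReal (6 * A₂ * (A₁ + B₁ * M) +
        16 * B₂ * M * (4 * ((m : ℝ) + 1) * (A₁ + B₁))) :=
        setLIntegral_mono' measurableSet_Icc hmid
    _ = (∫⁻ a in Set.Icc M (2 * M), F₁ a) * ENNReal.ofReal (6 * A₂ * (A₁ + B₁ * M) +
        16 * B₂ * M * (4 * ((m : ℝ) + 1) * (A₁ + B₁))) := lintegral_mul_const _ h1m
    _ ≤ ENNReal.ofReal (A₁ + B₁ * M) * ENNReal.ofReal (6 * A₂ * (A₁ + B₁ * M) +
        16 * B₂ * M * (4 * ((m : ℝ) + 1) * (A₁ + B₁))) := by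
        gcongr
        exact blk_all hM H₁
    _ ≤ _ := by
        rw [← ENNReal.ofReal_mul (by positivity)]
        apply ENNReal.ofReal_le_ofReal
        have h7 : 6 * A₂ * (A₁ + B₁ * M) ≤ 64 * ((m : ℝ) + 1) * (A₂ * (A₁ + B₁ * M)) := by
          have h8 : 0 ≤ A₂ * (A₁ + B₁ * M) := by positivity
          have h9 : (0 : ℝ) ≤ m := Nat.cast_nonneg m
          nlinarith
        calc (A₁ + B₁ * M) * (6 * A₂ * (A₁ + B₁ * M) + 16 * B₂ * M * (4 * ((m : ℝ) + 1) *
              (A₁ + B₁))) ≤ (A₁ + B₁ * M) * (64 * ((m : ℝ) + 1) * (A₂ * (A₁ + B₁ * M)) +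
              16 * B₂ * M * (4 * ((m : ℝ) + 1) * (A₁ + B₁))) := by gcongr
          _ = _ := by ring

end Pool.Agent.T6.H79.BZ4
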