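import Pool.Agent.T6.H79.BZ4.Ker
import Pool.Agent.T6.H79.BZ4.Trip

set_option autoImplicit false

/-!
# Barnes zeta functions, fourth moment, part 8: the average over the shift for one block
-/

namespace Pool.Agent.T6.H79.BZ4

open Finset Filter Topology MeasureTheory Complex FourierTransform
open Pool.Agent.H131R5.BZ Pool.Agent.Y930.Bz Pool.Agent.Y616.BM Pool.Agent.T6.H60.BC
open Pool.Agent.T6.H60.BD

lemma QQ_le {r : ℕ} (w : Fin r → ℝ) (L : ℕ) (y : ℝ) : QQ w L y ≤ ((2 : ℝ) ^ L) ^ r := by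
  unfold QQ
  calc ∏ j, (max ((1 / 2 : ℝ) ^ L) (nd (w j * y)))⁻¹ ≤ ∏ _j : Fin r, (2 : ℝ) ^ L := by
        refine Finset.prod_le_prod (fun j _ => by positivity) fun j _ => ?_
        have h1 : ((1 / 2 : ℝ) ^ L)⁻¹ = 2 ^ L := by
          rw [← inv_pow]
          norm_num
        rw [← h1]
        exact inv_anti₀ (by positivity) (le_max_left _ _)
    _ = _ := by simp

lemma memLp2_of_bdd {k : ℝ → ℂ} (hk : Integrable k) {B : ℝ} (hB : ∀ u, ‖k u‖ ≤ B) : MemLp k 2 := by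
  have hB0 : 0 ≤ B := (norm_nonneg _).trans (hB 0)
  rw [memLp_two_iff_integrable_sq_norm hk.aestronglyMeasurable]
  refine (hk.norm.const_mul B).mono (hk.aestronglyMeasurable.norm.pow 2)
    (Eventually.of_forall fun x => ?_)
  rw [Real.norm_of_nonneg (by positivity), Real.norm_of_nonneg (by positivity), sq]
  exact mul_le_mul_of_nonneg_right (hB x) (norm_nonneg _)

lemma enorm_four_le (k : ℝ → ℂ) (ξ : ℝ) : ‖𝓕 k ξ‖ₑ ≤ ∫⁻ u, ‖k u‖ₑ := by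
  rw [Real.fourier_real_eq_integral_exp_smul]
  refine (enorm_integral_le_lintegral_enorm _).trans (le_of_eq ?_)
  refine lintegral_congr fun u => ?_
  rw [enorm_smul, ← ofReal_norm (cexp _), Complex.norm_exp_ofReal_mul_I, ENNReal.ofReal_one,
    one_mul]

section
variable {r : ℕ} {a : ℝ} {w : Fin r → ℝ} {σ η M δ : ℝ} {L : ℕ}

/-- the set of a closed block -/
lemma SC_eq (η M : ℝ) : {u : ℝ | M ≤ hf η u ∧ hf η u ≤ 2 * M} =
    {u : ℝ | M ≤ Real.cos η / (2 * Real.pi) * Real.exp (-u) ∧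
      Real.cos η / (2 * Real.pi) * Real.exp (-u) ≤ 2 * M} := rfl

lemma kb_lint (ha : 0 < a) (hw : ∀ j, 0 < w j)
    (hσ : 0 < σ) (hη : 0 < η) (hη1 : η ≤ 1) (hM : 0 < M) (hδ : 0 < δ) (hδ1 : δ ≤ 1)
    (hδx : ∀ j, δ * (1 / 2 : ℝ) ^ L ≤ w j * (3 * M * η)) {i : ℕ} (hi : i ≠ 0) :
    ∫⁻ u, ‖kb a w σ η M u‖ₑ ^ i ≤ ENNReal.ofReal (Hc r a σ δ η M ^ i * M⁻¹) *
      ∫⁻ Y in Set.Icc M (2 * M), ENNReal.ofReal (QQ w L Y ^ i) := by
  have hH : 0 ≤ Hc r a σ δ η M := Hc_nonneg hδ hM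
  set S : Set ℝ := {u : ℝ | M ≤ hf η u ∧ hf η u ≤ 2 * M} with hS
  have hSm : MeasurableSet S := by
    have h1 : Measurable (hf η) := by unfold hf; fun_prop
    exact (measurableSet_le measurable_const h1).inter (measurableSet_le h1 measurable_const)
  have hc : 0 < Real.cos η / (2 * Real.pi) := by
    have := (cos_pos_of hη.le hη1).1
    have := Real.pi_pos
    positivity
  calc ∫⁻ u, ‖kb a w σ η M u‖ₑ ^ i ≤ ∫⁻ u, S.indicator
        (fun u => ENNReal.ofReal (Hc r a σ δ η M ^ i * QQ w L (hf η u) ^ i)) u := by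
        refine lintegral_mono fun u => ?_
        have h1 := kb_le ha hw hσ hη hη1 hM hδ hδ1 hδx u
        by_cases hu : u ∈ S
        · rw [Set.indicator_of_mem hu] at h1 ⊢
          rw [← mul_pow, ENNReal.ofReal_pow (mul_nonneg hH (QQ_nonneg _ _ _))]
          gcongr
        · rw [Set.indicator_of_notMem hu] at h1 ⊢
          have h2 : ‖kb a w σ η M u‖ₑ = 0 := le_antisymm h1 bot_le
          rw [h2, zero_pow hi]
    _ = ∫⁻ u in S, ENNReal.ofReal (Hc r a σ δ η M ^ i * QQ w L (hf η u) ^ i) :=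
        lintegral_indicator hSm _
    _ ≤ ENNReal.ofReal (M⁻¹) * ∫⁻ Y in Set.Icc M (2 * M),
        ENNReal.ofReal (Hc r a σ δ η M ^ i * QQ w L Y ^ i) :=
        cv_le hc hM (fun Y => ENNReal.ofReal (Hc r a σ δ η M ^ i * QQ w L Y ^ i))
    _ = _ := by
        have h3 : ∀ Y, ENNReal.ofReal (Hc r a σ δ η M ^ i * QQ w L Y ^ i) =
            ENNReal.ofReal (Hc r a σ δ η M ^ i) * ENNReal.ofReal (QQ w L Y ^ i) := fun Y =>
          ENNReal.ofReal_mul (by positivity)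
        simp_rw [h3]
        rw [lintegral_const_mul' _ _ ENNReal.ofReal_ne_top, ← mul_assoc, mul_comm (ENNReal.ofReal M⁻¹),
          ← ENNReal.ofReal_mul (by positivity)]

lemma kb_bdd (ha : 0 < a) (hw : ∀ j, 0 < w j)
    (hσ : 0 < σ) (hη : 0 < η) (hη1 : η ≤ 1) (hM : 0 < M) (hδ : 0 < δ) (hδ1 : δ ≤ 1)
    (hδx : ∀ j, δ * (1 / 2 : ℝ) ^ L ≤ w j * (3 * M * η)) (u : ℝ) :
    ‖kb a w σ η M u‖ ≤ Hc r a σ δ η M * ((2 : ℝ) ^ L) ^ r := by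
  have hH : 0 ≤ Hc r a σ δ η M := Hc_nonneg hδ hM
  have h1 := kb_le ha hw hσ hη hη1 hM hδ hδ1 hδx u
  have h2 : ‖kb a w σ η M u‖ₑ ≤ ENNReal.ofReal (Hc r a σ δ η M * ((2 : ℝ) ^ L) ^ r) := by
    refine h1.trans ?_
    by_cases hu : u ∈ {u : ℝ | M ≤ hf η u ∧ hf η u ≤ 2 * M}
    · rw [Set.indicator_of_mem hu]
      apply ENNReal.ofReal_le_ofReal
      exact mul_le_mul_of_nonneg_left (QQ_le _ _ _) hH
    · rw [Set.indicator_of_notMem hu]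
      exact bot_le
  rw [← ofReal_norm, ENNReal.ofReal_le_ofReal_iff (by positivity)] at h2
  exact h2

lemma kb_int (ha : 0 < a) (hw : ∀ j, 0 < w j)
    (hσ : 0 < σ) (hη : 0 < η) (hη1 : η ≤ 1) (hM : 0 < M) (hδ : 0 < δ) (hδ1 : δ ≤ 1)
    (hδx : ∀ j, δ * (1 / 2 : ℝ) ^ L ≤ w j * (3 * M * η)) : Integrable (kb a w σ η M) := by
  refine ⟨(kb_meas a w σ η M).aestronglyMeasurable, ?_⟩
  have h1 := kb_lint (i := 1) ha hw hσ hη hη1 hM hδ hδ1 hδx one_ne_zero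
  simp only [pow_one] at h1
  refine lt_of_le_of_lt h1 (ENNReal.mul_lt_top ENNReal.ofReal_lt_top ?_)
  calc ∫⁻ Y in Set.Icc M (2 * M), ENNReal.ofReal (QQ w L Y) ≤
      ∫⁻ _Y in Set.Icc M (2 * M), ENNReal.ofReal (((2 : ℝ) ^ L) ^ r) :=
        lintegral_mono fun Y => ENNReal.ofReal_le_ofReal (QQ_le _ _ _)
    _ < ⊤ := by
        rw [setLIntegral_const, Real.volume_Icc]
        exact ENNReal.mul_lt_top ENNReal.ofReal_lt_top ENNReal.ofReal_lt_top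

/-- the region of many overlaps: the average over the shift -/
theorem regB (ha : 0 < a) (hw : ∀ j, 0 < w j)
    (hσ : 0 < σ) (hη : 0 < η) (hη1 : η ≤ 1) (hM : 0 < M) (hδ : 0 < δ) (hδ1 : δ ≤ 1)
    (hδx : ∀ j, δ * (1 / 2 : ℝ) ^ L ≤ w j * (3 * M * η)) {m : ℕ} (hMm : M ≤ 2 ^ m)
    {A₁ B₁ A₂ B₂ : ℝ} (hA₁ : 0 ≤ A₁) (hB₁ : 0 ≤ B₁) (hA₂ : 0 ≤ A₂) (hB₂ : 0 ≤ B₂)
    (H₁ : ∀ x y : ℝ, 0 ≤ y → y ≤ M → ∫⁻ t in Set.Icc (x - y) (x + y),
      ENNReal.ofReal (QQ w L t ^ 1) ≤ ENNReal.ofReal (A₁ + B₁ * y))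
    (H₂ : ∀ x y : ℝ, 0 ≤ y → y ≤ M → ∫⁻ t in Set.Icc (x - y) (x + y),
      ENNReal.ofReal (QQ w L t ^ 2) ≤ ENNReal.ofReal (A₂ + B₂ * y)) :
    ∫⁻ α in Set.Ioi (0 : ℝ), ENNReal.ofReal (α * Real.exp (-α)) *
      F4 (kb a w σ η M) (fun u => zr u η) α ≤
      ENNReal.ofReal (2 * (Hc r a σ δ η M ^ 4 * (M⁻¹) ^ 3 * (64 * ((m : ℝ) + 1) *
        ((A₁ + B₁ * M) * (A₂ * (A₁ + B₁ * M) + B₂ * M * (A₁ + B₁)))))) := by
  have hH : 0 ≤ Hc r a σ δ η M := Hc_nonneg hδ hM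
  have hcos := (cos_pos_of hη.le hη1).1
  have hpi := Real.pi_pos
  have hc : 0 < Real.cos η / (2 * Real.pi) := by positivity
  have hsin : 0 ≤ Real.sin η := le_trans (by positivity) (sin_ge hη.le hη1)
  have h1 := four_avg (kb_meas a w σ η M) (kb_int ha hw hσ hη hη1 hM hδ hδ1 hδx)
    (kb_bdd ha hw hσ hη hη1 hM hδ hδ1 hδx) (zr_meas η) (fun u => by
      rw [zr_re]
      have := Real.exp_pos (-u)
      positivity)
  refine h1.trans ?_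
  simp only [zr_im]
  have h2 := four_cv (h := fun u => ‖kb a w σ η M u‖ₑ) (kb_meas a w σ η M).enorm (Real.cos η)
    hcos.ne'
  refine h2.trans ?_
  have e1 : Real.cos η = 2 * Real.pi * (Real.cos η / (2 * Real.pi)) := by field_simp
  have h3 := tri_cv (h := fun u => ‖kb a w σ η M u‖ₑ) hc hM hH (q := QQ w L) (QQ_nonneg w L)
    (fun u => kb_le ha hw hσ hη hη1 hM hδ hδ1 hδx u)
  rw [← e1] at h3
  have h4 := trip (F₁ := fun t => ENNReal.ofReal (QQ w L t ^ 1))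
    (F₂ := fun t => ENNReal.ofReal (QQ w L t ^ 2)) (((QQ_meas w L).pow_const 1).ennreal_ofReal)
    (((QQ_meas w L).pow_const 2).ennreal_ofReal) hM hMm hA₁ hB₁ hA₂ hB₂ H₁ H₂
  calc _ ≤ 2 * (ENNReal.ofReal (Hc r a σ δ η M ^ 4 * (M⁻¹) ^ 3) *
        ENNReal.ofReal (64 * ((m : ℝ) + 1) * ((A₁ + B₁ * M) *
        (A₂ * (A₁ + B₁ * M) + B₂ * M * (A₁ + B₁))))) := by
        gcongr
        refine h3.trans ?_
        gcongr
    _ = _ := by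
        rw [← ENNReal.ofReal_mul (by positivity), ENNReal.ofReal_mul (p := 2) (by norm_num)]
        simp

/-- the region of few overlaps: the supremum bound -/
theorem regA (ha : 0 < a) (hw : ∀ j, 0 < w j)
    (hσ : 0 < σ) (hη : 0 < η) (hη1 : η ≤ 1) (hM : 0 < M) (hδ : 0 < δ) (hδ1 : δ ≤ 1)
    (hδx : ∀ j, δ * (1 / 2 : ℝ) ^ L ≤ w j * (3 * M * η)) {D₁ D₂ : ℝ} (hD₁ : 0 ≤ D₁) (hD₂ : 0 ≤ D₂)
    (H₁ : ∫⁻ t in Set.Icc M (2 * M), ENNReal.ofReal (QQ w L t ^ 1) ≤ ENNReal.ofReal D₁)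
    (H₂ : ∫⁻ t in Set.Icc M (2 * M), ENNReal.ofReal (QQ w L t ^ 2) ≤ ENNReal.ofReal D₂) :
    ∫⁻ α in Set.Ioi (0 : ℝ), ENNReal.ofReal (α * Real.exp (-α)) *
      F4 (kb a w σ η M) (fun u => zr u η) α ≤
      ENNReal.ofReal (Hc r a σ δ η M ^ 4 * (M⁻¹) ^ 3 * (D₁ ^ 2 * D₂)) := by
  have hH : 0 ≤ Hc r a σ δ η M := Hc_nonneg hδ hM
  have hsin : 0 ≤ Real.sin η := le_trans (by positivity) (sin_ge hη.le hη1)
  have hre : ∀ u, 0 ≤ (zr u η).re := fun u => by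
      rw [zr_re]
      have := Real.exp_pos (-u)
      positivity
  have hint := kb_int ha hw hσ hη hη1 hM hδ hδ1 hδx
  have hbdd := kb_bdd ha hw hσ hη hη1 hM hδ hδ1 hδx
  have l1 := kb_lint (i := 1) ha hw hσ hη hη1 hM hδ hδ1 hδx one_ne_zero
  have l2 := kb_lint (i := 2) ha hw hσ hη hη1 hM hδ hδ1 hδx two_ne_zero
  have hF : ∀ α : ℝ, 0 < α → F4 (kb a w σ η M) (fun u => zr u η) α ≤
      ENNReal.ofReal (Hc r a σ δ η M ^ 4 * (M⁻¹) ^ 3 * (D₁ ^ 2 * D₂)) := by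
    intro α hα
    set k : ℝ → ℂ := fun u => kb a w σ η M u * cexp (-(α : ℂ) * zr u η) with hk
    have hm : Measurable k :=
      (kb_meas a w σ η M).mul ((measurable_const.mul (zr_meas η)).cexp)
    have hle : ∀ u, ‖k u‖ ≤ ‖kb a w σ η M u‖ := by
      intro u
      rw [hk]
      simp only
      rw [norm_mul]
      exact mul_le_of_le_one_right (norm_nonneg _) (exp_le_one' hα.le (hre u))
    have hi : Integrable k := hint.mono hm.aestronglyMeasurable (Eventually.of_forall hle)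
    have hle' : ∀ u, ‖k u‖ₑ ≤ ‖kb a w σ η M u‖ₑ := by
      intro u
      rw [← ofReal_norm, ← ofReal_norm]
      exact ENNReal.ofReal_le_ofReal (hle u)
    have hpl := Pool.Agent.TH794.QD.plancherel k hi
      (memLp2_of_bdd hi fun u => (hle u).trans (hbdd u))
    have hN : ∫⁻ u, ‖k u‖ₑ ≤ ENNReal.ofReal (Hc r a σ δ η M * M⁻¹ * D₁) := by
      calc ∫⁻ u, ‖k u‖ₑ ≤ ∫⁻ u, ‖kb a w σ η M u‖ₑ ^ 1 := by
            refine lintegral_mono fun u => ?_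
            rw [pow_one]
            exact hle' u
        _ ≤ _ := l1
        _ ≤ ENNReal.ofReal (Hc r a σ δ η M ^ 1 * M⁻¹) * ENNReal.ofReal D₁ := by gcongr
        _ = _ := by rw [← ENNReal.ofReal_mul (by positivity), pow_one]
    have hN2 : ∫⁻ u, ‖k u‖ₑ ^ 2 ≤ ENNReal.ofReal (Hc r a σ δ η M ^ 2 * M⁻¹ * D₂) := by
      calc ∫⁻ u, ‖k u‖ₑ ^ 2 ≤ ∫⁻ u, ‖kb a w σ η M u‖ₑ ^ 2 := by
            refine lintegral_mono fun u => ?_
            have := hle' u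
            gcongr
        _ ≤ _ := l2
        _ ≤ ENNReal.ofReal (Hc r a σ δ η M ^ 2 * M⁻¹) * ENNReal.ofReal D₂ := by gcongr
        _ = _ := by rw [← ENNReal.ofReal_mul (by positivity)]
    calc F4 (kb a w σ η M) (fun u => zr u η) α = ∫⁻ ξ : ℝ, ‖𝓕 k ξ‖ₑ ^ 4 := rfl
      _ ≤ ∫⁻ ξ : ℝ, ENNReal.ofReal (Hc r a σ δ η M * M⁻¹ * D₁) ^ 2 * ‖𝓕 k ξ‖ₑ ^ 2 := by
          refine lintegral_mono fun ξ => ?_
          have h5 : ‖𝓕 k ξ‖ₑ ≤ ENNReal.ofReal (Hc r a σ δ η M * M⁻¹ * D₁) :=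
            (enorm_four_le k ξ).trans hN
          calc ‖𝓕 k ξ‖ₑ ^ 4 = ‖𝓕 k ξ‖ₑ ^ 2 * ‖𝓕 k ξ‖ₑ ^ 2 := by ring
            _ ≤ _ := by gcongr
      _ = ENNReal.ofReal (Hc r a σ δ η M * M⁻¹ * D₁) ^ 2 * ∫⁻ ξ : ℝ, ‖𝓕 k ξ‖ₑ ^ 2 :=
          lintegral_const_mul' _ _ (by simp)
      _ = ENNReal.ofReal (Hc r a σ δ η M * M⁻¹ * D₁) ^ 2 * ∫⁻ u, ‖k u‖ₑ ^ 2 := by rw [hpl]
      _ ≤ ENNReal.ofReal (Hc r a σ δ η M * M⁻¹ * D₁) ^ 2 *
          ENNReal.ofReal (Hc r a σ δ η M ^ 2 * M⁻¹ * D₂) := by gcongr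
      _ = _ := by
          rw [← ENNReal.ofReal_pow (by positivity), ← ENNReal.ofReal_mul (by positivity)]
          congr 1
          ring
  calc _ ≤ ∫⁻ α in Set.Ioi (0 : ℝ), ENNReal.ofReal (α * Real.exp (-α)) *
        ENNReal.ofReal (Hc r a σ δ η M ^ 4 * (M⁻¹) ^ 3 * (D₁ ^ 2 * D₂)) := by
        refine setLIntegral_mono' measurableSet_Ioi fun α hα => ?_
        exact mul_le_mul_right (hF α hα) _
    _ = _ := by
        rw [lintegral_mul_const' _ _ ENNReal.ofReal_ne_top, wt_lint, one_mul]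

end

end Pool.Agent.T6.H79.BZ4
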