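import Pool.Agent.T6.H79.BZ4.Block

set_option autoImplicit false

/-!
# Barnes zeta functions, fourth moment, part 9: the bound for one block
-/

namespace Pool.Agent.T6.H79.BZ4

open Finset Filter Topology MeasureTheory Complex FourierTransform
open Pool.Agent.H131R5.BZ Pool.Agent.Y930.Bz Pool.Agent.Y616.BM Pool.Agent.T6.H60.BC
open Pool.Agent.T6.H60.BD

lemma pow_mul_exp_le {x b : ℝ} (hx : 0 ≤ x) (hb : 0 < b) (p : ℕ) :
    x ^ p * Real.exp (-(b * x)) ≤ (p.factorial : ℝ) / b ^ p := by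
  have h1 := Real.pow_div_factorial_le_exp (b * x) (by positivity) p
  rw [div_le_iff₀ (by positivity), mul_pow] at h1
  have h2 := Real.exp_pos (b * x)
  rw [Real.exp_neg, le_div_iff₀ (by positivity), ← div_eq_mul_inv, div_mul_eq_mul_div,
    div_le_iff₀ h2]
  nlinarith

/-- the scale bound -/
lemma scale_le {a y₀ : ℝ} (ha : 0 < a) (hy : 0 < y₀) (hy1 : y₀ ≤ 1) (p : ℕ) :
    ∃ C : ℝ, 0 ≤ C ∧ ∀ n j : ℕ, (y₀ * 2 ^ j) ^ p * ((2 : ℝ) ^ (n - j)) ^ p *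
      Real.exp (-(3 * a * (y₀ * 2 ^ j) * (1 / 2) ^ n)) ^ 4 ≤ C * ((2 : ℝ) ^ n) ^ p := by
  refine ⟨1 + (p.factorial : ℝ) / (12 * a) ^ p, by positivity, fun n j => ?_⟩
  have hexp : Real.exp (-(3 * a * (y₀ * 2 ^ j) * (1 / 2) ^ n)) ^ 4 =
      Real.exp (-(12 * a * (y₀ * 2 ^ j * (1 / 2) ^ n))) := by
    rw [← Real.exp_nat_mul]
    congr 1
    push_cast
    ring
  rw [hexp]
  rcases le_total j n with h | h
  · have e1 : (y₀ * 2 ^ j) * (2 : ℝ) ^ (n - j) = y₀ * 2 ^ n := by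
      rw [mul_assoc, ← pow_add]
      congr 2
      omega
    rw [← mul_pow, e1]
    have h1 : Real.exp (-(12 * a * (y₀ * 2 ^ j * (1 / 2) ^ n))) ≤ 1 := by
      rw [Real.exp_le_one_iff]
      have : 0 ≤ 12 * a * (y₀ * 2 ^ j * (1 / 2) ^ n) := by positivity
      linarith
    have h2 : (y₀ * 2 ^ n) ^ p ≤ ((2 : ℝ) ^ n) ^ p := by
      apply pow_le_pow_left₀ (by positivity)
      have : (0 : ℝ) < 2 ^ n := by positivity
      nlinarith
    calc (y₀ * 2 ^ n) ^ p * Real.exp (-(12 * a * (y₀ * 2 ^ j * (1 / 2) ^ n))) ≤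
        ((2 : ℝ) ^ n) ^ p * 1 := by gcongr
      _ ≤ _ := by
        have h3 : 0 ≤ (p.factorial : ℝ) / (12 * a) ^ p := by positivity
        have h4 : 0 ≤ ((2 : ℝ) ^ n) ^ p := by positivity
        nlinarith
  · have e0 : n - j = 0 := by omega
    rw [e0, pow_zero, one_pow, mul_one]
    set x : ℝ := y₀ * 2 ^ j * (1 / 2) ^ n with hx
    have hx0 : 0 ≤ x := by positivity
    have e1 : (y₀ * 2 ^ j) = x * 2 ^ n := by
      rw [hx, mul_assoc, ← mul_pow]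
      norm_num
    rw [e1, mul_pow]
    have h1 := pow_mul_exp_le hx0 (b := 12 * a) (by positivity) p
    have h4 : 0 ≤ ((2 : ℝ) ^ n) ^ p := by positivity
    calc x ^ p * ((2 : ℝ) ^ n) ^ p * Real.exp (-(12 * a * x)) =
        (x ^ p * Real.exp (-(12 * a * x))) * ((2 : ℝ) ^ n) ^ p := by ring
      _ ≤ ((p.factorial : ℝ) / (12 * a) ^ p) * ((2 : ℝ) ^ n) ^ p := by gcongr
      _ ≤ _ := by nlinarith

lemma alg1 {K E M Ms : ℝ} {p : ℕ} (hM : 0 < M) (h : Ms ^ 4 = M ^ (p + 1)) :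
    (K * Ms * E) ^ 4 * (M⁻¹) ^ 3 = K ^ 4 * E ^ 4 * M ^ p * (M⁻¹) ^ 2 := by
  rw [mul_pow, mul_pow, h]
  field_simp
  ring

lemma alg2 {K E M Mp D₁ D₂ N Xa Xb : ℝ} (hM : 0 < M) :
    K ^ 4 * E ^ 4 * Mp * (M⁻¹) ^ 2 * ((D₁ * N * (2 * M * Xa)) ^ 2 * (D₂ * N * (2 * M * Xb))) =
      8 * D₁ ^ 2 * D₂ * N ^ 3 * (K ^ 4 * (Mp * E ^ 4)) * (M * (Xa ^ 2 * Xb)) := by
  field_simp
  ring

lemma alg3 {K E M Mp C₁ C₂ N n Xa Xb Xc Xd : ℝ} (hM : 0 < M) :
    2 * (K ^ 4 * E ^ 4 * Mp * M⁻¹ ^ 2 * (64 * (2 * (n + 1)) *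
      ((3 * C₁ * N * Xa * M) * (C₂ * N * Xb * (3 * C₁ * N * Xa * M) + 2 * C₂ * N * Xc * M *
          (3 * C₁ * N * Xd))))) =
      2304 * C₁ ^ 2 * C₂ * (n + 1) * N ^ 3 * (K ^ 4 * (Mp * E ^ 4)) *
          (Xa * (Xb * Xa + 2 * (Xc * Xd))) := by
  field_simp
  ring

/-- the bound for one block -/
theorem block {r d : ℕ} {w : Fin r → ℝ} (hw : ∀ j, 0 < w j) {e : Fin d → Fin r}
    (he : Function.Injective e) (hp : BoxB (w ∘ e)) (hd : 1 ≤ d) {a : ℝ} (ha : 0 < a) {y₀ : ℝ}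
    (hy : 0 < y₀) (hy1 : y₀ ≤ 1) : ∃ C : ℝ, 0 ≤ C ∧ ∀ n j : ℕ, j ≤ 2 * n →
      ∫⁻ α in Set.Ioi (0 : ℝ), ENNReal.ofReal (α * Real.exp (-α)) *
        F4 (kb a w ((r : ℝ) - (d : ℝ) / 2) ((1 / 2 : ℝ) ^ n) (y₀ * 2 ^ j))
          (fun u => zr u ((1 / 2 : ℝ) ^ n)) α ≤
      ENNReal.ofReal (C * ((n : ℝ) + 1) ^ (3 * (d + 4 + r) + 1) *
        ((2 : ℝ) ^ n) ^ (4 * r - 2 * d - 1)) := by
  have hdr : d ≤ r := by
    have := Fintype.card_le_of_injective e he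
    simpa using this
  have hdr' : (d : ℝ) ≤ r := by exact_mod_cast hdr
  have hd' : (1 : ℝ) ≤ d := by exact_mod_cast hd
  set σ : ℝ := (r : ℝ) - (d : ℝ) / 2 with hσd
  have hσ : 0 < σ := by rw [hσd]; linarith
  set j₀ : Fin r := e ⟨0, hd⟩ with hj₀
  set p : ℕ := 4 * r - 2 * d - 1 with hpd
  obtain ⟨m₀, hm0, hm1, hm⟩ := exists_low hw
  set δ : ℝ := min 1 (3 * m₀ * y₀) with hδd
  have hδ : 0 < δ := lt_min one_pos (by positivity)
  have hδ1 : δ ≤ 1 := min_le_left _ _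
  have hδ2 : δ ≤ 3 * m₀ * y₀ := min_le_right _ _
  obtain ⟨C₁, hC₁, hn1⟩ := int_near hw he hp j₀ (i := 1) le_rfl
  obtain ⟨C₂, hC₂, hn2⟩ := int_near hw he hp j₀ (i := 2) (by norm_num)
  obtain ⟨D₁, hD₁, hf1⟩ := int_far he hp j₀ (i := 1) le_rfl hy
  obtain ⟨D₂, hD₂, hf2⟩ := int_far he hp j₀ (i := 2) (by norm_num) hy
  obtain ⟨Cs, hCs, hs⟩ := scale_le ha hy hy1 p
  have hcos1 := Real.cos_one_pos
  have hpi := Real.pi_pos
  set K : ℝ := (4 * Real.pi / Real.cos 1) ^ σ * (4 / δ) ^ r with hK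
  have hK0 : 0 ≤ K := by positivity
  refine ⟨(8 * D₁ ^ 2 * D₂ + 6912 * C₁ ^ 2 * C₂) * K ^ 4 * Cs, by positivity, fun n j hj => ?_⟩
  set η : ℝ := (1 / 2 : ℝ) ^ n with hηd
  have hη : 0 < η := by positivity
  have hη1 : η ≤ 1 := pow_le_one₀ (by norm_num) (by norm_num)
  set M : ℝ := y₀ * 2 ^ j with hMd
  have hM : 0 < M := by positivity
  set L : ℕ := n - j with hL
  have hLn : L ≤ n := Nat.sub_le _ _
  set X : ℝ := (2 : ℝ) ^ L with hX
  have hX1 : 1 ≤ X := one_le_pow₀ (by norm_num)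
  have hX0 : 0 < X := by positivity
  set N : ℝ := ((n : ℝ) + 1) ^ (d + 4 + r) with hN
  have hn0 : (0 : ℝ) ≤ n := Nat.cast_nonneg n
  have hN0 : 0 ≤ N := by positivity
  have hMn : M ≤ 2 ^ (2 * n) := by
    have h1 : (2 : ℝ) ^ j ≤ 2 ^ (2 * n) := pow_le_pow_right₀ (by norm_num) hj
    have h2 : (0 : ℝ) < 2 ^ j := by positivity
    nlinarith
  have hpow2 : (2 : ℝ) ^ (2 * n + 2) = 4 * 2 ^ (2 * n) := by
    rw [pow_add]
    ring
  have h2n0 : (0 : ℝ) < 2 ^ (2 * n) := by positivity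
  have hδx : ∀ i, δ * (1 / 2 : ℝ) ^ L ≤ w i * (3 * M * η) := by
    intro i
    have h1 : (1 / 2 : ℝ) ^ L ≤ 2 ^ j * (1 / 2 : ℝ) ^ n := by
      rcases le_total j n with h | h
      · have h2 : (1 / 2 : ℝ) ^ n = (1 / 2 : ℝ) ^ j * (1 / 2 : ℝ) ^ L := by
          rw [← pow_add]
          congr 1
          omega
        rw [h2, ← mul_assoc, ← mul_pow]
        norm_num
      · have h2 : L = 0 := by omega
        have h3 : (2 : ℝ) ^ j = 2 ^ (j - n) * 2 ^ n := by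
          rw [← pow_add]
          congr 1
          omega
        rw [h2, pow_zero, h3, mul_assoc, ← mul_pow]
        norm_num
        exact one_le_pow₀ (by norm_num)
    have hwi := hm i
    calc δ * (1 / 2 : ℝ) ^ L ≤ (3 * m₀ * y₀) * (2 ^ j * (1 / 2 : ℝ) ^ n) := by gcongr
      _ = m₀ * (3 * M * η) := by rw [hMd, hηd]; ring
      _ ≤ _ := by gcongr
  -- the constant of the block
  set H : ℝ := Hc r a σ δ η M with hH
  set E : ℝ := Real.exp (-(3 * a * M * η)) with hE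
  have hE0 : 0 < E := Real.exp_pos _
  have hσ4 : (M ^ σ) ^ 4 = M ^ (p + 1) := by
    rw [← Real.rpow_natCast (M ^ σ), ← Real.rpow_mul hM.le, ← Real.rpow_natCast M]
    congr 1
    have h1 : p + 1 = 4 * r - 2 * d := by omega
    rw [h1, Nat.cast_sub (by omega), hσd]
    push_cast
    ring
  have hH4 : H ^ 4 * (M⁻¹) ^ 3 = K ^ 4 * E ^ 4 * M ^ p * (M⁻¹) ^ 2 := by
    have h1 : H = K * M ^ σ * E := by rw [hH, hK]; unfold Hc; rw [hE]
    rw [h1]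
    exact alg1 hM hσ4
  have hscale := hs n j
  have hfin : ∀ c : ℝ, 0 ≤ c → c ≤ 8 * D₁ ^ 2 * D₂ + 6912 * C₁ ^ 2 * C₂ →
      c * ((n : ℝ) + 1) * N ^ 3 * (K ^ 4 * (M ^ p * X ^ p * E ^ 4)) ≤
      (8 * D₁ ^ 2 * D₂ + 6912 * C₁ ^ 2 * C₂) * K ^ 4 * Cs *
        ((n : ℝ) + 1) ^ (3 * (d + 4 + r) + 1) * ((2 : ℝ) ^ n) ^ p := by
    intro c hc0 hc
    have e1 : ((n : ℝ) + 1) ^ (3 * (d + 4 + r) + 1) = ((n : ℝ) + 1) * N ^ 3 := by
      rw [pow_succ, hN, ← pow_mul]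
      ring
    rw [e1]
    calc c * ((n : ℝ) + 1) * N ^ 3 * (K ^ 4 * (M ^ p * X ^ p * E ^ 4)) ≤
        (8 * D₁ ^ 2 * D₂ + 6912 * C₁ ^ 2 * C₂) * ((n : ℝ) + 1) * N ^ 3 *
          (K ^ 4 * (Cs * ((2 : ℝ) ^ n) ^ p)) := by
          gcongr
      _ = _ := by ring
  rcases le_total M (X ^ (d - 1)) with hreg | hreg
  · -- few overlaps
    have hMy : y₀ ≤ M := by
      rw [hMd]
      have : (1 : ℝ) ≤ 2 ^ j := one_le_pow₀ (by norm_num)
      nlinarith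
    have g1 : ∫⁻ t in Set.Icc M (2 * M), ENNReal.ofReal (QQ w L t ^ 1) ≤
        ENNReal.ofReal (D₁ * N * (2 * M * X ^ (1 * r - d))) :=
      (lintegral_mono_set (Set.Icc_subset_Icc_left hMy)).trans
        (hf1 n L (2 * M) hLn (by linarith) (by rw [hpow2]; linarith))
    have g2 : ∫⁻ t in Set.Icc M (2 * M), ENNReal.ofReal (QQ w L t ^ 2) ≤
        ENNReal.ofReal (D₂ * N * (2 * M * X ^ (2 * r - d))) :=
      (lintegral_mono_set (Set.Icc_subset_Icc_left hMy)).trans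
        (hf2 n L (2 * M) hLn (by linarith) (by rw [hpow2]; linarith))
    refine (regA ha hw hσ hη hη1 hM hδ hδ1 hδx (by positivity) (by positivity) g1 g2).trans
      (ENNReal.ofReal_le_ofReal ?_)
    rw [← hH, hH4]
    have e2 : X ^ (d - 1) * ((X ^ (1 * r - d)) ^ 2 * X ^ (2 * r - d)) = X ^ p := by
      rw [← pow_mul X (1 * r - d) 2, ← pow_add, ← pow_add]
      congr 1
      omega
    have hstep : K ^ 4 * E ^ 4 * M ^ p * (M⁻¹) ^ 2 * ((D₁ * N * (2 * M * X ^ (1 * r - d))) ^ 2 *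
        (D₂ * N * (2 * M * X ^ (2 * r - d)))) =
        8 * D₁ ^ 2 * D₂ * N ^ 3 * (K ^ 4 * (M ^ p * E ^ 4)) *
          (M * ((X ^ (1 * r - d)) ^ 2 * X ^ (2 * r - d))) := alg2 hM
    rw [hstep]
    calc _ ≤ 8 * D₁ ^ 2 * D₂ * N ^ 3 * (K ^ 4 * (M ^ p * E ^ 4)) *
          (X ^ (d - 1) * ((X ^ (1 * r - d)) ^ 2 * X ^ (2 * r - d))) := by gcongr
      _ = (8 * D₁ ^ 2 * D₂) * 1 * N ^ 3 * (K ^ 4 * (M ^ p * X ^ p * E ^ 4)) := by rw [e2]; ring
      _ ≤ (8 * D₁ ^ 2 * D₂) * ((n : ℝ) + 1) * N ^ 3 * (K ^ 4 * (M ^ p * X ^ p * E ^ 4)) := by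
          gcongr
          linarith
      _ ≤ _ := hfin _ (by positivity) (by
          have : 0 ≤ 6912 * C₁ ^ 2 * C₂ := by positivity
          linarith)
  · -- many overlaps
    have hMj : M ≤ 2 ^ j := by
      rw [hMd]
      have : (0 : ℝ) < 2 ^ j := by positivity
      nlinarith
    have g1 : ∀ x y : ℝ, 0 ≤ y → y ≤ M → ∫⁻ t in Set.Icc (x - y) (x + y),
        ENNReal.ofReal (QQ w L t ^ 1) ≤
        ENNReal.ofReal (C₁ * N * X ^ (1 * r - 1) + (2 * C₁ * N * X ^ (1 * r - d)) * y) := by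
      intro x y hy0 hyM
      have h1 := hn1 n L (x - y) (2 * y) hLn (by linarith) (by rw [hpow2]; linarith)
      have e3 : x - y + 2 * y = x + y := by ring
      rw [e3] at h1
      refine h1.trans (ENNReal.ofReal_le_ofReal (le_of_eq ?_))
      ring
    have g2 : ∀ x y : ℝ, 0 ≤ y → y ≤ M → ∫⁻ t in Set.Icc (x - y) (x + y),
        ENNReal.ofReal (QQ w L t ^ 2) ≤
        ENNReal.ofReal (C₂ * N * X ^ (2 * r - 1) + (2 * C₂ * N * X ^ (2 * r - d)) * y) := by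
      intro x y hy0 hyM
      have h1 := hn2 n L (x - y) (2 * y) hLn (by linarith) (by rw [hpow2]; linarith)
      have e3 : x - y + 2 * y = x + y := by ring
      rw [e3] at h1
      refine h1.trans (ENNReal.ofReal_le_ofReal (le_of_eq ?_))
      ring
    refine (regB ha hw hσ hη hη1 hM hδ hδ1 hδx hMj (by positivity) (by positivity)
      (by positivity) (by positivity) g1 g2).trans (ENNReal.ofReal_le_ofReal ?_)
    rw [← hH, hH4]
    -- the two linear forms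
    have f1 : C₁ * N * X ^ (1 * r - 1) + 2 * C₁ * N * X ^ (1 * r - d) * M ≤
        3 * C₁ * N * X ^ (1 * r - d) * M := by
      have e4 : X ^ (1 * r - 1) = X ^ (1 * r - d) * X ^ (d - 1) := by
        rw [← pow_add]
        congr 1
        omega
      have h1 : C₁ * N * X ^ (1 * r - 1) ≤ C₁ * N * X ^ (1 * r - d) * M := by
        rw [e4]
        calc C₁ * N * (X ^ (1 * r - d) * X ^ (d - 1)) = C₁ * N * X ^ (1 * r - d) * X ^ (d - 1) := by
              ring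
          _ ≤ _ := by gcongr
      linarith
    have f2 : C₁ * N * X ^ (1 * r - 1) + 2 * C₁ * N * X ^ (1 * r - d) ≤
        3 * C₁ * N * X ^ (1 * r - 1) := by
      have h1 : X ^ (1 * r - d) ≤ X ^ (1 * r - 1) := pow_le_pow_right₀ hX1 (by omega)
      have h2 : 2 * C₁ * N * X ^ (1 * r - d) ≤ 2 * C₁ * N * X ^ (1 * r - 1) := by gcongr
      linarith
    have e5 : X ^ (2 * r - 1) * X ^ (1 * r - d) = X ^ (3 * r - d - 1) := by
      rw [← pow_add]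
      congr 1
      omega
    have e6 : X ^ (2 * r - d) * X ^ (1 * r - 1) = X ^ (3 * r - d - 1) := by
      rw [← pow_add]
      congr 1
      omega
    have e7 : X ^ (1 * r - d) * X ^ (3 * r - d - 1) = X ^ p := by
      rw [← pow_add]
      congr 1
      omega
    have hj1 : (j : ℝ) + 1 ≤ 2 * ((n : ℝ) + 1) := by
      have : (j : ℝ) ≤ 2 * n := by exact_mod_cast hj
      linarith
    have hj0 : (0 : ℝ) ≤ j := Nat.cast_nonneg j
    calc _ ≤ 2 * (K ^ 4 * E ^ 4 * M ^ p * M⁻¹ ^ 2 * (64 * (2 * ((n : ℝ) + 1)) *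
          ((3 * C₁ * N * X ^ (1 * r - d) * M) * (C₂ * N * X ^ (2 * r - 1) *
          (3 * C₁ * N * X ^ (1 * r - d) * M) + 2 * C₂ * N * X ^ (2 * r - d) * M *
          (3 * C₁ * N * X ^ (1 * r - 1)))))) := by gcongr
      _ = 2304 * C₁ ^ 2 * C₂ * ((n : ℝ) + 1) * N ^ 3 * (K ^ 4 * (M ^ p * E ^ 4)) *
          (X ^ (1 * r - d) * (X ^ (2 * r - 1) * X ^ (1 * r - d) +
            2 * (X ^ (2 * r - d) * X ^ (1 * r - 1)))) := alg3 hM
      _ = (6912 * C₁ ^ 2 * C₂) * ((n : ℝ) + 1) * N ^ 3 * (K ^ 4 * (M ^ p * X ^ p * E ^ 4)) := by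
          rw [e5, e6, ← e7]
          ring
      _ ≤ _ := hfin _ (by positivity) (by
          have : 0 ≤ 8 * D₁ ^ 2 * D₂ := by positivity
          linarith)

end Pool.Agent.T6.H79.BZ4
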