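import Pool.Agent.T6.H60.BD.G

set_option autoImplicit false

/-!
# Barnes zeta functions, fourth moment, part 1: simultaneous approximation for almost all vectors
-/

namespace Pool.Agent.T6.H79.BZ4

open Finset Filter Topology MeasureTheory
open Pool.Agent.T6.H60.BC Pool.Agent.T6.H60.BD

/-- the set of `y` with all `w_j y` close to integers -/
def EE {r : ℕ} (w : Fin r → ℝ) (κ : Fin r → ℕ) : Set ℝ :=
  {y : ℝ | ∀ j, nd (w j * y) ≤ (1 / 2 : ℝ) ^ κ j}

lemma EE_meas {r : ℕ} (w : Fin r → ℝ) (κ : Fin r → ℕ) : MeasurableSet (EE w κ) := by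
  have : EE w κ = ⋂ j, {y : ℝ | nd (w j * y) ≤ (1 / 2 : ℝ) ^ κ j} := by
    ext y; simp [EE]
  rw [this]
  refine MeasurableSet.iInter fun j => ?_
  exact measurableSet_le (nd_meas.comp (measurable_const_mul _)) measurable_const

/-- one-dimensional bound -/
lemma vol_nd {Y δ : ℝ} (hY : 0 ≤ Y) (hδ : 0 ≤ δ) :
    volume ({y : ℝ | nd y ≤ δ} ∩ Set.Icc (-Y) Y) ≤ ENNReal.ofReal ((2 * Y + 2) * (2 * δ)) := by
  set m : ℤ := ⌊Y + 1 / 2⌋ with hm
  have hm0 : 0 ≤ m := Int.floor_nonneg.2 (by linarith)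
  have hm1 : (m : ℝ) ≤ Y + 1 / 2 := Int.floor_le _
  have hsub : {y : ℝ | nd y ≤ δ} ∩ Set.Icc (-Y) Y ⊆
      ⋃ k ∈ Finset.Icc (-m) m, Set.Icc ((k : ℝ) - δ) (k + δ) := by
    rintro y ⟨h1, h2, h3⟩
    have h1' : |y - round y| ≤ δ := h1
    refine Set.mem_iUnion₂.2 ⟨round y, ?_, ?_⟩
    · rw [Finset.mem_Icc]
      have h4 : |y - round y| ≤ 1 / 2 := abs_sub_round y
      rw [abs_le] at h4
      constructor
      · have : -round y ≤ m := Int.le_floor.2 (by push_cast; linarith)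
        linarith
      · exact Int.le_floor.2 (by linarith)
    · have h5 := abs_le.1 h1'
      exact ⟨by linarith, by linarith⟩
  refine (measure_mono hsub).trans ((measure_biUnion_finset_le _ _).trans ?_)
  simp only [Real.volume_Icc]
  have h6 : ∀ k ∈ Finset.Icc (-m) m, ENNReal.ofReal ((k : ℝ) + δ - (k - δ)) =
      ENNReal.ofReal (2 * δ) := by
    intro k _
    congr 1
    ring
  rw [Finset.sum_congr rfl h6, Finset.sum_const, nsmul_eq_mul, Int.card_Icc]
  have h7 : (((m + 1 - -m).toNat : ℕ) : ENNReal) = ENNReal.ofReal (2 * m + 1) := by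
    rw [← ENNReal.ofReal_natCast]
    congr 1
    have : ((m + 1 - -m).toNat : ℤ) = m + 1 - -m := Int.toNat_of_nonneg (by linarith)
    have h8 : (((m + 1 - -m).toNat : ℤ) : ℝ) = ((m + 1 - -m : ℤ) : ℝ) := by rw [this]
    push_cast at h8
    rw [h8]
    ring
  rw [h7, ← ENNReal.ofReal_mul (by
    have : (0 : ℝ) ≤ m := by exact_mod_cast hm0
    linarith)]
  apply ENNReal.ofReal_le_ofReal
  apply mul_le_mul_of_nonneg_right _ (by linarith)
  linarith

/-- the bound for one coordinate -/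
lemma vol_w {R c δ v : ℝ} (hR : 0 ≤ R) (hc : 0 < c) (hδ : 0 ≤ δ) (hv : c ≤ v) :
    volume ({x : ℝ | nd (x * v) ≤ δ} ∩ Set.Icc (-R) R) ≤
      ENNReal.ofReal ((4 * R + 4 / c) * δ) := by
  have hv0 : 0 < v := hc.trans_le hv
  have hpre : {x : ℝ | nd (x * v) ≤ δ} ∩ Set.Icc (-R) R ⊆
      (fun x : ℝ => x * v) ⁻¹' ({y : ℝ | nd y ≤ δ} ∩ Set.Icc (-(R * v)) (R * v)) := by
    rintro x ⟨h1, h2, h3⟩
    refine ⟨h1, ?_, ?_⟩
    · show -(R * v) ≤ x * v
      nlinarith
    · show x * v ≤ R * v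
      nlinarith
  refine (measure_mono hpre).trans ?_
  rw [Real.volume_preimage_mul_right hv0.ne', abs_of_pos (by positivity)]
  refine (mul_le_mul_right (vol_nd (by positivity) hδ) _).trans ?_
  rw [← ENNReal.ofReal_mul (by positivity)]
  apply ENNReal.ofReal_le_ofReal
  have h1 : v⁻¹ * ((2 * (R * v) + 2) * (2 * δ)) = (4 * R + 4 / v) * δ := by
    field_simp
    ring
  rw [h1]
  have h2 : 4 / v ≤ 4 / c := div_le_div_of_nonneg_left (by norm_num) hc hv
  gcongr

/-- the average over a box -/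
lemma avg_box {d : ℕ} {R c Y : ℝ} (hR : 0 ≤ R) (hc : 0 < c) (κ : Fin d → ℕ) :
    ∫⁻ p in Set.pi Set.univ (fun _ : Fin d => Set.Icc (-R) R),
      volume (EE p κ ∩ Set.Icc c Y) ≤
      ENNReal.ofReal Y * ∏ i, ENNReal.ofReal ((4 * R + 4 / c) * (1 / 2 : ℝ) ^ κ i) := by
  set B : Set (Fin d → ℝ) := Set.pi Set.univ (fun _ : Fin d => Set.Icc (-R) R) with hB
  have hBm : MeasurableSet B := MeasurableSet.univ_pi fun _ => measurableSet_Icc
  set S : Set ((Fin d → ℝ) × ℝ) := {q | ∀ i, nd (q.1 i * q.2) ≤ (1 / 2 : ℝ) ^ κ i} with hS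
  have hSm : MeasurableSet S := by
    have : S = ⋂ i, {q : (Fin d → ℝ) × ℝ | nd (q.1 i * q.2) ≤ (1 / 2 : ℝ) ^ κ i} := by
      ext q; simp [hS]
    rw [this]
    refine MeasurableSet.iInter fun i => ?_
    refine measurableSet_le (nd_meas.comp ?_) measurable_const
    exact ((measurable_pi_apply i).comp measurable_fst).mul measurable_snd
  have h1 : ∫⁻ p in B, volume (EE p κ ∩ Set.Icc c Y) =
      ((volume.restrict B).prod (volume.restrict (Set.Icc c Y))) S := by
    rw [Measure.prod_apply hSm]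
    refine lintegral_congr fun p => ?_
    rw [Measure.restrict_apply (measurable_prodMk_left hSm)]
    rfl
  rw [h1, Measure.prod_apply_symm hSm]
  calc _ ≤ ∫⁻ _y in Set.Icc c Y, ∏ i, ENNReal.ofReal ((4 * R + 4 / c) * (1 / 2 : ℝ) ^ κ i) := by
        refine setLIntegral_mono' measurableSet_Icc fun y hy => ?_
        rw [Measure.restrict_apply (measurable_prodMk_right hSm)]
        have h2 : (fun x => (x, y)) ⁻¹' S ∩ B = Set.pi Set.univ
            (fun i : Fin d => {x : ℝ | nd (x * y) ≤ (1 / 2 : ℝ) ^ κ i} ∩ Set.Icc (-R) R) := by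
          ext p
          simp only [hS, hB, Set.mem_inter_iff, Set.mem_preimage, Set.mem_setOf_eq, Set.mem_pi,
            Set.mem_univ, true_implies]
          exact forall_and.symm
        rw [h2, volume_pi_pi]
        exact Finset.prod_le_prod' fun i _ => vol_w hR hc (by positivity) hy.1
    _ ≤ _ := by
        rw [setLIntegral_const, mul_comm, Real.volume_Icc]
        gcongr
        linarith

/-- the box property of a vector -/
def BoxB {d : ℕ} (p : Fin d → ℝ) : Prop :=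
  ∀ c : ℝ, 0 < c → ∃ G : ℝ, 0 ≤ G ∧ ∀ (n : ℕ) (κ : Fin d → ℕ) (m : ℕ), (∀ i, κ i ≤ n) →
    m ≤ 2 * n + 2 → volume (EE p κ ∩ Set.Icc c (2 ^ m)) ≤
      ENNReal.ofReal (G * ((n : ℝ) + 1) ^ (d + 4) * 2 ^ m * ∏ i, (1 / 2 : ℝ) ^ κ i)

lemma vol_meas {d : ℕ} (κ : Fin d → ℕ) (c Y : ℝ) :
    Measurable fun p : Fin d → ℝ => volume (EE p κ ∩ Set.Icc c Y) := by
  set S : Set ((Fin d → ℝ) × ℝ) := {q | ∀ i, nd (q.1 i * q.2) ≤ (1 / 2 : ℝ) ^ κ i} with hS
  have hSm : MeasurableSet S := by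
    have : S = ⋂ i, {q : (Fin d → ℝ) × ℝ | nd (q.1 i * q.2) ≤ (1 / 2 : ℝ) ^ κ i} := by
      ext q; simp [hS]
    rw [this]
    refine MeasurableSet.iInter fun i => ?_
    refine measurableSet_le (nd_meas.comp ?_) measurable_const
    exact ((measurable_pi_apply i).comp measurable_fst).mul measurable_snd
  have h1 := measurable_measure_prodMk_left (ν := volume.restrict (Set.Icc c Y)) hSm
  convert h1 using 1
  funext p
  rw [Measure.restrict_apply (measurable_prodMk_left hSm)]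
  rfl

/-- the box property for one box and one constant -/
lemma ae_box_one (d N : ℕ) : ∀ᵐ p : Fin d → ℝ, p ∈ Set.pi Set.univ
    (fun _ : Fin d => Set.Icc (-(N : ℝ)) N) →
    ∃ G : ℝ, 0 ≤ G ∧ ∀ (n : ℕ) (κ : Fin d → ℕ) (m : ℕ), (∀ i, κ i ≤ n) →
      m ≤ 2 * n + 2 → volume (EE p κ ∩ Set.Icc (1 / ((N : ℝ) + 1)) (2 ^ m)) ≤
        ENNReal.ofReal (G * ((n : ℝ) + 1) ^ (d + 4) * 2 ^ m * ∏ i, (1 / 2 : ℝ) ^ κ i) := by
  set B : Set (Fin d → ℝ) := Set.pi Set.univ (fun _ : Fin d => Set.Icc (-(N : ℝ)) N) with hB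
  have hBm : MeasurableSet B := MeasurableSet.univ_pi fun _ => measurableSet_Icc
  set c : ℝ := 1 / ((N : ℝ) + 1) with hc
  have hc0 : 0 < c := by positivity
  set A : ℝ := 4 * (N : ℝ) + 4 / c with hA
  have hA0 : 0 ≤ A := by positivity
  -- the weighted sum
  set V : (Fin d → ℕ) → ℕ → (Fin d → ℝ) → ENNReal := fun κ m p =>
    volume (EE p κ ∩ Set.Icc c (2 ^ m)) with hV
  set F : ℕ → (Fin d → ℝ) → ENNReal := fun n p =>
    ∑ κ ∈ Fintype.piFinset (fun _ : Fin d => Finset.range (n + 1)), ∑ m ∈ Finset.range (2 * n + 3),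
      ENNReal.ofReal ((((n : ℝ) + 1) ^ (d + 4) * 2 ^ m * ∏ i, (1 / 2 : ℝ) ^ κ i)⁻¹) * V κ m p
    with hF
  have hFm : ∀ n, Measurable (F n) := fun n =>
    Finset.measurable_fun_sum _ fun κ _ => Finset.measurable_fun_sum _ fun m _ =>
      (vol_meas κ c _).const_mul _
  have hFi : ∀ n, ∫⁻ p in B, F n p ≤ ENNReal.ofReal (3 * A ^ d * (1 / ((n : ℝ) + 1) ^ 3)) := by
    intro n
    simp only [hF]
    rw [lintegral_finsetSum _ fun κ _ => Finset.measurable_fun_sum _ fun m _ =>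
      (vol_meas κ c _).const_mul _]
    calc _ ≤ ∑ κ ∈ Fintype.piFinset (fun _ : Fin d => Finset.range (n + 1)),
          ∑ _m ∈ Finset.range (2 * n + 3), ENNReal.ofReal ((((n : ℝ) + 1) ^ (d + 4))⁻¹ * A ^ d) := by
          refine Finset.sum_le_sum fun κ _ => ?_
          rw [lintegral_finsetSum _ fun m _ => (vol_meas κ c _).const_mul _]
          refine Finset.sum_le_sum fun m _ => ?_
          rw [lintegral_const_mul _ (vol_meas κ c _)]
          refine (mul_le_mul_right (avg_box (Nat.cast_nonneg N) hc0 κ) _).trans ?_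
          rw [← ENNReal.ofReal_prod_of_nonneg (fun i _ => by positivity),
            ← ENNReal.ofReal_mul (by positivity), ← ENNReal.ofReal_mul (by positivity)]
          apply le_of_eq
          congr 1
          rw [Finset.prod_mul_distrib, ← hA]
          clear_value A
          simp only [Finset.prod_const, Finset.card_univ, Fintype.card_fin]
          have h1 : (∏ i, (1 / 2 : ℝ) ^ κ i) ≠ 0 := Finset.prod_ne_zero_iff.2 fun i _ => by
            positivity
          field_simp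
      _ = ENNReal.ofReal ((n + 1 : ℝ) ^ d * ((2 * n + 3 : ℝ) *
            ((((n : ℝ) + 1) ^ (d + 4))⁻¹ * A ^ d))) := by
          rw [Finset.sum_const, Finset.sum_const, Fintype.card_piFinset]
          simp only [Finset.card_range, Finset.prod_const, Finset.card_univ, Fintype.card_fin,
            nsmul_eq_mul]
          rw [← ENNReal.ofReal_natCast, ← ENNReal.ofReal_natCast (2 * n + 3),
            ← ENNReal.ofReal_mul (by positivity), ← ENNReal.ofReal_mul (by positivity)]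
          push_cast
          rfl
      _ ≤ _ := by
          apply ENNReal.ofReal_le_ofReal
          have h2 : (n + 1 : ℝ) ^ d * ((2 * n + 3 : ℝ) * ((((n : ℝ) + 1) ^ (d + 4))⁻¹ * A ^ d)) =
              (2 * n + 3) / (n + 1) * A ^ d * (1 / ((n : ℝ) + 1) ^ 3) := by
            rw [pow_add]
            field_simp
          rw [h2]
          have h3 : (2 * n + 3 : ℝ) / (n + 1) ≤ 3 := by
            rw [div_le_iff₀ (by positivity)]
            have : (0 : ℝ) ≤ n := Nat.cast_nonneg n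
            linarith
          gcongr
  have hsum : ∫⁻ p in B, ∑' n, F n p ≠ ⊤ := by
    rw [lintegral_tsum fun n => (hFm n).aemeasurable]
    refine ne_top_of_le_ne_top ?_ (ENNReal.tsum_le_tsum hFi)
    have hs : Summable fun n : ℕ => 3 * A ^ d * (1 / ((n : ℝ) + 1) ^ 3) := by
      apply Summable.mul_left
      have := (summable_nat_add_iff 1).2 (Real.summable_one_div_nat_pow.2 (show 1 < 3 by norm_num))
      refine this.congr fun n => ?_
      push_cast
      rfl
    rw [← ENNReal.ofReal_tsum_of_nonneg (fun n => by positivity) hs]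
    exact ENNReal.ofReal_ne_top
  have hmt : Measurable fun p => ∑' n, F n p := Measurable.ennreal_tsum hFm
  have hae := ae_lt_top hmt hsum
  rw [ae_restrict_iff' hBm] at hae
  filter_upwards [hae] with p hp hpB
  have hfin := hp hpB
  set G := ∑' n, F n p with hG
  refine ⟨G.toReal, ENNReal.toReal_nonneg, fun n κ m hκ hm => ?_⟩
  have h1 : ENNReal.ofReal ((((n : ℝ) + 1) ^ (d + 4) * 2 ^ m * ∏ i, (1 / 2 : ℝ) ^ κ i)⁻¹) * V κ m p ≤
      G := by
    refine le_trans ?_ (ENNReal.le_tsum n)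
    simp only [hF]
    refine le_trans ?_ (Finset.single_le_sum (fun κ _ => bot_le)
      (Fintype.mem_piFinset.2 fun i => Finset.mem_range.2 (Nat.lt_succ_of_le (hκ i))))
    exact Finset.single_le_sum (f := fun m => ENNReal.ofReal ((((n : ℝ) + 1) ^ (d + 4) * 2 ^ m *
      ∏ i, (1 / 2 : ℝ) ^ κ i)⁻¹) * V κ m p) (fun m _ => bot_le)
      (Finset.mem_range.2 (by omega))
  have hP : 0 < ((n : ℝ) + 1) ^ (d + 4) * 2 ^ m * ∏ i, (1 / 2 : ℝ) ^ κ i := by
    have : 0 < ∏ i, (1 / 2 : ℝ) ^ κ i := Finset.prod_pos fun i _ => by positivity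
    positivity
  set P : ℝ := ((n : ℝ) + 1) ^ (d + 4) * 2 ^ m * ∏ i, (1 / 2 : ℝ) ^ κ i with hPd
  have h2 : V κ m p = ENNReal.ofReal P * (ENNReal.ofReal P⁻¹ * V κ m p) := by
    rw [← mul_assoc, ← ENNReal.ofReal_mul hP.le, mul_inv_cancel₀ hP.ne', ENNReal.ofReal_one,
      one_mul]
  calc V κ m p = ENNReal.ofReal P * (ENNReal.ofReal P⁻¹ * V κ m p) := h2
    _ ≤ ENNReal.ofReal P * G := mul_le_mul_right h1 _
    _ = ENNReal.ofReal P * ENNReal.ofReal G.toReal := by rw [ENNReal.ofReal_toReal hfin.ne]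
    _ = _ := by
        rw [← ENNReal.ofReal_mul hP.le]
        congr 1
        rw [hPd]
        ring

/-- almost all vectors have the box property -/
theorem ae_box (d : ℕ) : ∀ᵐ p : Fin d → ℝ, BoxB p := by
  have h := ae_all_iff.2 (fun N => ae_box_one d N)
  filter_upwards [h] with p hp c hc
  obtain ⟨N₁, hN₁⟩ := exists_nat_gt (1 / c)
  obtain ⟨N₂, hN₂⟩ := exists_nat_gt (∑ i, |p i|)
  set N := max N₁ N₂ with hN
  have hNc : 1 / ((N : ℝ) + 1) ≤ c := by
    rw [div_le_iff₀ (by positivity)]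
    rw [div_lt_iff₀ hc] at hN₁
    have : (N₁ : ℝ) ≤ N := by exact_mod_cast le_max_left _ _
    nlinarith
  have hNp : p ∈ Set.pi Set.univ (fun _ : Fin d => Set.Icc (-(N : ℝ)) N) := by
    intro i _
    have h1 : |p i| ≤ ∑ i, |p i| := Finset.single_le_sum (f := fun i => |p i|)
      (fun i _ => abs_nonneg _) (Finset.mem_univ i)
    have h2 : (N₂ : ℝ) ≤ N := by exact_mod_cast le_max_right _ _
    exact Set.mem_Icc.2 (abs_le.1 (by linarith))
  obtain ⟨G, hG, hb⟩ := hp N hNp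
  refine ⟨G, hG, fun n κ m hκ hm => (measure_mono ?_).trans (hb n κ m hκ hm)⟩
  exact Set.inter_subset_inter_right _ (Set.Icc_subset_Icc_left hNc)

end Pool.Agent.T6.H79.BZ4
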