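import Pool.Agent.T6.H79.BZ4.Vol

set_option autoImplicit false

/-!
# Barnes zeta functions, fourth moment, part 3: integrals of the product over intervals
-/

namespace Pool.Agent.T6.H79.BZ4

open Finset Filter Topology MeasureTheory
open Pool.Agent.T6.H60.BC Pool.Agent.T6.H60.BD

/-- the truncated product of the inverse distances -/
noncomputable def QQ {r : ℕ} (w : Fin r → ℝ) (L : ℕ) (y : ℝ) : ℝ :=
  ∏ j, (max ((1 / 2 : ℝ) ^ L) (nd (w j * y)))⁻¹

lemma QQ_nonneg {r : ℕ} (w : Fin r → ℝ) (L : ℕ) (y : ℝ) : 0 ≤ QQ w L y :=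
  Finset.prod_nonneg fun j _ => by positivity

lemma QQ_meas {r : ℕ} (w : Fin r → ℝ) (L : ℕ) : Measurable (QQ w L) := by
  unfold QQ
  refine Finset.measurable_fun_prod _ fun j _ => ?_
  refine Measurable.inv (Measurable.max measurable_const ?_)
  exact nd_meas.comp (measurable_const_mul _)

lemma QQ_sq {r : ℕ} (w : Fin r → ℝ) (L : ℕ) (y : ℝ) : pr w ((1 / 2 : ℝ) ^ L) y = QQ w L y ^ 2 := by
  unfold pr QQ
  rw [← Finset.prod_pow]
  exact Finset.prod_congr rfl fun j _ => by rw [inv_pow]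

lemma cake1 (i L : ℕ) {x : ℝ} (hx : 0 ≤ x) (hx1 : x ≤ 1) :
    ((max ((1 / 2 : ℝ) ^ L) x)⁻¹) ^ i ≤ ∑ k ∈ Finset.range (L + 1),
      2 ^ i * ((2 : ℝ) ^ k) ^ i * (if x ≤ (1 / 2 : ℝ) ^ k then 1 else 0) := by
  have hnn : ∀ k : ℕ, 0 ≤ 2 ^ i * ((2 : ℝ) ^ k) ^ i * (if x ≤ (1 / 2 : ℝ) ^ k then 1 else 0) := by
    intro k
    split_ifs <;> positivity
  have hinv : ∀ k : ℕ, ((1 / 2 : ℝ) ^ k)⁻¹ = 2 ^ k := by
    intro k
    rw [← inv_pow]
    norm_num
  induction L with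
  | zero =>
    simp only [pow_zero, zero_add, Finset.range_one, Finset.sum_singleton, one_pow, mul_one]
    rw [max_eq_left hx1, if_pos hx1]
    simp only [inv_one, one_pow, mul_one]
    exact one_le_pow₀ (by norm_num)
  | succ L ih =>
    rw [Finset.sum_range_succ]
    rcases le_or_gt x ((1 / 2 : ℝ) ^ (L + 1)) with h | h
    · rw [max_eq_left h, hinv, if_pos h]
      have h1 : 0 ≤ ∑ k ∈ Finset.range (L + 1),
        2 ^ i * ((2 : ℝ) ^ k) ^ i * (if x ≤ (1 / 2 : ℝ) ^ k then 1 else 0) :=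
        Finset.sum_nonneg fun k _ => hnn k
      have h2 : (1 : ℝ) ≤ 2 ^ i := one_le_pow₀ (by norm_num)
      have h3 : 0 ≤ ((2 : ℝ) ^ (L + 1)) ^ i := by positivity
      nlinarith
    · have h4 : max ((1 / 2 : ℝ) ^ (L + 1)) x = x := max_eq_right h.le
      rw [h4]
      rcases le_or_gt x ((1 / 2 : ℝ) ^ L) with h5 | h5
      · have h6 : (x⁻¹) ^ i ≤ 2 ^ i * ((2 : ℝ) ^ L) ^ i * (if x ≤ (1 / 2 : ℝ) ^ L then 1 else 0) := by
          rw [if_pos h5, mul_one, ← mul_pow, ← pow_succ']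
          apply pow_le_pow_left₀ (by positivity)
          rw [← hinv]
          exact inv_anti₀ (by positivity) h.le
        have h7 := Finset.single_le_sum (f := fun k : ℕ => 2 ^ i * ((2 : ℝ) ^ k) ^ i *
          (if x ≤ (1 / 2 : ℝ) ^ k then 1 else 0)) (fun k _ => hnn k)
          (Finset.mem_range.2 (Nat.lt_succ_self L))
        have h8 := hnn (L + 1)
        linarith
      · rw [max_eq_right h5.le] at ih
        have h8 := hnn (L + 1)
        linarith

lemma cakeQ {r : ℕ} (w : Fin r → ℝ) (i L : ℕ) (y : ℝ) :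
    (QQ w L y) ^ i ≤ ∑ κ ∈ Fintype.piFinset (fun _ : Fin r => Finset.range (L + 1)),
      (∏ j, 2 ^ i * ((2 : ℝ) ^ κ j) ^ i) * (EE w κ).indicator (fun _ => (1 : ℝ)) y := by
  unfold QQ
  rw [← Finset.prod_pow]
  refine (Finset.prod_le_prod (fun j _ => by positivity) fun j _ =>
    cake1 i L (nd_nonneg _) ((nd_le_half _).trans (by norm_num))).trans ?_
  rw [Finset.prod_univ_sum]
  refine Finset.sum_le_sum fun κ _ => ?_
  rw [Finset.prod_mul_distrib]
  apply mul_le_mul_of_nonneg_left _ (by positivity)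
  by_cases h : y ∈ EE w κ
  · rw [Set.indicator_of_mem h]
    apply le_of_eq
    exact Finset.prod_eq_one fun j _ => if_pos (h j)
  · rw [Set.indicator_of_notMem h]
    apply le_of_eq
    have h1 : ∃ j, ¬ nd (w j * y) ≤ (1 / 2 : ℝ) ^ κ j := by
      by_contra h2
      push Not at h2
      exact h h2
    obtain ⟨j, hj⟩ := h1
    exact Finset.prod_eq_zero (Finset.mem_univ j) (if_neg hj)

lemma expo {r d : ℕ} {e : Fin d → Fin r} (he : Function.Injective e) {i L : ℕ} (hi : 1 ≤ i)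
    {κ : Fin r → ℕ} (hκ : ∀ j, κ j ≤ L) :
    (∏ j, ((2 : ℝ) ^ κ j) ^ i) * ∏ t, (1 / 2 : ℝ) ^ κ (e t) ≤ ((2 : ℝ) ^ L) ^ (i * r - d) := by
  have hdr : d ≤ r := by
    have := Fintype.card_le_of_injective e he
    simpa using this
  have hdi : d ≤ i * r := hdr.trans (Nat.le_mul_of_pos_left r hi)
  have key : (i * ∑ j, κ j) + L * d ≤ L * (i * r) + ∑ t, κ (e t) := by
    have h1 : ∑ t, ((L : ℤ) - κ (e t)) ≤ ∑ j, (i : ℤ) * ((L : ℤ) - κ j) := by
      calc ∑ t, ((L : ℤ) - κ (e t)) = ∑ j ∈ Finset.univ.map ⟨e, he⟩, ((L : ℤ) - κ j) := by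
            rw [Finset.sum_map]
            rfl
        _ ≤ ∑ j ∈ Finset.univ.map ⟨e, he⟩, (i : ℤ) * ((L : ℤ) - κ j) := by
            refine Finset.sum_le_sum fun j _ => ?_
            have h2 : (0 : ℤ) ≤ (L : ℤ) - κ j := by
              have := hκ j
              omega
            have h3 : (1 : ℤ) ≤ i := by exact_mod_cast hi
            nlinarith
        _ ≤ _ := by
            refine Finset.sum_le_sum_of_subset_of_nonneg (Finset.subset_univ _) fun j _ _ => ?_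
            have h2 : (0 : ℤ) ≤ (L : ℤ) - κ j := by
              have := hκ j
              omega
            positivity
    rw [Finset.sum_sub_distrib, ← Finset.mul_sum, Finset.sum_sub_distrib] at h1
    simp only [Finset.sum_const, Finset.card_univ, Fintype.card_fin, nsmul_eq_mul] at h1
    have h4 : ((i * ∑ j, κ j + L * d : ℕ) : ℤ) ≤ ((L * (i * r) + ∑ t, κ (e t) : ℕ) : ℤ) := by
      push_cast
      nlinarith
    exact_mod_cast h4
  have e1 : (∏ j, ((2 : ℝ) ^ κ j) ^ i) = 2 ^ (i * ∑ j, κ j) := by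
    rw [Finset.prod_pow, Finset.prod_pow_eq_pow_sum, ← pow_mul, mul_comm]
  have e2 : (∏ t, (1 / 2 : ℝ) ^ κ (e t)) = (2 ^ (∑ t, κ (e t)))⁻¹ := by
    rw [Finset.prod_pow_eq_pow_sum, one_div, inv_pow]
  rw [e1, e2, ← pow_mul, ← div_eq_mul_inv, div_le_iff₀ (by positivity), ← pow_add]
  apply pow_le_pow_right₀ (by norm_num)
  have h5 : L * (i * r - d) = L * (i * r) - L * d := Nat.mul_sub _ _ _
  have h6 : L * d ≤ L * (i * r) := Nat.mul_le_mul_left _ hdi
  omega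

/-- the integral of the product over a set -/
lemma int_set {r d : ℕ} {w : Fin r → ℝ} {e : Fin d → Fin r} (he : Function.Injective e)
    (j₀ : Fin r) {i L : ℕ} (hi : 1 ≤ i) {I : Set ℝ} (hI : MeasurableSet I) {D A B : ℝ}
    (hD : 0 ≤ D) (hA : 0 ≤ A) (hB : 0 ≤ B)
    (hv : ∀ κ : Fin r → ℕ, (∀ j, κ j ≤ L) → volume (EE w κ ∩ I) ≤
      ENNReal.ofReal (D * (A * (1 / 2 : ℝ) ^ κ j₀ + B * ∏ t, (1 / 2 : ℝ) ^ κ (e t)))) :
    ∫⁻ y in I, ENNReal.ofReal (QQ w L y ^ i) ≤ ENNReal.ofReal (D * ((2 ^ i) ^ r *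
      ((L : ℝ) + 1) ^ r) * (A * ((2 : ℝ) ^ L) ^ (i * r - 1) + B * ((2 : ℝ) ^ L) ^ (i * r - d))) := by
  calc ∫⁻ y in I, ENNReal.ofReal (QQ w L y ^ i)
      ≤ ∫⁻ y in I, ∑ κ ∈ Fintype.piFinset (fun _ : Fin r => Finset.range (L + 1)),
        ENNReal.ofReal (∏ j, 2 ^ i * ((2 : ℝ) ^ κ j) ^ i) *
          (EE w κ).indicator 1 y := by
        refine lintegral_mono fun y => ?_
        refine (ENNReal.ofReal_le_ofReal (cakeQ w i L y)).trans ?_
        rw [ENNReal.ofReal_sum_of_nonneg fun κ _ => by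
          have : 0 ≤ (EE w κ).indicator (fun _ => (1 : ℝ)) y :=
            Set.indicator_nonneg (fun _ _ => zero_le_one) _
          positivity]
        refine Finset.sum_le_sum fun κ _ => ?_
        rw [ENNReal.ofReal_mul (by positivity)]
        apply le_of_eq
        congr 1
        by_cases h : y ∈ EE w κ
        · rw [Set.indicator_of_mem h, Set.indicator_of_mem h, ENNReal.ofReal_one, Pi.one_apply]
        · rw [Set.indicator_of_notMem h, Set.indicator_of_notMem h, ENNReal.ofReal_zero]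
    _ = ∑ κ ∈ Fintype.piFinset (fun _ : Fin r => Finset.range (L + 1)),
        ENNReal.ofReal (∏ j, 2 ^ i * ((2 : ℝ) ^ κ j) ^ i) * volume (EE w κ ∩ I) := by
        rw [lintegral_finsetSum _ fun κ _ =>
          (measurable_one.indicator (EE_meas w κ)).const_mul _]
        refine Finset.sum_congr rfl fun κ _ => ?_
        rw [lintegral_const_mul _ (measurable_one.indicator (EE_meas w κ)),
          lintegral_indicator_one (EE_meas w κ), Measure.restrict_apply (EE_meas w κ)]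
    _ ≤ ∑ _κ ∈ Fintype.piFinset (fun _ : Fin r => Finset.range (L + 1)),
        ENNReal.ofReal (D * (2 ^ i) ^ r * (A * ((2 : ℝ) ^ L) ^ (i * r - 1) +
          B * ((2 : ℝ) ^ L) ^ (i * r - d))) := by
        refine Finset.sum_le_sum fun κ hκ => ?_
        have hκ' : ∀ j, κ j ≤ L := fun j =>
          Nat.lt_succ_iff.1 (Finset.mem_range.1 (Fintype.mem_piFinset.1 hκ j))
        refine (mul_le_mul_right (hv κ hκ') _).trans ?_
        rw [← ENNReal.ofReal_mul (by positivity)]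
        apply ENNReal.ofReal_le_ofReal
        have h1 := expo he hi hκ'
        have h2 := expo (e := fun _ : Fin 1 => j₀) (fun a b _ => Subsingleton.elim a b) hi hκ'
        simp only [Finset.univ_unique, Finset.prod_singleton] at h2
        have h3 : (∏ j, 2 ^ i * ((2 : ℝ) ^ κ j) ^ i) = (2 ^ i) ^ r * ∏ j, ((2 : ℝ) ^ κ j) ^ i := by
          rw [Finset.prod_mul_distrib]
          simp
        rw [h3]
        calc (2 ^ i) ^ r * (∏ j, ((2 : ℝ) ^ κ j) ^ i) * (D * (A * (1 / 2 : ℝ) ^ κ j₀ +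
              B * ∏ t, (1 / 2 : ℝ) ^ κ (e t))) = D * (2 ^ i) ^ r *
              (A * ((∏ j, ((2 : ℝ) ^ κ j) ^ i) * (1 / 2 : ℝ) ^ κ j₀) +
                B * ((∏ j, ((2 : ℝ) ^ κ j) ^ i) * ∏ t, (1 / 2 : ℝ) ^ κ (e t))) := by ring
          _ ≤ _ := by gcongr
    _ = _ := by
        rw [Finset.sum_const, Fintype.card_piFinset]
        simp only [Finset.card_range, Finset.prod_const, Finset.card_univ, Fintype.card_fin,
          nsmul_eq_mul]
        rw [← ENNReal.ofReal_natCast, ← ENNReal.ofReal_mul (by positivity)]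
        congr 1
        push_cast
        ring

/-- the integral over an arbitrary interval -/
theorem int_near {r d : ℕ} {w : Fin r → ℝ} (hw : ∀ j, 0 < w j) {e : Fin d → Fin r}
    (he : Function.Injective e) (hp : BoxB (w ∘ e)) (j₀ : Fin r) {i : ℕ} (hi : 1 ≤ i) :
    ∃ C : ℝ, 0 ≤ C ∧ ∀ (n L : ℕ) (x y : ℝ), L ≤ n → 0 ≤ y → y ≤ 2 ^ (2 * n + 2) →
      ∫⁻ t in Set.Icc x (x + y), ENNReal.ofReal (QQ w L t ^ i) ≤
        ENNReal.ofReal (C * ((n : ℝ) + 1) ^ (d + 4 + r) *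
          (((2 : ℝ) ^ L) ^ (i * r - 1) + y * ((2 : ℝ) ^ L) ^ (i * r - d))) := by
  obtain ⟨C, hC, hb⟩ := EE_vol hw hp j₀
  refine ⟨C * (2 ^ i) ^ r, by positivity, fun n L x y hL hy hy2 => ?_⟩
  refine (int_set he j₀ hi measurableSet_Icc (D := C * ((n : ℝ) + 1) ^ (d + 4)) (A := 1) (B := y)
    (by positivity) zero_le_one hy fun κ hκ => ?_).trans ?_
  · rw [one_mul]
    exact hb n κ x y (fun j => (hκ j).trans hL) hy hy2
  · apply ENNReal.ofReal_le_ofReal
    have h1 : ((L : ℝ) + 1) ^ r ≤ ((n : ℝ) + 1) ^ r := by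
      have : (L : ℝ) ≤ n := by exact_mod_cast hL
      gcongr
    rw [one_mul, pow_add ((n : ℝ) + 1) (d + 4) r]
    calc C * ((n : ℝ) + 1) ^ (d + 4) * ((2 ^ i) ^ r * ((L : ℝ) + 1) ^ r) *
          (((2 : ℝ) ^ L) ^ (i * r - 1) + y * ((2 : ℝ) ^ L) ^ (i * r - d)) ≤
          C * ((n : ℝ) + 1) ^ (d + 4) * ((2 ^ i) ^ r * ((n : ℝ) + 1) ^ r) *
          (((2 : ℝ) ^ L) ^ (i * r - 1) + y * ((2 : ℝ) ^ L) ^ (i * r - d)) := by gcongr
      _ = _ := by ring

/-- the integral away from the origin -/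
theorem int_far {r d : ℕ} {w : Fin r → ℝ} {e : Fin d → Fin r}
    (he : Function.Injective e) (hp : BoxB (w ∘ e)) (j₀ : Fin r) {i : ℕ} (hi : 1 ≤ i) {c : ℝ}
    (hc : 0 < c) :
    ∃ C : ℝ, 0 ≤ C ∧ ∀ (n L : ℕ) (y : ℝ), L ≤ n → c ≤ y → y ≤ 2 ^ (2 * n + 2) →
      ∫⁻ t in Set.Icc c y, ENNReal.ofReal (QQ w L t ^ i) ≤
        ENNReal.ofReal (C * ((n : ℝ) + 1) ^ (d + 4 + r) * (y * ((2 : ℝ) ^ L) ^ (i * r - d))) := by
  obtain ⟨C, hC, hb⟩ := EE_far hp hc
  refine ⟨C * (2 ^ i) ^ r, by positivity, fun n L y hL hy hy2 => ?_⟩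
  have hy0 : 0 ≤ y := hc.le.trans hy
  refine (int_set he j₀ hi measurableSet_Icc (D := C * ((n : ℝ) + 1) ^ (d + 4)) (A := 0) (B := y)
    (by positivity) le_rfl hy0 fun κ hκ => ?_).trans ?_
  · rw [zero_mul, zero_add]
    exact hb n κ y (fun j => (hκ j).trans hL) hy hy2
  · apply ENNReal.ofReal_le_ofReal
    have h1 : ((L : ℝ) + 1) ^ r ≤ ((n : ℝ) + 1) ^ r := by
      have : (L : ℝ) ≤ n := by exact_mod_cast hL
      gcongr
    rw [zero_mul, zero_add, pow_add ((n : ℝ) + 1) (d + 4) r]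
    calc C * ((n : ℝ) + 1) ^ (d + 4) * ((2 ^ i) ^ r * ((L : ℝ) + 1) ^ r) *
          (y * ((2 : ℝ) ^ L) ^ (i * r - d)) ≤
          C * ((n : ℝ) + 1) ^ (d + 4) * ((2 ^ i) ^ r * ((n : ℝ) + 1) ^ r) *
          (y * ((2 : ℝ) ^ L) ^ (i * r - d)) := by gcongr
      _ = _ := by ring

end Pool.Agent.T6.H79.BZ4
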