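import Pool.Agent.HopfPinch.AnS1

set_option autoImplicit false

/-!
# Convexity of integral means in a strip
-/

namespace Pool.Agent.T6.H79.BZ4

open Filter Topology MeasureTheory Complex ComplexConjugate

/-- the analytic family of dual functions -/
noncomputable def GG (p : ℝ) (f : ℝ → ℂ) (z : ℂ) (τ : ℝ) : ℂ :=
  if f τ = 0 then 0 else (conj (f τ) / (‖f τ‖ : ℂ)) *
    cexp (((p : ℂ) * (3 + z) / 4) * ((Real.log ‖f τ‖ : ℝ) : ℂ))

lemma GG_norm {p : ℝ} (hp : 0 < p) (f : ℝ → ℂ) {z : ℂ} (hz : -3 < z.re) (τ : ℝ) :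
    ‖GG p f z τ‖ = ‖f τ‖ ^ (p * (3 + z.re) / 4) := by
  unfold GG
  have he : 0 < p * (3 + z.re) / 4 := by
    have : 0 < 3 + z.re := by linarith
    positivity
  split_ifs with h
  · rw [h, norm_zero, Real.zero_rpow he.ne']
  · have hn : 0 < ‖f τ‖ := norm_pos_iff.2 h
    rw [norm_mul, norm_div, Complex.norm_conj, Complex.norm_real, norm_norm, div_self hn.ne',
      one_mul, Complex.norm_exp, Real.rpow_def_of_pos hn]
    congr 1
    have h1 : (((p : ℂ) * (3 + z) / 4) * ((Real.log ‖f τ‖ : ℝ) : ℂ)).re =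
        ((p : ℂ) * (3 + z) / 4).re * Real.log ‖f τ‖ := by
      rw [Complex.mul_re, Complex.ofReal_re, Complex.ofReal_im, mul_zero, sub_zero]
    have h2 : ((p : ℂ) * (3 + z) / 4).re = p * (3 + z.re) / 4 := by
      have h3 : (p : ℂ) * (3 + z) / 4 = ((p / 4 : ℝ) : ℂ) * (3 + z) := by push_cast; ring
      rw [h3, Complex.re_ofReal_mul, Complex.add_re]
      norm_num
      ring
    rw [h1, h2]
    ring

lemma GG_meas (p : ℝ) {f : ℝ → ℂ} (hf : Measurable f) (z : ℂ) : Measurable (GG p f z) := by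
  unfold GG
  refine Measurable.ite (hf (measurableSet_singleton 0)) measurable_const ?_
  have h1 : Measurable fun τ => conj (f τ) := Complex.continuous_conj.measurable.comp hf
  have h2 : Measurable fun τ => ((‖f τ‖ : ℝ) : ℂ) := Complex.measurable_ofReal.comp hf.norm
  have h3 : Measurable fun τ => ((Real.log ‖f τ‖ : ℝ) : ℂ) :=
    Complex.measurable_ofReal.comp (Real.measurable_log.comp hf.norm)
  exact (h1.div h2).mul ((measurable_const.mul h3).cexp)

lemma GG_diff (p : ℝ) (f : ℝ → ℂ) (τ : ℝ) : Differentiable ℂ fun z => GG p f z τ := by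
  unfold GG
  split_ifs with h
  · exact differentiable_const _
  · fun_prop

/-- convexity of integral means: between an `L^4` bound over windows and a supremum bound -/
theorem interp {N : ℂ → ℂ} {σ₀ σ₁ c : ℝ} (h01 : σ₀ < σ₁) (hc : 0 < c)
    (hN : ∀ s : ℂ, σ₀ - c < s.re → s.re < σ₁ + c → DifferentiableAt ℂ N s)
    {B : ℝ} (hb : ∀ s : ℂ, σ₀ - c < s.re → s.re < σ₁ + c → ‖N s‖ ≤ B)
    {S : Set ℝ} (hS : MeasurableSet S) (hSf : volume S ≠ ⊤) {A₀ A₁ : ℝ} (hA₀ : 0 ≤ A₀)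
    (hA₁ : 0 ≤ A₁)
    (h0 : ∀ y : ℝ, ∫⁻ τ in S, ‖N ((σ₀ : ℂ) + ((y + τ : ℝ) : ℂ) * I)‖ₑ ^ 4 ≤ ENNReal.ofReal A₀)
    (h1 : ∀ t : ℝ, ‖N ((σ₁ : ℂ) + (t : ℂ) * I)‖ ≤ A₁) {ϑ : ℝ} (hϑ0 : 0 < ϑ) (hϑ1 : ϑ < 1) :
    ∫⁻ τ in S, ‖N ((((1 - ϑ) * σ₀ + ϑ * σ₁ : ℝ) : ℂ) + (τ : ℂ) * I)‖ₑ ^ (4 / (1 - ϑ)) ≤
      ENNReal.ofReal (A₀ * A₁ ^ (4 / (1 - ϑ) - 4)) := by
  set p : ℝ := 4 / (1 - ϑ) with hp
  have hϑ : 0 < 1 - ϑ := by linarith
  have hp0 : 0 < p := by positivity
  have hpϑ : p * (1 - ϑ) = 4 := by rw [hp]; field_simp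
  set σ : ℝ := (1 - ϑ) * σ₀ + ϑ * σ₁ with hσ
  have hσl : σ₀ < σ := by rw [hσ]; nlinarith
  have hσu : σ < σ₁ := by rw [hσ]; nlinarith
  set f : ℝ → ℂ := fun τ => N ((σ : ℂ) + (τ : ℂ) * I) with hf
  have hline : ∀ x : ℝ, σ₀ - c < x → x < σ₁ + c → Continuous fun τ : ℝ => N ((x : ℂ) + (τ : ℂ) * I) := by
    intro x hx1 hx2
    refine continuous_iff_continuousAt.2 fun τ => ?_
    have h2 := (hN ((x : ℂ) + (τ : ℂ) * I) (by simpa using hx1) (by simpa using hx2)).continuousAt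
    exact ContinuousAt.comp (g := N) (f := fun τ : ℝ => (x : ℂ) + (τ : ℂ) * I) h2 (by fun_prop)
  have hfc : Continuous f := hline σ (by linarith) (by linarith)
  have hfm : Measurable f := hfc.measurable
  set B' : ℝ := max 1 B with hB'
  have hB'1 : 1 ≤ B' := le_max_left _ _
  have hfb : ∀ τ, ‖f τ‖ ≤ B' := fun τ =>
    (hb _ (by simpa using (by linarith : σ₀ - c < σ)) (by simpa using (by linarith : σ < σ₁ + c))).trans
      (le_max_right _ _)
  set μ : Measure ℝ := volume.restrict S with hμ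
  have hfin : IsFiniteMeasure μ := ⟨by rw [hμ, Measure.restrict_apply_univ]; exact hSf.lt_top⟩
  -- the real integral
  have hfpm : Measurable fun τ => ‖f τ‖ ^ p := hfm.norm.pow_const p
  have hfpi : Integrable (fun τ => ‖f τ‖ ^ p) μ := by
    refine Integrable.mono' (integrable_const (B' ^ p)) hfpm.aestronglyMeasurable
      (Eventually.of_forall fun τ => ?_)
    rw [Real.norm_of_nonneg (by positivity)]
    exact Real.rpow_le_rpow (norm_nonneg _) (hfb τ) hp0.le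
  set J : ℝ := ∫ τ, ‖f τ‖ ^ p ∂μ with hJ
  have hJ0 : 0 ≤ J := integral_nonneg fun τ => by positivity
  have hJl : ∫⁻ τ, ‖f τ‖ₑ ^ p ∂μ = ENNReal.ofReal J := by
    rw [hJ, ofReal_integral_eq_lintegral_ofReal hfpi (Eventually.of_forall fun τ => by positivity)]
    refine lintegral_congr fun τ => ?_
    rw [← ofReal_norm, ENNReal.ofReal_rpow_of_nonneg (norm_nonneg _) hp0.le]
  have hgoal : ∫⁻ τ in S, ‖N ((σ : ℂ) + (τ : ℂ) * I)‖ₑ ^ p = ENNReal.ofReal J := hJl
  rw [hgoal]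
  apply ENNReal.ofReal_le_ofReal
  -- the analytic function
  set D : ℝ := σ₁ - σ₀ with hD
  have hD0 : 0 < D := by rw [hD]; linarith
  set c' : ℝ := min (c / D) 1 with hc'
  have hc'0 : 0 < c' := lt_min (by positivity) one_pos
  have hc'1 : c' ≤ 1 := min_le_right _ _
  have hc'D : c' * D ≤ c := by
    calc c' * D ≤ (c / D) * D := by gcongr; exact min_le_left _ _
      _ = c := by field_simp
  set sz : ℂ → ℝ → ℂ := fun z τ => (σ₀ : ℂ) + z * (D : ℂ) + (τ : ℂ) * I with hsz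
  have hszre : ∀ z τ, (sz z τ).re = σ₀ + z.re * D := by
    intro z τ
    simp [hsz]
  set Φ : ℂ → ℂ := fun z => ∫ τ, N (sz z τ) * GG p f z τ ∂μ with hΦ
  set O : Set ℂ := {z : ℂ | -c' < z.re ∧ z.re < 1 + c'} with hO
  have hOo : IsOpen O :=
    (isOpen_lt continuous_const Complex.continuous_re).inter
      (isOpen_lt Complex.continuous_re continuous_const)
  have hOs : ∀ z ∈ O, ∀ τ, σ₀ - c < (sz z τ).re ∧ (sz z τ).re < σ₁ + c := by
    intro z hz τ
    rw [hszre]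
    have h2 := hz.1
    have h3 := hz.2
    constructor
    · nlinarith
    · have : z.re * D < (1 + c') * D := by gcongr
      have h4 : σ₁ = σ₀ + D := by rw [hD]; ring
      nlinarith
  have hszc : ∀ z, Continuous fun τ : ℝ => sz z τ := by
    intro z
    simp only [hsz]
    fun_prop
  have hmeas : ∀ z ∈ O, Measurable fun τ => N (sz z τ) * GG p f z τ := by
    intro z hz
    have h2 : Continuous fun τ => N (sz z τ) := by
      refine continuous_iff_continuousAt.2 fun τ => ?_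
      have h3 := (hN (sz z τ) (hOs z hz τ).1 (hOs z hz τ).2).continuousAt
      exact ContinuousAt.comp (g := N) (f := fun τ : ℝ => sz z τ) h3 (hszc z).continuousAt
    exact h2.measurable.mul (GG_meas p hfm z)
  have hGb : ∀ z ∈ O, ∀ τ, ‖GG p f z τ‖ ≤ B' ^ (p * (5 / 4)) := by
    intro z hz τ
    have h2 := hz.1
    have h3 := hz.2
    rw [GG_norm hp0 f (by linarith) τ]
    calc ‖f τ‖ ^ (p * (3 + z.re) / 4) ≤ B' ^ (p * (3 + z.re) / 4) := by
          apply Real.rpow_le_rpow (norm_nonneg _) (hfb τ)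
          have : 0 < 3 + z.re := by linarith
          positivity
      _ ≤ _ := Real.rpow_le_rpow_of_exponent_le hB'1 (by nlinarith)
  have hFb : ∀ z ∈ O, ∀ τ, ‖N (sz z τ) * GG p f z τ‖ ≤ B' * B' ^ (p * (5 / 4)) := by
    intro z hz τ
    rw [norm_mul]
    have h2 : ‖N (sz z τ)‖ ≤ B' := (hb _ (hOs z hz τ).1 (hOs z hz τ).2).trans (le_max_right _ _)
    exact mul_le_mul h2 (hGb z hz τ) (norm_nonneg _) (by linarith)
  have hΦd : DifferentiableOn ℂ Φ O := by
    refine Pool.Agent.HP.differentiableOn_integral μ (fun τ z => N (sz z τ) * GG p f z τ) O hOo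
      (fun z hz => (hmeas z hz).aestronglyMeasurable) (fun τ => ?_)
      (fun _ => B' * B' ^ (p * (5 / 4))) (integrable_const _) (fun τ z hz => hFb z hz τ)
    intro z hz
    refine (DifferentiableAt.mul ?_ (GG_diff p f τ z)).differentiableWithinAt
    have h3 := hN (sz z τ) (hOs z hz τ).1 (hOs z hz τ).2
    refine DifferentiableAt.comp (g := N) (f := fun z => sz z τ) z h3 ?_
    simp only [hsz]
    fun_prop
  have hsub : HadamardThreeLines.verticalClosedStrip 0 1 ⊆ O := by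
    intro z hz
    have h2 : z.re ∈ Set.Icc (0 : ℝ) 1 := hz
    exact ⟨by linarith [h2.1], by linarith [h2.2]⟩
  have hdc : DiffContOnCl ℂ Φ (HadamardThreeLines.verticalStrip 0 1) := by
    apply DifferentiableOn.diffContOnCl
    refine hΦd.mono (Set.Subset.trans ?_ hsub)
    rw [HadamardThreeLines.verticalStrip, HadamardThreeLines.verticalClosedStrip,
      ← closure_Ioo zero_ne_one, ← closure_preimage_re]
  have hbd : BddAbove ((norm ∘ Φ) '' HadamardThreeLines.verticalClosedStrip 0 1) := by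
    refine ⟨B' * B' ^ (p * (5 / 4)) * μ.real Set.univ, ?_⟩
    rintro _ ⟨z, hz, rfl⟩
    exact norm_integral_le_of_norm_le_const (Eventually.of_forall fun τ => hFb z (hsub hz) τ)
  -- the left line
  have hleft : ∀ z ∈ re ⁻¹' {(0 : ℝ)}, ‖Φ z‖ ≤ A₀ ^ (1 / 4 : ℝ) * J ^ (3 / 4 : ℝ) := by
    intro z hz
    have hz0 : z.re = 0 := hz
    have hzO : z ∈ O := ⟨by rw [hz0]; linarith, by rw [hz0]; linarith⟩
    have hszz : ∀ τ : ℝ, sz z τ = (σ₀ : ℂ) + ((z.im * D + τ : ℝ) : ℂ) * I := by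
      intro τ
      apply Complex.ext
      · simp [hsz, hz0]
      · simp [hsz]
    have hNm : Measurable fun τ => ‖N (sz z τ)‖ₑ := by
      have h2 : Continuous fun τ => N (sz z τ) := by
        refine continuous_iff_continuousAt.2 fun τ => ?_
        have h3 := (hN (sz z τ) (hOs z hzO τ).1 (hOs z hzO τ).2).continuousAt
        exact ContinuousAt.comp (g := N) (f := fun τ : ℝ => sz z τ) h3 (hszc z).continuousAt
      exact h2.measurable.enorm
    have hGm : Measurable fun τ => ‖GG p f z τ‖ₑ := (GG_meas p hfm z).enorm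
    have hH := ENNReal.lintegral_mul_le_Lp_mul_Lq μ (p := 4) (q := 4 / 3)
      (by rw [Real.holderConjugate_iff]; norm_num) hNm.aemeasurable hGm.aemeasurable
    have e1 : ∫⁻ τ, ‖N (sz z τ)‖ₑ ^ (4 : ℝ) ∂μ ≤ ENNReal.ofReal A₀ := by
      refine le_trans (le_of_eq ?_) (h0 (z.im * D))
      refine lintegral_congr fun τ => ?_
      rw [hszz τ]
      exact_mod_cast ENNReal.rpow_natCast _ 4
    have e2 : ∫⁻ τ, ‖GG p f z τ‖ₑ ^ (4 / 3 : ℝ) ∂μ = ENNReal.ofReal J := by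
      rw [← hJl]
      refine lintegral_congr fun τ => ?_
      rw [← ofReal_norm, GG_norm hp0 f (by rw [hz0]; norm_num) τ, hz0, ← ofReal_norm,
        ENNReal.ofReal_rpow_of_nonneg (by positivity) (by norm_num),
        ENNReal.ofReal_rpow_of_nonneg (norm_nonneg _) hp0.le, ← Real.rpow_mul (norm_nonneg _)]
      congr 2
      ring
    have h5 : ENNReal.ofReal ‖Φ z‖ ≤ ENNReal.ofReal (A₀ ^ (1 / 4 : ℝ) * J ^ (3 / 4 : ℝ)) := by
      rw [ofReal_norm]
      calc ‖Φ z‖ₑ ≤ ∫⁻ τ, ‖N (sz z τ) * GG p f z τ‖ₑ ∂μ := enorm_integral_le_lintegral_enorm _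
        _ = ∫⁻ τ, ((fun τ => ‖N (sz z τ)‖ₑ) * fun τ => ‖GG p f z τ‖ₑ) τ ∂μ := by
            refine lintegral_congr fun τ => ?_
            rw [enorm_mul]
            rfl
        _ ≤ _ := hH
        _ ≤ (ENNReal.ofReal A₀) ^ (1 / 4 : ℝ) * (ENNReal.ofReal J) ^ (1 / (4 / 3) : ℝ) := by
            rw [e2]
            gcongr
        _ = _ := by
            rw [ENNReal.ofReal_rpow_of_nonneg hA₀ (by norm_num),
              ENNReal.ofReal_rpow_of_nonneg hJ0 (by norm_num), ← ENNReal.ofReal_mul (by positivity)]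
            norm_num
    rwa [ENNReal.ofReal_le_ofReal_iff (by positivity)] at h5
  -- the right line
  have hright : ∀ z ∈ re ⁻¹' {(1 : ℝ)}, ‖Φ z‖ ≤ A₁ * J := by
    intro z hz
    have hz1 : z.re = 1 := hz
    have hszz : ∀ τ : ℝ, sz z τ = (σ₁ : ℂ) + ((z.im * D + τ : ℝ) : ℂ) * I := by
      intro τ
      apply Complex.ext
      · simp [hsz, hz1, hD]
      · simp [hsz]
    rw [hJ, ← integral_const_mul]
    refine norm_integral_le_of_norm_le (hfpi.const_mul A₁) (Eventually.of_forall fun τ => ?_)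
    rw [norm_mul, GG_norm hp0 f (by rw [hz1]; norm_num) τ, hz1, hszz τ]
    have e1 : p * (3 + 1) / 4 = p := by ring
    rw [e1]
    gcongr
    exact h1 _
  -- the point
  have hmid : Φ (ϑ : ℂ) = (J : ℂ) := by
    simp only [hΦ]
    rw [hJ, ← integral_complex_ofReal]
    refine integral_congr_ae (Eventually.of_forall fun τ => ?_)
    have e1 : sz (ϑ : ℂ) τ = (σ : ℂ) + (τ : ℂ) * I := by
      simp only [hsz, hσ, hD]
      push_cast
      ring
    show N (sz (ϑ : ℂ) τ) * GG p f (ϑ : ℂ) τ = ((‖f τ‖ ^ p : ℝ) : ℂ)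
    rw [e1]
    have e2 : N ((σ : ℂ) + (τ : ℂ) * I) = f τ := rfl
    rw [e2]
    unfold GG
    split_ifs with h
    · rw [h, zero_mul, norm_zero, Real.zero_rpow hp0.ne']
      simp
    · have hn : 0 < ‖f τ‖ := norm_pos_iff.2 h
      have e3 : (p : ℂ) * (3 + (ϑ : ℂ)) / 4 = ((p - 1 : ℝ) : ℂ) := by
        have : p * (3 + ϑ) / 4 = p - 1 := by nlinarith
        exact_mod_cast this
      have e4 : cexp ((((p - 1 : ℝ) : ℂ)) * ((Real.log ‖f τ‖ : ℝ) : ℂ)) =
          ((‖f τ‖ ^ (p - 1) : ℝ) : ℂ) := by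
        rw [Real.rpow_def_of_pos hn, Complex.ofReal_exp]
        congr 1
        push_cast
        ring
      have e5 : f τ * conj (f τ) = ((‖f τ‖ ^ 2 : ℝ) : ℂ) := by
        rw [Complex.mul_conj, Complex.normSq_eq_norm_sq]
      rw [e3, e4]
      have e6 : f τ * (conj (f τ) / (‖f τ‖ : ℂ) * ((‖f τ‖ ^ (p - 1) : ℝ) : ℂ)) =
          (f τ * conj (f τ)) / (‖f τ‖ : ℂ) * ((‖f τ‖ ^ (p - 1) : ℝ) : ℂ) := by ring
      rw [e6, e5]
      have e7 : ‖f τ‖ ^ p = ‖f τ‖ ^ 2 / ‖f τ‖ * ‖f τ‖ ^ (p - 1) := by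
        rw [Real.rpow_sub_one hn.ne']
        field_simp
      rw [e7]
      push_cast
      ring
  -- three lines
  have h3 := HadamardThreeLines.norm_le_interp_of_mem_verticalClosedStrip₀₁' Φ (z := (ϑ : ℂ))
    (a := A₀ ^ (1 / 4 : ℝ) * J ^ (3 / 4 : ℝ)) (b := A₁ * J)
    (show (ϑ : ℂ).re ∈ Set.Icc (0 : ℝ) 1 from ⟨by simpa using hϑ0.le, by simpa using hϑ1.le⟩)
    hdc hbd hleft hright
  rw [hmid, Complex.norm_real, Real.norm_of_nonneg hJ0, Complex.ofReal_re] at h3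
  rcases hJ0.eq_or_lt with hJz | hJp
  · rw [← hJz]
    positivity
  · -- divide
    have h4 : J ≤ (A₀ ^ ((1 - ϑ) / 4) * A₁ ^ ϑ) * J ^ (1 - (1 - ϑ) / 4) := by
      refine h3.trans (le_of_eq ?_)
      rw [Real.mul_rpow (by positivity) (by positivity), Real.mul_rpow hA₁ hJ0,
        ← Real.rpow_mul hA₀, ← Real.rpow_mul hJ0]
      have e8 : J ^ (1 - (1 - ϑ) / 4) = J ^ (3 / 4 * (1 - ϑ)) * J ^ ϑ := by
        rw [← Real.rpow_add hJp]
        congr 1
        ring
      rw [e8]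
      have e9 : 1 / 4 * (1 - ϑ) = (1 - ϑ) / 4 := by ring
      rw [e9]
      ring
    have h5 : J ^ ((1 - ϑ) / 4) ≤ A₀ ^ ((1 - ϑ) / 4) * A₁ ^ ϑ := by
      have e10 : J ^ ((1 - ϑ) / 4) * J ^ (1 - (1 - ϑ) / 4) = J := by
        rw [← Real.rpow_add hJp]
        have : (1 - ϑ) / 4 + (1 - (1 - ϑ) / 4) = 1 := by ring
        rw [this, Real.rpow_one]
      have hJq : 0 < J ^ (1 - (1 - ϑ) / 4) := by positivity
      refine le_of_mul_le_mul_right ?_ hJq
      rw [e10]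
      exact h4
    have h6 : (J ^ ((1 - ϑ) / 4)) ^ p ≤ (A₀ ^ ((1 - ϑ) / 4) * A₁ ^ ϑ) ^ p :=
      Real.rpow_le_rpow (by positivity) h5 hp0.le
    rw [← Real.rpow_mul hJ0, Real.mul_rpow (by positivity) (by positivity), ← Real.rpow_mul hA₀,
      ← Real.rpow_mul hA₁] at h6
    have e11 : (1 - ϑ) / 4 * p = 1 := by rw [← hpϑ]; field_simp
    have e12 : ϑ * p = p - 4 := by linarith
    rw [e11, e12, Real.rpow_one, Real.rpow_one] at h6
    exact h6

end Pool.Agent.T6.H79.BZ4
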