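import Pool.Agent.T6.H60.BD.B
import Pool.Agent.T6.H79.BZ4.Cake
import Pool.Agent.T6.H79.BZ4.AvgB

set_option autoImplicit false

/-!
# Barnes zeta functions, fourth moment, part 7: the kernel on a block of the ray
-/

namespace Pool.Agent.T6.H79.BZ4

open Finset Filter Topology MeasureTheory Complex
open Pool.Agent.H131R5.BZ Pool.Agent.Y930.Bz Pool.Agent.Y616.BM Pool.Agent.T6.H60.BC
open Pool.Agent.T6.H60.BD

/-- pointwise bound of the kernel -/
lemma KK_QQ {r : ℕ} {a : ℝ} {w : Fin r → ℝ} (hw : ∀ j, 0 < w j) {x Y δ : ℝ} {L : ℕ} (hx : 0 < x)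
    (hδ : 0 < δ) (hδ1 : δ ≤ 1) (hδx : ∀ j, δ * (1 / 2 : ℝ) ^ L ≤ w j * x) :
    ‖KK a w ((x : ℂ) + ((2 * Real.pi * Y : ℝ) : ℂ) * I)‖ ≤
      Real.exp (-a * x) * ((4 / δ) ^ r * QQ w L Y) := by
  have h2 : (1 / 2 : ℝ) ^ L ≤ 1 := pow_le_one₀ (by norm_num) (by norm_num)
  have h20 : 0 < (1 / 2 : ℝ) ^ L := by positivity
  have h1 := KK_upper (a := a) hw (Y := Y) hx (δ := δ * (1 / 2 : ℝ) ^ L) (by positivity) hδx
    (by nlinarith)
  have h3 : pr w (δ * (1 / 2 : ℝ) ^ L) Y ≤ ((δ⁻¹) ^ r * QQ w L Y) ^ 2 := by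
    have e1 : ((δ⁻¹) ^ r * QQ w L Y) ^ 2 = ∏ j, (δ⁻¹ * (max ((1 / 2 : ℝ) ^ L) (nd (w j * Y)))⁻¹) ^ 2 := by
      unfold QQ
      rw [Finset.prod_pow, Finset.prod_mul_distrib]
      simp
    rw [e1]
    unfold pr
    refine Finset.prod_le_prod (fun j _ => by positivity) fun j _ => ?_
    rw [← mul_inv, inv_pow]
    have hn := nd_nonneg (w j * Y)
    have h4 : 0 < max ((1 / 2 : ℝ) ^ L) (nd (w j * Y)) := lt_max_of_lt_left h20
    apply inv_anti₀ (by positivity)
    apply pow_le_pow_left₀ (by positivity)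
    rw [mul_max_of_nonneg _ _ hδ.le]
    exact max_le_max le_rfl (by nlinarith)
  have h5 : ‖KK a w ((x : ℂ) + ((2 * Real.pi * Y : ℝ) : ℂ) * I)‖ ^ 2 ≤
      (Real.exp (-a * x) * ((4 / δ) ^ r * QQ w L Y)) ^ 2 := by
    have h6 : ENNReal.ofReal (‖KK a w ((x : ℂ) + ((2 * Real.pi * Y : ℝ) : ℂ) * I)‖ ^ 2) ≤
        ENNReal.ofReal ((Real.exp (-a * x) * ((4 / δ) ^ r * QQ w L Y)) ^ 2) := by
      rw [ENNReal.ofReal_pow (norm_nonneg _), ofReal_norm]
      refine h1.trans (ENNReal.ofReal_le_ofReal ?_)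
      have e2 : Real.exp (-(2 * a) * x) = Real.exp (-a * x) ^ 2 := by
        rw [← Real.exp_nat_mul]
        congr 1
        push_cast
        ring
      have e3 : (4 / δ) ^ r = 4 ^ r * (δ⁻¹) ^ r := by rw [div_eq_mul_inv, mul_pow]
      have e4 : (16 : ℝ) ^ r = (4 ^ r) ^ 2 := by
        rw [← pow_mul, mul_comm, pow_mul]
        norm_num
      rw [e2, e3, e4]
      calc Real.exp (-a * x) ^ 2 * ((4 ^ r) ^ 2 * pr w (δ * (1 / 2) ^ L) Y) ≤
          Real.exp (-a * x) ^ 2 * ((4 ^ r) ^ 2 * ((δ⁻¹) ^ r * QQ w L Y) ^ 2) := by gcongr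
        _ = _ := by ring
    rwa [ENNReal.ofReal_le_ofReal_iff (by positivity)] at h6
  have hQ := QQ_nonneg w L Y
  exact le_of_sq_le_sq h5 (by positivity)
where
  le_of_sq_le_sq {x y : ℝ} (h : x ^ 2 ≤ y ^ 2) (hy : 0 ≤ y) : x ≤ y :=
    (abs_le_of_sq_le_sq' h hy).2

/-- the set of the parameters of a block -/
def SB (η M : ℝ) : Set ℝ := {u : ℝ | M ≤ hf η u ∧ hf η u < 2 * M}

lemma SB_meas (η M : ℝ) : MeasurableSet (SB η M) := by
  have h1 : Measurable (hf η) := by unfold hf; fun_prop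
  exact (measurableSet_le measurable_const h1).inter (measurableSet_lt h1 measurable_const)

/-- the kernel on a block -/
noncomputable def kb {r : ℕ} (a : ℝ) (w : Fin r → ℝ) (σ η M : ℝ) : ℝ → ℂ :=
  (SB η M).indicator fun u => ((Real.exp (-σ * u) : ℝ) : ℂ) * KK a w (zr u η)

lemma zr_meas (η : ℝ) : Measurable fun u : ℝ => zr u η := by
  have : Continuous fun u : ℝ => zr u η := by unfold zr; fun_prop
  exact this.measurable

lemma zr_re (u η : ℝ) : (zr u η).re = Real.exp (-u) * Real.sin η := by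
  rw [zr_eq, Complex.add_re, Complex.ofReal_re, Complex.re_ofReal_mul, Complex.I_re, mul_zero,
    add_zero]

lemma zr_im (u η : ℝ) : (zr u η).im = Real.cos η * Real.exp (-u) := by
  rw [zr_eq, Complex.add_im, Complex.ofReal_im, Complex.im_ofReal_mul, Complex.I_im, mul_one,
    zero_add, mul_comm]

lemma kb_meas {r : ℕ} (a : ℝ) (w : Fin r → ℝ) (σ η M : ℝ) : Measurable (kb a w σ η M) := by
  refine Measurable.indicator ?_ (SB_meas η M)
  have h1 : Measurable fun u : ℝ => KK a w (zr u η) := by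
    have h2 := KK_meas (r := r) a
    have h3 : Measurable fun u : ℝ => ((w, zr u η) : (Fin r → ℝ) × ℂ) :=
      measurable_const.prodMk (zr_meas η)
    exact h2.comp h3
  have h4 : Measurable fun u : ℝ => ((Real.exp (-σ * u) : ℝ) : ℂ) := by fun_prop
  exact h4.mul h1

lemma KK_add {r : ℕ} (a α : ℝ) (w : Fin r → ℝ) (z : ℂ) :
    KK (a + α) w z = KK a w z * cexp (-(α : ℂ) * z) := by
  unfold KK
  have : cexp (-((a + α : ℝ) : ℂ) * z) = cexp (-(a : ℂ) * z) * cexp (-(α : ℂ) * z) := by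
    rw [← Complex.exp_add]
    congr 1
    push_cast
    ring
  rw [this]
  ring

lemma kb_add {r : ℕ} (a α : ℝ) (w : Fin r → ℝ) (σ η M : ℝ) :
    kb (a + α) w σ η M = fun u => kb a w σ η M u * cexp (-(α : ℂ) * zr u η) := by
  funext u
  unfold kb
  by_cases h : u ∈ SB η M
  · rw [Set.indicator_of_mem h, Set.indicator_of_mem h, KK_add]
    ring
  · rw [Set.indicator_of_notMem h, Set.indicator_of_notMem h, zero_mul]

/-- the constant of a block -/
noncomputable def Hc (r : ℕ) (a σ δ η M : ℝ) : ℝ :=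
  (4 * Real.pi / Real.cos 1) ^ σ * (4 / δ) ^ r * M ^ σ * Real.exp (-(3 * a * M * η))

lemma Hc_nonneg {r : ℕ} {a σ δ η M : ℝ} (hδ : 0 < δ) (hM : 0 < M) : 0 ≤ Hc r a σ δ η M := by
  unfold Hc
  have := Real.cos_one_pos
  have := Real.pi_pos
  positivity

/-- the bound of the kernel on a block -/
lemma kb_le {r : ℕ} {a : ℝ} (ha : 0 < a) {w : Fin r → ℝ} (hw : ∀ j, 0 < w j) {σ η M δ : ℝ}
    (hσ : 0 < σ) (hη : 0 < η) (hη1 : η ≤ 1) (hM : 0 < M) {L : ℕ} (hδ : 0 < δ) (hδ1 : δ ≤ 1)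
    (hδx : ∀ j, δ * (1 / 2 : ℝ) ^ L ≤ w j * (3 * M * η)) (u : ℝ) :
    ‖kb a w σ η M u‖ₑ ≤ {u : ℝ | M ≤ hf η u ∧ hf η u ≤ 2 * M}.indicator
      (fun u => ENNReal.ofReal (Hc r a σ δ η M * QQ w L (hf η u))) u := by
  have hcos := cos_pos_of hη.le hη1
  have hc1 := Real.cos_one_pos
  have hpi := Real.pi_gt_three
  unfold kb
  by_cases h : u ∈ SB η M
  · have h' : u ∈ {u : ℝ | M ≤ hf η u ∧ hf η u ≤ 2 * M} := ⟨h.1, h.2.le⟩
    rw [Set.indicator_of_mem h, Set.indicator_of_mem h', ← ofReal_norm]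
    apply ENNReal.ofReal_le_ofReal
    obtain ⟨h1, h2⟩ := h
    set Y := hf η u with hY
    set E := Real.exp (-u) with hE
    have hE0 : 0 < E := Real.exp_pos _
    have hYE : 2 * Real.pi * Y = Real.cos η * E := by
      rw [hY]
      unfold hf
      field_simp
      rw [← hE]
    have hcos1 : Real.cos η ≤ 1 := Real.cos_le_one _
    have hEY : 2 * Real.pi * Y ≤ E := by rw [hYE]; nlinarith
    have hsin := sin_ge hη.le hη1
    have hx3 : 3 * M * η ≤ E * Real.sin η := by
      have h3 : 3 * M ≤ Real.pi * Y := by nlinarith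
      calc 3 * M * η ≤ (Real.pi * Y) * η := by gcongr
        _ = (2 * Real.pi * Y) * (η / 2) := by ring
        _ ≤ E * Real.sin η := by gcongr
    have hx : 0 < E * Real.sin η := lt_of_lt_of_le (by positivity) hx3
    rw [norm_mul, Complex.norm_real, Real.norm_of_nonneg (Real.exp_pos _).le, zr_hf]
    have h4 := KK_QQ (a := a) hw (Y := Y) (L := L) hx hδ hδ1 (fun j => (hδx j).trans
      (mul_le_mul_of_nonneg_left hx3 (hw j).le))
    have h5 : Real.exp (-σ * u) ≤ (4 * Real.pi / Real.cos 1) ^ σ * M ^ σ := by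
      have e1 : Real.exp (-σ * u) = E ^ σ := by
        rw [hE, ← Real.exp_mul]
        congr 1
        ring
      rw [e1, ← Real.mul_rpow (by positivity) hM.le]
      apply Real.rpow_le_rpow hE0.le _ hσ.le
      rw [div_mul_eq_mul_div, le_div_iff₀ hc1]
      calc E * Real.cos 1 ≤ E * Real.cos η := by gcongr; exact hcos.2
        _ = 2 * Real.pi * Y := by rw [hYE]; ring
        _ ≤ 2 * Real.pi * (2 * M) := by gcongr
        _ = _ := by ring
    have h6 : Real.exp (-a * (E * Real.sin η)) ≤ Real.exp (-(3 * a * M * η)) := by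
      apply Real.exp_le_exp.2
      nlinarith
    have hQ := QQ_nonneg w L Y
    calc Real.exp (-σ * u) * ‖KK a w (((E * Real.sin η : ℝ) : ℂ) + ((2 * Real.pi * Y : ℝ) : ℂ) * I)‖
        ≤ ((4 * Real.pi / Real.cos 1) ^ σ * M ^ σ) * (Real.exp (-(3 * a * M * η)) *
          ((4 / δ) ^ r * QQ w L Y)) := by
          refine mul_le_mul h5 (h4.trans ?_) (norm_nonneg _) (by positivity)
          gcongr
      _ = _ := by unfold Hc; ring
  · rw [Set.indicator_of_notMem h, enorm_zero]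
    exact bot_le

/-- change of variables, as an inequality -/
lemma cv_le {c M : ℝ} (hc : 0 < c) (hM : 0 < M) (G : ℝ → ENNReal) :
    ∫⁻ u in {u : ℝ | M ≤ c * Real.exp (-u) ∧ c * Real.exp (-u) ≤ 2 * M},
      G (c * Real.exp (-u)) ≤ ENNReal.ofReal (M⁻¹) * ∫⁻ Y in Set.Icc M (2 * M), G Y := by
  rw [cv hc hM, ← lintegral_const_mul' _ _ ENNReal.ofReal_ne_top]
  refine setLIntegral_mono' measurableSet_Icc fun Y hY => ?_
  rw [mul_comm]
  gcongr
  exact hY.1

/-- change of variables in the triple integral -/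
theorem tri_cv {c M H : ℝ} (hc : 0 < c) (hM : 0 < M) (hH : 0 ≤ H) {q : ℝ → ℝ} (hq : ∀ y, 0 ≤ q y)
    {h : ℝ → ENNReal} (hh : ∀ u, h u ≤ {u : ℝ | M ≤ c * Real.exp (-u) ∧
      c * Real.exp (-u) ≤ 2 * M}.indicator (fun u => ENNReal.ofReal (H * q (c * Real.exp (-u)))) u) :
    ∫⁻ u : ℝ, ∫⁻ v : ℝ, ∫⁻ t : ℝ, h u * h v * (h t ^ 2 *
      ENNReal.ofReal ((1 + ((2 * Real.pi * c * Real.exp (-u) - 2 * Real.pi * c * Real.exp (-v)) *
        (2 * Real.pi * c * Real.exp (-u) - 2 * Real.pi * c * Real.exp (-t)) /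
        (2 * Real.pi * c * Real.exp (-u))) ^ 2)⁻¹)) ≤
    ENNReal.ofReal (H ^ 4 * (M⁻¹) ^ 3) *
      ∫⁻ a in Set.Icc M (2 * M), ∫⁻ b in Set.Icc M (2 * M), ∫⁻ d in Set.Icc M (2 * M),
      ENNReal.ofReal (q a ^ 1) * ENNReal.ofReal (q b ^ 1) * (ENNReal.ofReal (q d ^ 2) *
        ENNReal.ofReal ((1 + (2 * Real.pi * (a - b) * (a - d) / a) ^ 2)⁻¹)) := by
  set S : Set ℝ := {u : ℝ | M ≤ c * Real.exp (-u) ∧ c * Real.exp (-u) ≤ 2 * M} with hS
  have hSm : MeasurableSet S := by
    have h1 : Measurable fun u : ℝ => c * Real.exp (-u) := by fun_prop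
    exact (measurableSet_le measurable_const h1).inter (measurableSet_le h1 measurable_const)
  set G : ℝ → ℝ → ℝ → ENNReal := fun a b d => ENNReal.ofReal (H ^ 4) *
    (ENNReal.ofReal (q a ^ 1) * ENNReal.ofReal (q b ^ 1) * (ENNReal.ofReal (q d ^ 2) *
        ENNReal.ofReal ((1 + (2 * Real.pi * (a - b) * (a - d) / a) ^ 2)⁻¹))) with hG
  have hpi := Real.pi_pos
  -- the pointwise bound
  have hpt : ∀ u v t : ℝ, h u * h v * (h t ^ 2 *
      ENNReal.ofReal ((1 + ((2 * Real.pi * c * Real.exp (-u) - 2 * Real.pi * c * Real.exp (-v)) *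
        (2 * Real.pi * c * Real.exp (-u) - 2 * Real.pi * c * Real.exp (-t)) /
        (2 * Real.pi * c * Real.exp (-u))) ^ 2)⁻¹)) ≤
      S.indicator (fun u => S.indicator (fun v => S.indicator (fun t =>
        G (c * Real.exp (-u)) (c * Real.exp (-v)) (c * Real.exp (-t))) t) v) u := by
    intro u v t
    by_cases hu : u ∈ S
    swap
    · have h0 : h u = 0 := by
        have := hh u
        rw [Set.indicator_of_notMem hu] at this
        exact le_antisymm this bot_le
      rw [h0, zero_mul, zero_mul]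
      exact bot_le
    by_cases hv : v ∈ S
    swap
    · have h0 : h v = 0 := by
        have := hh v
        rw [Set.indicator_of_notMem hv] at this
        exact le_antisymm this bot_le
      rw [h0, mul_zero, zero_mul]
      exact bot_le
    by_cases ht : t ∈ S
    swap
    · have h0 : h t = 0 := by
        have := hh t
        rw [Set.indicator_of_notMem ht] at this
        exact le_antisymm this bot_le
      rw [h0]
      simp
    rw [Set.indicator_of_mem hu, Set.indicator_of_mem hv, Set.indicator_of_mem ht]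
    have h1 := hh u
    have h2 := hh v
    have h3 := hh t
    rw [Set.indicator_of_mem hu] at h1
    rw [Set.indicator_of_mem hv] at h2
    rw [Set.indicator_of_mem ht] at h3
    have e1 : (2 * Real.pi * c * Real.exp (-u) - 2 * Real.pi * c * Real.exp (-v)) *
        (2 * Real.pi * c * Real.exp (-u) - 2 * Real.pi * c * Real.exp (-t)) /
        (2 * Real.pi * c * Real.exp (-u)) = 2 * Real.pi * (c * Real.exp (-u) - c * Real.exp (-v)) *
        (c * Real.exp (-u) - c * Real.exp (-t)) / (c * Real.exp (-u)) := by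
      have := Real.exp_pos (-u)
      field_simp
    rw [e1]
    simp only [hG]
    have hqu := hq (c * Real.exp (-u))
    have hqv := hq (c * Real.exp (-v))
    have hqt := hq (c * Real.exp (-t))
    calc _ ≤ ENNReal.ofReal (H * q (c * Real.exp (-u))) * ENNReal.ofReal (H * q (c * Real.exp (-v))) *
          (ENNReal.ofReal (H * q (c * Real.exp (-t))) ^ 2 * ENNReal.ofReal ((1 + (2 * Real.pi *
          (c * Real.exp (-u) - c * Real.exp (-v)) *
          (c * Real.exp (-u) - c * Real.exp (-t)) / (c * Real.exp (-u))) ^ 2)⁻¹)) := by gcongr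
      _ = _ := by
          rw [← ENNReal.ofReal_pow (by positivity), ← ENNReal.ofReal_mul (by positivity),
            ← ENNReal.ofReal_mul (by positivity), ← ENNReal.ofReal_mul (by positivity),
            ← ENNReal.ofReal_mul (by positivity), ← ENNReal.ofReal_mul (by positivity),
            ← ENNReal.ofReal_mul (by positivity), ← ENNReal.ofReal_mul (by positivity)]
          congr 1
          ring
  have hin : ∀ (F : ℝ → ENNReal), ∫⁻ u, S.indicator F u = ∫⁻ u in S, F u :=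
    fun F => lintegral_indicator hSm F
  calc _ ≤ ∫⁻ u : ℝ, ∫⁻ v : ℝ, ∫⁻ t : ℝ,
        S.indicator (fun u => S.indicator (fun v => S.indicator (fun t =>
        G (c * Real.exp (-u)) (c * Real.exp (-v)) (c * Real.exp (-t))) t) v) u :=
        lintegral_mono fun u => lintegral_mono fun v => lintegral_mono fun t => hpt u v t
    _ = ∫⁻ u in S, ∫⁻ v in S, ∫⁻ t in S,
        G (c * Real.exp (-u)) (c * Real.exp (-v)) (c * Real.exp (-t)) := by
        rw [← hin]
        refine lintegral_congr fun u => ?_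
        by_cases hu : u ∈ S
        · simp only [Set.indicator_of_mem hu]
          rw [← hin]
          refine lintegral_congr fun v => ?_
          by_cases hv : v ∈ S
          · simp only [Set.indicator_of_mem hv]
            rw [← hin]
          · simp only [Set.indicator_of_notMem hv]
            simp
        · simp only [Set.indicator_of_notMem hu]
          simp
    _ ≤ ∫⁻ u in S, ∫⁻ v in S, ENNReal.ofReal (M⁻¹) * ∫⁻ d in Set.Icc M (2 * M),
        G (c * Real.exp (-u)) (c * Real.exp (-v)) d :=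
        lintegral_mono fun u => lintegral_mono fun v => cv_le hc hM _
    _ ≤ ∫⁻ u in S, ENNReal.ofReal (M⁻¹) * ∫⁻ b in Set.Icc M (2 * M), (ENNReal.ofReal (M⁻¹) *
        ∫⁻ d in Set.Icc M (2 * M), G (c * Real.exp (-u)) b d) :=
        lintegral_mono fun u => cv_le hc hM (fun b => ENNReal.ofReal (M⁻¹) *
          ∫⁻ d in Set.Icc M (2 * M), G (c * Real.exp (-u)) b d)
    _ ≤ ENNReal.ofReal (M⁻¹) * ∫⁻ a in Set.Icc M (2 * M), (ENNReal.ofReal (M⁻¹) *
        ∫⁻ b in Set.Icc M (2 * M), (ENNReal.ofReal (M⁻¹) * ∫⁻ d in Set.Icc M (2 * M), G a b d)) :=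
        cv_le hc hM (fun a => ENNReal.ofReal (M⁻¹) *
        ∫⁻ b in Set.Icc M (2 * M), (ENNReal.ofReal (M⁻¹) * ∫⁻ d in Set.Icc M (2 * M), G a b d))
    _ = _ := by
        simp only [hG]
        simp_rw [lintegral_const_mul' _ _ ENNReal.ofReal_ne_top]
        rw [← mul_assoc, ← mul_assoc, ← mul_assoc, ← ENNReal.ofReal_mul (by positivity),
          ← ENNReal.ofReal_mul (by positivity), ← ENNReal.ofReal_mul (by positivity)]
        congr 2
        ring

end Pool.Agent.T6.H79.BZ4
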