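import Pool.Agent.T6.H79.BZ4.Win

set_option autoImplicit false

/-!
# Barnes zeta functions, fourth moment, part 13: the rotated Mellin transform
-/

namespace Pool.Agent.T6.H79.BZ4

open Finset Filter Topology MeasureTheory Complex FourierTransform
open Pool.Agent.H131R5.BZ Pool.Agent.Y930.Bz Pool.Agent.Y616.BM Pool.Agent.T6.H60.BC
open Pool.Agent.T6.H60.BD

section
variable {r : ℕ} {a : ℝ} {w : Fin r → ℝ} {b : ℕ → ℂ} {c : ℕ → ℂ} {ρ C₀ σ y₀ : ℝ}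

/-- the rotated Mellin transform -/
noncomputable def NN (a : ℝ) (w : Fin r → ℝ) (b : ℕ → ℂ) (θ : ℝ) (s : ℂ) : ℂ :=
  cexp (-(s * (θ * I))) * mellin (fun t : ℝ => Kt a w b t) s

lemma NN_eq (ha : 0 < a) (hw : ∀ j, 0 < w j) (hρ : 0 < ρ) (hρ1 : ρ ≤ 1)
    (h0 : ∀ z : ℂ, z ≠ 0 → ‖z‖ ≤ ρ → ‖Kt a w b z‖ ≤ C₀) {θ : ℝ} (hθ : 0 ≤ θ)
    (hθ1 : θ < Real.pi / 2) (hσ : 0 < σ) (t : ℝ) :
    NN a w b θ ((σ : ℂ) + (t : ℂ) * I) = 𝓕 (kth a w b σ θ) ((2 * Real.pi)⁻¹ * t) := by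
  have h2 := mellin_rot ha hw hρ hρ1 h0 hθ hθ1 (s := (σ : ℂ) + t * I) (by simpa using hσ)
  have h3 : ((σ : ℂ) + t * I).re = σ := by simp
  have h4 : ((σ : ℂ) + t * I).im = t := by simp
  rw [h3, h4] at h2
  have h5 : t / (2 * Real.pi) = (2 * Real.pi)⁻¹ * t := by rw [div_eq_inv_mul]
  rw [h5] at h2
  unfold NN
  rw [h2, ← mul_assoc, ← Complex.exp_add]
  have : -(((σ : ℂ) + (t : ℂ) * I) * (θ * I)) + ((σ : ℂ) + (t : ℂ) * I) * (θ * I) = 0 := by ring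
  rw [this, Complex.exp_zero, one_mul]

lemma NN_diff (ha : 0 < a) (hw : ∀ j, 0 < w j) (hρ : 0 < ρ) (hρ1 : ρ ≤ 1)
    (h0 : ∀ z : ℂ, z ≠ 0 → ‖z‖ ≤ ρ → ‖Kt a w b z‖ ≤ C₀) (θ : ℝ) {s : ℂ} (hs : 0 < s.re) :
    DifferentiableAt ℂ (NN a w b θ) s := by
  unfold NN
  exact DifferentiableAt.mul (by fun_prop) (mellin_Kt_diff ha hw hρ hρ1 h0 hs)

lemma gf_le_add {σa σb c : ℝ} (h1 : σa ≤ σ) (h2 : σ ≤ σb) (u : ℝ) :
    gf σ c u ≤ gf σa c u + gf σb c u := by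
  unfold gf
  rw [← mul_add]
  apply mul_le_mul_of_nonneg_left _ (Real.exp_pos _).le
  have e1 := Real.exp_pos (-σa * u)
  have e2 := Real.exp_pos (-σb * u)
  rcases le_total 0 u with h | h
  · have : Real.exp (-σ * u) ≤ Real.exp (-σa * u) := Real.exp_le_exp.2 (by nlinarith)
    linarith
  · have : Real.exp (-σ * u) ≤ Real.exp (-σb * u) := Real.exp_le_exp.2 (by nlinarith)
    linarith

/-- boundedness in a strip -/
lemma NN_bdd (ha : 0 < a) (hw : ∀ j, 0 < w j) (hρ : 0 < ρ) (hρ1 : ρ ≤ 1)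
    (h0 : ∀ z : ℂ, z ≠ 0 → ‖z‖ ≤ ρ → ‖Kt a w b z‖ ≤ C₀) {θ : ℝ} (hθ : 0 ≤ θ)
    (hθ1 : θ < Real.pi / 2) {σa σb : ℝ} (hσa : 0 < σa) (hab : σa ≤ σb) :
    ∃ B : ℝ, ∀ s : ℂ, σa < s.re → s.re < σb → ‖NN a w b θ s‖ ≤ B := by
  obtain ⟨C, c, hC, hc, hsec⟩ := sector ha hw hρ hρ1 h0 hθ hθ1
  obtain ⟨G₁, hG₁, h1⟩ := gf_lint (σ := σa) (c := c) hσa hc
  obtain ⟨G₂, hG₂, h2⟩ := gf_lint (σ := σb) (c := c) (hσa.trans_le hab) hc
  refine ⟨C * (G₁ + G₂), fun s hs1 hs2 => ?_⟩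
  have hs0 : 0 < s.re := hσa.trans hs1
  have hs : s = (s.re : ℂ) + (s.im : ℂ) * I := (Complex.re_add_im s).symm
  rw [hs, NN_eq ha hw hρ hρ1 h0 hθ hθ1 hs0]
  have h3 : ‖𝓕 (kth a w b s.re θ) ((2 * Real.pi)⁻¹ * s.im)‖ₑ ≤ ENNReal.ofReal (C * (G₁ + G₂)) := by
    refine (enorm_four_le _ _).trans ?_
    calc ∫⁻ u, ‖kth a w b s.re θ u‖ₑ ≤ ∫⁻ u, ENNReal.ofReal C *
          (ENNReal.ofReal (gf σa c u) + ENNReal.ofReal (gf σb c u)) := by
          refine lintegral_mono fun u => ?_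
          have g1 := gf_pos σa c u
          have g2 := gf_pos σb c u
          simp only
          rw [← ENNReal.ofReal_add g1.le g2.le, ← ENNReal.ofReal_mul hC, ← ofReal_norm]
          apply ENNReal.ofReal_le_ofReal
          unfold kth
          rw [norm_smul, Real.norm_of_nonneg (Real.exp_pos _).le]
          have h4 := hsec u θ hθ le_rfl
          calc Real.exp (-s.re * u) * ‖Kt a w b (cexp (-(u : ℂ) + θ * I))‖
              ≤ Real.exp (-s.re * u) * (C * Real.exp (-c * Real.exp (-u))) := by gcongr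
            _ = C * gf s.re c u := by unfold gf; ring
            _ ≤ _ := by
              gcongr
              exact gf_le_add hs1.le hs2.le u
      _ = _ := by
          rw [lintegral_const_mul' _ _ ENNReal.ofReal_ne_top,
            lintegral_add_left (gf_cont _ _).measurable.ennreal_ofReal, h1, h2,
            ← ENNReal.ofReal_add hG₁ hG₂, ← ENNReal.ofReal_mul hC]
  rw [← ofReal_norm, ENNReal.ofReal_le_ofReal_iff (by positivity)] at h3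
  exact h3

/-- the bound on the line of absolute convergence -/
theorem NN_right (ha : 0 < a) (hw : ∀ j, 0 < w j) (hc : Tay a w c) (hρ : 0 < ρ) (hρ1 : ρ ≤ 1)
    (h0 : ∀ z : ℂ, z ≠ 0 → ‖z‖ ≤ ρ → ‖Kt a w b z‖ ≤ C₀) (hσ : (r : ℝ) < σ) (hσ2 : 1 / 2 < σ) :
    ∃ C : ℝ, 0 ≤ C ∧ ∀ (n : ℕ) (t : ℝ),
      ‖NN a w b (Real.pi / 2 - (1 / 2 : ℝ) ^ n) ((σ : ℂ) + (t : ℂ) * I)‖ ≤
        C * ((2 : ℝ) ^ n) ^ (σ - 1 / 2) := by
  have hσ0 : 0 < σ := by linarith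
  obtain ⟨M, hM0, hMel⟩ := Mel_bdd ha hw hρ hρ1 h0 hσ0
  obtain ⟨C₂, hC₂, hG⟩ := Gamma_upper_all σ
  set K : ℝ := ∑' m : Fin r → ℕ, (lam a w m) ^ (-σ) with hK
  have hK0 : 0 ≤ K := tsum_nonneg fun m => Real.rpow_nonneg (lam_pos ha hw m).le _
  set B := ∑ k ∈ range r, ‖b k‖ with hB
  have hB0 : 0 ≤ B := by positivity
  set A : ℝ := σ - 1 / 2 with hA
  have hA0 : 0 < A := by rw [hA]; linarith
  refine ⟨Real.exp (Real.pi / 2) * M + C₂ * (K + B) * (2 * A) ^ A, by positivity, fun n t => ?_⟩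
  set η : ℝ := (1 / 2 : ℝ) ^ n with hη
  have hη0 : 0 < η := by positivity
  obtain ⟨hθ0, hθ1⟩ := theta_bds n
  rw [← hη] at hθ0 hθ1
  rw [NN_eq ha hw hρ hρ1 h0 hθ0 hθ1 hσ0, four_Mel ha hw hρ hρ1 h0 hθ0 hθ1 hσ0]
  have hT1 : (1 : ℝ) ≤ ((2 : ℝ) ^ n) ^ A := Real.one_le_rpow (one_le_pow₀ (by norm_num)) hA0.le
  have hpos2 : 0 ≤ C₂ * (K + B) * (2 * A) ^ A := by positivity
  rcases le_total t 1 with ht | ht
  · have h1 : Real.exp ((Real.pi / 2 - η) * t) ≤ Real.exp (Real.pi / 2) := by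
      apply Real.exp_le_exp.2
      nlinarith
    calc Real.exp ((Real.pi / 2 - η) * t) * ‖Mel a w b σ t‖ ≤ Real.exp (Real.pi / 2) * M := by
          gcongr
          exact hMel t
      _ ≤ (Real.exp (Real.pi / 2) * M) * ((2 : ℝ) ^ n) ^ A :=
          le_mul_of_one_le_right (by positivity) hT1
      _ ≤ _ := by
          gcongr
          linarith
  · have ht0 : 0 < t := by linarith
    have h2 := FF_formula ha hw hc hρ hρ1 h0 (s := (σ : ℂ) + t * I) (by simpa using hσ0)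
      (by simp; linarith)
    have h3 : Gamma ((σ : ℂ) + t * I) ≠ 0 :=
      Complex.Gamma_ne_zero_of_re_pos (by simpa using hσ0)
    have h4 : Mel a w b σ t = Gamma ((σ : ℂ) + t * I) *
        (FF a w c ((σ : ℂ) + t * I) - Rt r b ((σ : ℂ) + t * I)) := by
      rw [h2]
      unfold Mel
      field_simp
      ring
    have h5 := Rt_le (r := r) b (s := (σ : ℂ) + t * I) (by simpa using ht)
    have h6 := hG t ht
    have h7 := FF_line ha hw hc hσ t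
    have h8 : ‖FF a w c ((σ : ℂ) + t * I) - Rt r b ((σ : ℂ) + t * I)‖ ≤ K + B :=
      (norm_sub_le _ _).trans (add_le_add h7 h5)
    have h9 := elem2 (A := A) (b := η) hA0 hη0 (X := t) ht0.le
    have e1 := half_rpow n A
    rw [← hη] at e1
    rw [e1] at h9
    have e2 : Real.exp ((Real.pi / 2 - η) * t) * Real.exp (-(Real.pi / 2 * t)) =
        Real.exp (-η * t) := by
      rw [← Real.exp_add]
      congr 1
      ring
    rw [h4, norm_mul]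
    calc Real.exp ((Real.pi / 2 - η) * t) * (‖Gamma ((σ : ℂ) + t * I)‖ *
          ‖FF a w c ((σ : ℂ) + t * I) - Rt r b ((σ : ℂ) + t * I)‖) ≤
        Real.exp ((Real.pi / 2 - η) * t) * ((C₂ * t ^ A * Real.exp (-(Real.pi / 2 * t))) *
          (K + B)) := by gcongr
      _ = C₂ * (K + B) * (t ^ A * (Real.exp ((Real.pi / 2 - η) * t) *
          Real.exp (-(Real.pi / 2 * t)))) := by ring
      _ = C₂ * (K + B) * (t ^ A * Real.exp (-η * t)) := by rw [e2]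
      _ ≤ C₂ * (K + B) * ((2 * A) ^ A * ((2 : ℝ) ^ n) ^ A) := by gcongr
      _ = (C₂ * (K + B) * (2 * A) ^ A) * ((2 : ℝ) ^ n) ^ A := by ring
      _ ≤ _ := by
          gcongr
          have : 0 ≤ Real.exp (Real.pi / 2) * M := by positivity
          linarith

/-- a crude bound on every line -/
theorem NN_crude (ha : 0 < a) (hw : ∀ j, 0 < w j) (hρ : 0 < ρ) (hρ1 : ρ ≤ 1)
    (h0 : ∀ z : ℂ, z ≠ 0 → ‖z‖ ≤ ρ → ‖Kt a w b z‖ ≤ C₀) (hσ : 1 / 2 ≤ σ) (hy : 0 < y₀)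
    (hy1 : y₀ ≤ 1) (hyw : ∀ j, w j * (2 * Real.pi * y₀ / Real.cos 1) ≤ 1 / 2) :
    ∃ C B : ℝ, 0 ≤ C ∧ σ ≤ B ∧ ∀ (n : ℕ) (t : ℝ),
      ‖NN a w b (Real.pi / 2 - (1 / 2 : ℝ) ^ n) ((σ : ℂ) + (t : ℂ) * I)‖ ≤
        C * ((2 : ℝ) ^ n) ^ B := by
  have hσ0 : 0 < σ := by linarith
  obtain ⟨C₁, hC₁, hrem⟩ := rem_lint (σ := σ) ha hw hρ h0 hσ (ε := 1 / 2) (by norm_num)
    le_rfl hy hy1 hyw
  have hc1 := Real.cos_one_pos
  have hpi := Real.pi_pos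
  obtain ⟨δ, hδd⟩ : ∃ δ : ℝ, δ = min 1 (3 * (exists_low hw).choose * y₀) := ⟨_, rfl⟩
  have hδ : 0 < δ := by
    rw [hδd]
    have := (exists_low hw).choose_spec.1
    exact lt_min one_pos (by positivity)
  obtain ⟨C₂, hC₂, hpoly⟩ := poly_le 1 one_pos
  set K : ℝ := (4 * Real.pi / Real.cos 1) ^ σ * (4 / δ) ^ r with hK
  have hK0 : 0 ≤ K := by positivity
  refine ⟨2 * C₂ * K + C₁, 2 * σ + r + 1, by positivity, by
    have : (0 : ℝ) ≤ r := Nat.cast_nonneg r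
    linarith, fun n t => ?_⟩
  set T : ℝ := (2 : ℝ) ^ n with hT
  have hT1 : 1 ≤ T := one_le_pow₀ (by norm_num)
  have hT0 : 0 < T := by positivity
  obtain ⟨hθ0, hθ1⟩ := theta_bds n
  rw [NN_eq ha hw hρ hρ1 h0 hθ0 hθ1 hσ0]
  have hki : ∀ j, Integrable (kb a w σ ((1 / 2 : ℝ) ^ n) (y₀ * 2 ^ j)) := fun j =>
    (kb_int' ha hw hσ0 hy n j).1
  have hRi : Integrable (rem a w b σ y₀ n) := rem_int ha hw hρ hρ1 h0 hσ0 hy n
  have h1 := four_dec (Finset.range (2 * n + 1)) (fun j _ => hki j) hRi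
    (rem_spec a w b σ y₀ n) ((2 * Real.pi)⁻¹ * t)
  have h2 : ∀ j ∈ Finset.range (2 * n + 1),
      ‖𝓕 (kb a w σ ((1 / 2 : ℝ) ^ n) (y₀ * 2 ^ j)) ((2 * Real.pi)⁻¹ * t)‖ₑ ≤
      ENNReal.ofReal (K * T ^ (2 * σ + r)) := by
    intro j hj
    have hj' : j ≤ 2 * n := Nat.lt_succ_iff.1 (Finset.mem_range.1 hj)
    obtain ⟨-, δ', hδ', h3⟩ := kb_int' ha hw hσ0 hy n j
    rw [← hδd] at hδ'
    subst hδ'
    refine (enorm_four_le _ _).trans (h3.trans (ENNReal.ofReal_le_ofReal ?_))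
    have hM : 0 < y₀ * 2 ^ j := by positivity
    have hMT : y₀ * 2 ^ j ≤ T ^ 2 := by
      have h4 : (2 : ℝ) ^ j ≤ T ^ 2 := by
        rw [hT, ← pow_mul, mul_comm n 2]
        exact pow_le_pow_right₀ (by norm_num) hj'
      have h5 : (0 : ℝ) < 2 ^ j := by positivity
      nlinarith
    have h4 : Real.exp (-(3 * a * (y₀ * 2 ^ j) * (1 / 2 : ℝ) ^ n)) ≤ 1 := by
      rw [Real.exp_le_one_iff]
      have : 0 ≤ 3 * a * (y₀ * 2 ^ j) * (1 / 2 : ℝ) ^ n := by positivity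
      linarith
    have h5 : (y₀ * 2 ^ j) ^ σ ≤ (T ^ 2) ^ σ := Real.rpow_le_rpow hM.le hMT hσ0.le
    have h6 : (T ^ 2) ^ σ = T ^ (2 * σ) := by
      rw [← Real.rpow_natCast T 2, ← Real.rpow_mul hT0.le]
      norm_num
    have h7 : T ^ (2 * σ + r) = T ^ (2 * σ) * T ^ r := by
      rw [Real.rpow_add hT0, Real.rpow_natCast]
    unfold Hc
    rw [h7, ← h6]
    calc (4 * Real.pi / Real.cos 1) ^ σ * (4 / δ') ^ r * (y₀ * 2 ^ j) ^ σ *
          Real.exp (-(3 * a * (y₀ * 2 ^ j) * (1 / 2) ^ n)) * T ^ r ≤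
        K * (T ^ 2) ^ σ * 1 * T ^ r := by
          rw [hK]
          gcongr
      _ = _ := by ring
  have h3 : ‖𝓕 (kth a w b σ (Real.pi / 2 - (1 / 2 : ℝ) ^ n)) ((2 * Real.pi)⁻¹ * t)‖ₑ ≤
      ENNReal.ofReal ((2 * C₂ * K + C₁) * T ^ (2 * σ + r + 1)) := by
    calc _ ≤ _ := h1
      _ ≤ ∑ _j ∈ Finset.range (2 * n + 1), ENNReal.ofReal (K * T ^ (2 * σ + r)) +
          ENNReal.ofReal (C₁ * T ^ (σ - 1 / 2 + 1 / 2)) :=
          add_le_add (Finset.sum_le_sum h2) (hrem n)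
      _ = ENNReal.ofReal (((2 * n + 1 : ℕ) : ℝ) * (K * T ^ (2 * σ + r)) +
          C₁ * T ^ (σ - 1 / 2 + 1 / 2)) := by
          rw [Finset.sum_const, Finset.card_range, nsmul_eq_mul, ← ENNReal.ofReal_natCast,
            ← ENNReal.ofReal_mul (by positivity), ← ENNReal.ofReal_add (by positivity)
            (by positivity)]
      _ ≤ _ := by
          apply ENNReal.ofReal_le_ofReal
          have h4 := hpoly n
          rw [pow_one, Real.rpow_one] at h4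
          have h5 : ((2 * n + 1 : ℕ) : ℝ) ≤ 2 * (C₂ * T) := by
            push_cast
            linarith
          have h6 : T ^ (2 * σ + r + 1) = T * T ^ (2 * σ + r) := by
            rw [Real.rpow_add hT0, Real.rpow_one]
            ring
          have h7 : T ^ (σ - 1 / 2 + 1 / 2) ≤ T ^ (2 * σ + r + 1) :=
            Real.rpow_le_rpow_of_exponent_le hT1 (by
              have : (0 : ℝ) ≤ r := Nat.cast_nonneg r
              linarith)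
          calc ((2 * n + 1 : ℕ) : ℝ) * (K * T ^ (2 * σ + r)) + C₁ * T ^ (σ - 1 / 2 + 1 / 2) ≤
              (2 * (C₂ * T)) * (K * T ^ (2 * σ + r)) + C₁ * T ^ (2 * σ + r + 1) := by gcongr
            _ = _ := by rw [h6]; ring
  rw [← ofReal_norm, ENNReal.ofReal_le_ofReal_iff (by positivity)] at h3
  exact h3

/-- from the rotated Mellin transform to the zeta function -/
theorem FF_le_NN (ha : 0 < a) (hw : ∀ j, 0 < w j) (hc : Tay a w c) (hρ : 0 < ρ) (hρ1 : ρ ≤ 1)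
    (h0 : ∀ z : ℂ, z ≠ 0 → ‖z‖ ≤ ρ → ‖Kt a w b z‖ ≤ C₀) (hσ : 1 / 2 ≤ σ) :
    ∃ C : ℝ, 0 ≤ C ∧ ∀ (n : ℕ), ∀ t ∈ Set.Icc ((2 : ℝ) ^ n) (2 * 2 ^ n),
      ‖FF a w c ((σ : ℂ) + (t : ℂ) * I)‖ ≤ C * (((2 : ℝ) ^ n) ^ (1 / 2 - σ) *
        ‖NN a w b (Real.pi / 2 - (1 / 2 : ℝ) ^ n) ((σ : ℂ) + (t : ℂ) * I)‖ + 1) := by
  have hσ0 : 0 < σ := by linarith
  obtain ⟨g, hg, hG⟩ := Gamma_lower_line hσ0
  set B := ∑ k ∈ range r, ‖b k‖ with hB
  have hB0 : 0 ≤ B := by positivity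
  refine ⟨g⁻¹ * Real.exp 2 + B, by positivity, fun n t ht => ?_⟩
  set T : ℝ := (2 : ℝ) ^ n with hT
  have hT1 : 1 ≤ T := one_le_pow₀ (by norm_num)
  have hT0 : 0 < T := by positivity
  have ht1 : 1 ≤ t := hT1.trans ht.1
  have ht0 : 0 < t := by linarith
  set η : ℝ := (1 / 2 : ℝ) ^ n with hη
  have hηT : η * T = 1 := by
    rw [hη, hT, ← mul_pow]
    norm_num
  have hη0 : 0 < η := by positivity
  obtain ⟨hθ0, hθ1⟩ := theta_bds n
  rw [← hη] at hθ0 hθ1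
  have h2 := FF_formula ha hw hc hρ hρ1 h0 (s := (σ : ℂ) + t * I) (by simpa using hσ0)
    (by simp; linarith)
  have h5 := Rt_le (r := r) b (s := (σ : ℂ) + t * I) (by simpa using ht1)
  have h1 := hG t ht1
  have h8 : 0 < g * t ^ (σ - 1 / 2) * Real.exp (-(Real.pi / 2 * t)) := by positivity
  have h9 : ‖Gamma ((σ : ℂ) + t * I)‖⁻¹ ≤
      (g * t ^ (σ - 1 / 2) * Real.exp (-(Real.pi / 2 * t)))⁻¹ := inv_anti₀ h8 h1
  have h10 : (g * t ^ (σ - 1 / 2) * Real.exp (-(Real.pi / 2 * t)))⁻¹ =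
      g⁻¹ * t ^ (1 / 2 - σ) * Real.exp (Real.pi / 2 * t) := by
    rw [mul_inv, mul_inv, Real.exp_neg, inv_inv, ← Real.rpow_neg ht0.le]
    congr 3
    ring
  have h11 : t ^ (1 / 2 - σ) ≤ T ^ (1 / 2 - σ) :=
    Real.rpow_le_rpow_of_nonpos hT0 ht.1 (by linarith)
  have hN : NN a w b (Real.pi / 2 - η) ((σ : ℂ) + (t : ℂ) * I) =
      cexp (-(((σ : ℂ) + (t : ℂ) * I) * (((Real.pi / 2 - η : ℝ) : ℂ) * I))) *
        mellin (fun x : ℝ => Kt a w b x) ((σ : ℂ) + (t : ℂ) * I) := rfl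
  have hnE : ‖cexp (-(((σ : ℂ) + (t : ℂ) * I) * (((Real.pi / 2 - η : ℝ) : ℂ) * I)))‖ =
      Real.exp ((Real.pi / 2 - η) * t) := by
    rw [Complex.norm_exp]
    congr 1
    have : -(((σ : ℂ) + (t : ℂ) * I) * (((Real.pi / 2 - η : ℝ) : ℂ) * I)) =
        (((Real.pi / 2 - η) * t : ℝ) : ℂ) + ((-(σ * (Real.pi / 2 - η)) : ℝ) : ℂ) * I := by
      push_cast
      linear_combination (-(t : ℂ) * (Real.pi / 2 - η)) * Complex.I_sq
    rw [this, Complex.add_re, Complex.ofReal_re, Complex.re_ofReal_mul, Complex.I_re, mul_zero,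
      add_zero]
  have hmel : ‖mellin (fun x : ℝ => Kt a w b x) ((σ : ℂ) + (t : ℂ) * I)‖ =
      Real.exp (-((Real.pi / 2 - η) * t)) *
        ‖NN a w b (Real.pi / 2 - η) ((σ : ℂ) + (t : ℂ) * I)‖ := by
    rw [hN, norm_mul, hnE, ← mul_assoc, ← Real.exp_add]
    have : -((Real.pi / 2 - η) * t) + (Real.pi / 2 - η) * t = 0 := by ring
    rw [this, Real.exp_zero, one_mul]
  set X := ‖NN a w b (Real.pi / 2 - η) ((σ : ℂ) + (t : ℂ) * I)‖ with hX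
  have hX0 : 0 ≤ X := norm_nonneg _
  have h12 : Real.exp (Real.pi / 2 * t) * Real.exp (-((Real.pi / 2 - η) * t)) ≤ Real.exp 2 := by
    rw [← Real.exp_add, Real.exp_le_exp]
    have h13 : Real.pi / 2 * t + -((Real.pi / 2 - η) * t) = η * t := by ring
    rw [h13]
    calc η * t ≤ η * (2 * T) := by gcongr; exact ht.2
      _ = 2 := by linarith
  rw [h2]
  calc ‖(Gamma ((σ : ℂ) + t * I))⁻¹ * mellin (fun t : ℝ => Kt a w b t) ((σ : ℂ) + t * I) +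
        Rt r b ((σ : ℂ) + t * I)‖ ≤ ‖Gamma ((σ : ℂ) + t * I)‖⁻¹ *
        (Real.exp (-((Real.pi / 2 - η) * t)) * X) + B := by
        refine (norm_add_le _ _).trans (add_le_add ?_ h5)
        rw [norm_mul, norm_inv, hmel]
    _ ≤ (g⁻¹ * t ^ (1 / 2 - σ) * Real.exp (Real.pi / 2 * t)) *
        (Real.exp (-((Real.pi / 2 - η) * t)) * X) + B := by
        rw [← h10]
        gcongr
    _ = g⁻¹ * t ^ (1 / 2 - σ) * (Real.exp (Real.pi / 2 * t) *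
        Real.exp (-((Real.pi / 2 - η) * t))) * X + B := by ring
    _ ≤ g⁻¹ * T ^ (1 / 2 - σ) * Real.exp 2 * X + B := by gcongr
    _ ≤ _ := by
        have h14 : 0 ≤ T ^ (1 / 2 - σ) * X := by positivity
        have h15 : 0 ≤ g⁻¹ * Real.exp 2 := by positivity
        nlinarith

end

end Pool.Agent.T6.H79.BZ4
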