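import Pool.Agent.T6.H79.BZ4.Block2

set_option autoImplicit false

/-!
# Barnes zeta functions, fourth moment, part 11: the remainder of the decomposition into blocks
-/

namespace Pool.Agent.T6.H79.BZ4

open Finset Filter Topology MeasureTheory Complex FourierTransform
open Pool.Agent.H131R5.BZ Pool.Agent.Y930.Bz Pool.Agent.Y616.BM Pool.Agent.T6.H60.BC
open Pool.Agent.T6.H60.BD

/-- the polar part, with one more power -/
lemma Pol_le' (r : ℕ) (b : ℕ → ℂ) {ρ : ℝ} (hρ : 0 < ρ) : ∃ C : ℝ, 0 ≤ C ∧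
    ∀ z : ℂ, ρ ≤ ‖z‖ → ‖Pol r b z‖ ≤ C * ‖z‖⁻¹ * Real.exp (-z.re) := by
  refine ⟨∑ k ∈ range r, ‖b k‖ * (ρ ^ (r - k - 1))⁻¹, by positivity, fun z hz => ?_⟩
  unfold Pol
  rw [norm_mul, Complex.norm_exp, neg_re, mul_comm]
  refine mul_le_mul_of_nonneg_right ?_ (Real.exp_pos _).le
  rw [Finset.sum_mul]
  refine (norm_sum_le _ _).trans (Finset.sum_le_sum fun k hk => ?_)
  have hk' : k < r := Finset.mem_range.1 hk
  rw [norm_mul, norm_inv, norm_pow]
  have h1 : ‖z‖ ^ (r - k) = ‖z‖ ^ (r - k - 1) * ‖z‖ := by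
    rw [← pow_succ]
    congr 1
    omega
  rw [h1, mul_inv, ← mul_assoc]
  gcongr

lemma one_sub_exp_ge {ζ : ℂ} (h : ‖ζ‖ ≤ 1 / 2) : ‖ζ‖ / 2 ≤ ‖1 - cexp (-ζ)‖ := by
  have h1 := Complex.norm_exp_sub_one_sub_id_le (x := -ζ) (by rw [norm_neg]; linarith)
  rw [norm_neg] at h1
  have h2 : ‖ζ‖ ≤ ‖1 - cexp (-ζ)‖ + ‖cexp (-ζ) - 1 - -ζ‖ := by
    calc ‖ζ‖ = ‖(1 - cexp (-ζ)) + (cexp (-ζ) - 1 - -ζ)‖ := by congr 1; ring
      _ ≤ _ := norm_add_le _ _
  have h3 := norm_nonneg ζ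
  nlinarith

/-- the regularised kernel near the origin -/
lemma Kt_near {r : ℕ} {a : ℝ} (ha : 0 < a) {w : Fin r → ℝ} (hw : ∀ j, 0 < w j) {b : ℕ → ℂ}
    {ρ C₀ : ℝ} (hρ : 0 < ρ) (h0 : ∀ z : ℂ, z ≠ 0 → ‖z‖ ≤ ρ → ‖Kt a w b z‖ ≤ C₀) {R : ℝ}
    (hR : ∀ j, w j * R ≤ 1 / 2) : ∃ C : ℝ, 0 ≤ C ∧ ∀ z : ℂ, 0 < z.re → ‖z‖ ≤ R →
      ‖Kt a w b z‖ ≤ C := by
  obtain ⟨m₀, hm0, hm1, hm⟩ := exists_low hw
  obtain ⟨C₂, hC₂, hP⟩ := Pol_le r b hρ
  refine ⟨|C₀| + ((2 / (m₀ * ρ)) ^ r + C₂), by positivity, fun z hz hzR => ?_⟩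
  have hz0 : z ≠ 0 := by
    rintro rfl
    simp at hz
  rcases le_total ‖z‖ ρ with h | h
  · have h1 := h0 z hz0 h
    have h2 := le_abs_self C₀
    have h3 : 0 ≤ (2 / (m₀ * ρ)) ^ r + C₂ := by positivity
    linarith
  · have h1 := hP z h
    have h2 : Real.exp (-z.re) ≤ 1 := by rw [Real.exp_le_one_iff]; linarith
    have h3 : ‖KK a w z‖ ≤ (2 / (m₀ * ρ)) ^ r := by
      unfold KK
      rw [norm_mul, norm_prod, Complex.norm_exp]
      have h4 : (-(a : ℂ) * z).re = -(a * z.re) := by simp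
      have h5 : Real.exp (-(a * z.re)) ≤ 1 := by
        rw [Real.exp_le_one_iff]
        have : 0 < a * z.re := by positivity
        linarith
      rw [h4]
      have h6 : ∏ j, ‖(1 - cexp (-(w j : ℂ) * z))⁻¹‖ ≤ (2 / (m₀ * ρ)) ^ r := by
        calc ∏ j, ‖(1 - cexp (-(w j : ℂ) * z))⁻¹‖ ≤ ∏ _j : Fin r, (2 / (m₀ * ρ)) := by
              refine Finset.prod_le_prod (fun j _ => norm_nonneg _) fun j _ => ?_
              have h7 : ‖(w j : ℂ) * z‖ = w j * ‖z‖ := by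
                rw [norm_mul, Complex.norm_real, Real.norm_of_nonneg (hw j).le]
              have h8 : ‖(w j : ℂ) * z‖ ≤ 1 / 2 := by
                rw [h7]
                exact (mul_le_mul_of_nonneg_left hzR (hw j).le).trans (hR j)
              have h9 := one_sub_exp_ge h8
              have h10 : m₀ * ρ ≤ w j * ‖z‖ := mul_le_mul (hm j) h hρ.le (hw j).le
              rw [norm_inv]
              have h11 : m₀ * ρ / 2 ≤ ‖1 - cexp (-(w j : ℂ) * z)‖ := by
                rw [neg_mul]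
                rw [h7] at h9
                linarith
              calc ‖1 - cexp (-(w j : ℂ) * z)‖⁻¹ ≤ (m₀ * ρ / 2)⁻¹ :=
                    inv_anti₀ (by positivity) h11
                _ = _ := by rw [inv_div]
          _ = _ := by rw [Finset.prod_const, Finset.card_univ, Fintype.card_fin]
      calc Real.exp (-(a * z.re)) * ∏ j, ‖(1 - cexp (-(w j : ℂ) * z))⁻¹‖ ≤
          1 * (2 / (m₀ * ρ)) ^ r := by
            refine mul_le_mul h5 h6 (Finset.prod_nonneg fun j _ => norm_nonneg _) zero_le_one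
        _ = _ := one_mul _
    have h4 : ‖Kt a w b z‖ ≤ ‖KK a w z‖ + ‖Pol r b z‖ := norm_sub_le _ _
    have h5 := abs_nonneg C₀
    nlinarith

/-- the sum of the blocks -/
lemma sum_blocks (g : ℝ → ℂ) (η : ℝ) {y₀ : ℝ} (hy : 0 < y₀) (J : ℕ) (u : ℝ) :
    ∑ j ∈ Finset.range J, (SB η (y₀ * 2 ^ j)).indicator g u =
      {u : ℝ | y₀ ≤ hf η u ∧ hf η u < y₀ * 2 ^ J}.indicator g u := by
  induction J with
  | zero =>
    rw [Finset.range_zero, Finset.sum_empty, Set.indicator_of_notMem]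
    rintro ⟨h1, h2⟩
    rw [pow_zero, mul_one] at h2
    linarith
  | succ J ih =>
    rw [Finset.sum_range_succ, ih]
    have h2 : (1 : ℝ) ≤ 2 ^ J := one_le_pow₀ (by norm_num)
    have h3 : y₀ ≤ y₀ * 2 ^ J := by nlinarith
    have h4 : y₀ * 2 ^ (J + 1) = 2 * (y₀ * 2 ^ J) := by rw [pow_succ]; ring
    rw [h4]
    by_cases h5 : hf η u < y₀ * 2 ^ J
    · have h6 : u ∉ SB η (y₀ * 2 ^ J) := fun h => absurd h.1 (not_le.2 h5)
      rw [Set.indicator_of_notMem h6, add_zero]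
      by_cases h7 : y₀ ≤ hf η u
      · rw [Set.indicator_of_mem (show u ∈ {u : ℝ | y₀ ≤ hf η u ∧ hf η u < y₀ * 2 ^ J} from ⟨h7, h5⟩),
          Set.indicator_of_mem]
        exact ⟨h7, by linarith⟩
      · rw [Set.indicator_of_notMem (fun h => h7 h.1), Set.indicator_of_notMem (fun h => h7 h.1)]
    · have h6 : u ∉ {u : ℝ | y₀ ≤ hf η u ∧ hf η u < y₀ * 2 ^ J} := fun h => h5 h.2
      rw [Set.indicator_of_notMem h6, zero_add]
      push Not at h5
      by_cases h7 : hf η u < 2 * (y₀ * 2 ^ J)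
      · rw [Set.indicator_of_mem (show u ∈ SB η (y₀ * 2 ^ J) from ⟨h5, h7⟩), Set.indicator_of_mem]
        exact ⟨by linarith, h7⟩
      · rw [Set.indicator_of_notMem (fun h => h7 h.2), Set.indicator_of_notMem (fun h => h7 h.2)]

/-- the remainder -/
noncomputable def rem {r : ℕ} (a : ℝ) (w : Fin r → ℝ) (b : ℕ → ℂ) (σ y₀ : ℝ) (n : ℕ) (u : ℝ) : ℂ :=
  kth a w b σ (Real.pi / 2 - (1 / 2 : ℝ) ^ n) u -
    ∑ j ∈ Finset.range (2 * n + 1), kb a w σ ((1 / 2 : ℝ) ^ n) (y₀ * 2 ^ j) u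

lemma rem_le {r : ℕ} {a : ℝ} (ha : 0 < a) {w : Fin r → ℝ} (hw : ∀ j, 0 < w j) {b : ℕ → ℂ}
    {ρ C₀ : ℝ} (hρ : 0 < ρ) (h0 : ∀ z : ℂ, z ≠ 0 → ‖z‖ ≤ ρ → ‖Kt a w b z‖ ≤ C₀) {σ ε y₀ : ℝ}
    (hε : 0 ≤ ε) (hε1 : ε ≤ 1 / 2) (hy : 0 < y₀) (hy1 : y₀ ≤ 1)
    (hyw : ∀ j, w j * (2 * Real.pi * y₀ / Real.cos 1) ≤ 1 / 2) :
    ∃ C : ℝ, 0 ≤ C ∧ ∀ (n : ℕ) (u : ℝ), ‖rem a w b σ y₀ n u‖ ≤
      C * (gf σ 1 u + gf (σ - 1 / 2 + ε) (1 / 2 * (1 / 2 : ℝ) ^ n) u +
        gf (σ - 1 / 2 + ε) (a / 4 * (1 / 2 : ℝ) ^ n) u) := by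
  obtain ⟨m₀, hm0, hm1, hm⟩ := exists_low hw
  have hc1 := Real.cos_one_pos
  have hpi := Real.pi_gt_three
  set R : ℝ := 2 * Real.pi * y₀ / Real.cos 1 with hR
  obtain ⟨C₁, hC₁, hK⟩ := Kt_near ha hw hρ h0 hyw
  obtain ⟨C₂, hC₂, hP⟩ := Pol_le' r b hy
  set δ : ℝ := min 1 (3 * m₀ * y₀) with hδd
  have hδ : 0 < δ := lt_min one_pos (by positivity)
  have hδ1 : δ ≤ 1 := min_le_left _ _
  have hδ2 : δ ≤ 3 * m₀ * y₀ := min_le_right _ _
  set σ' : ℝ := σ - 1 / 2 + ε with hσ'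
  set Q₁ : ℝ := C₁ * Real.exp R with hQ₁
  set Q₂ : ℝ := C₂ * Real.exp (-(1 / 2 + ε) * Real.log y₀) with hQ₂
  set Q₃ : ℝ := (4 / δ) ^ r * (Real.exp (-ε * Real.log y₀) * (4 / (a * y₀))) with hQ₃
  refine ⟨Q₁ + Q₂ + Q₃, by positivity, fun n u => ?_⟩
  set η : ℝ := (1 / 2 : ℝ) ^ n with hη'
  have hη : 0 < η := by positivity
  have hη1 : η ≤ 1 := pow_le_one₀ (by norm_num) (by norm_num)
  have hcos := cos_pos_of hη.le hη1
  have hcosle : Real.cos η ≤ 1 := Real.cos_le_one _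
  set E := Real.exp (-u) with hE
  have hE0 : 0 < E := Real.exp_pos _
  set Y := hf η u with hY
  have hYE : 2 * Real.pi * Y = Real.cos η * E := by
    rw [hY]
    unfold hf
    field_simp
    rw [← hE]
  have hEY : 2 * Real.pi * Y ≤ E := by rw [hYE]; nlinarith
  have hsin := sin_ge hη.le hη1
  set z : ℂ := zr u η with hz
  have hz' : z = cexp (-(u : ℂ) + ((Real.pi / 2 - η : ℝ) : ℂ) * I) := rfl
  have hzn : ‖z‖ = E := by rw [hz']; exact exp_norm u _
  have hzr : z.re = E * Real.sin η := zr_re u η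
  have hx2 : E * (η / 2) ≤ z.re := by rw [hzr]; gcongr
  have hzr0 : 0 < z.re := lt_of_lt_of_le (by positivity) hx2
  have hkth : kth a w b σ (Real.pi / 2 - η) u = ((Real.exp (-σ * u) : ℝ) : ℂ) * Kt a w b z := by
    unfold kth
    rw [Complex.real_smul, hz']
  have hes : 0 < Real.exp (-σ * u) := Real.exp_pos _
  have g1 := gf_pos σ 1 u
  have g2 := gf_pos σ' (1 / 2 * η) u
  have g3 := gf_pos σ' (a / 4 * η) u
  -- the sum of the blocks
  have hsum : ∑ j ∈ Finset.range (2 * n + 1), kb a w σ η (y₀ * 2 ^ j) u =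
      {u : ℝ | y₀ ≤ hf η u ∧ hf η u < y₀ * 2 ^ (2 * n + 1)}.indicator
        (fun u => ((Real.exp (-σ * u) : ℝ) : ℂ) * KK a w (zr u η)) u := by
    unfold kb
    exact sum_blocks _ η hy _ u
  have hrem : rem a w b σ y₀ n u = kth a w b σ (Real.pi / 2 - η) u -
      {u : ℝ | y₀ ≤ hf η u ∧ hf η u < y₀ * 2 ^ (2 * n + 1)}.indicator
        (fun u => ((Real.exp (-σ * u) : ℝ) : ℂ) * KK a w (zr u η)) u := by
    unfold rem
    rw [← hη', hsum]
  rw [hrem]
  -- the polar part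
  have hpol : y₀ ≤ Y → ‖((Real.exp (-σ * u) : ℝ) : ℂ) * Pol r b z‖ ≤ Q₂ * gf σ' (1 / 2 * η) u := by
    intro hYy
    have hEy : y₀ ≤ E := by nlinarith
    have h1 := hP z (by rw [hzn]; exact hEy)
    rw [hzn] at h1
    rw [norm_mul, Complex.norm_real, Real.norm_of_nonneg hes.le]
    have hulog : Real.log y₀ ≤ -u := by
      rw [Real.log_le_iff_le_exp hy]
      exact hEy
    have h2 : Real.exp (-σ * u) * E⁻¹ ≤ Real.exp (-(1 / 2 + ε) * Real.log y₀) *
        Real.exp (-σ' * u) := by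
      rw [hE, ← Real.exp_neg, ← Real.exp_add, ← Real.exp_add]
      apply Real.exp_le_exp.2
      rw [hσ']
      have h3 : (1 / 2 + ε) * Real.log y₀ ≤ (1 / 2 + ε) * (-u) :=
        mul_le_mul_of_nonneg_left hulog (by linarith)
      nlinarith
    have h3 : Real.exp (-z.re) ≤ Real.exp (-(1 / 2 * η) * E) := by
      apply Real.exp_le_exp.2
      nlinarith
    calc Real.exp (-σ * u) * ‖Pol r b z‖ ≤ Real.exp (-σ * u) * (C₂ * E⁻¹ * Real.exp (-z.re)) := by
          gcongr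
      _ = C₂ * (Real.exp (-σ * u) * E⁻¹) * Real.exp (-z.re) := by ring
      _ ≤ C₂ * (Real.exp (-(1 / 2 + ε) * Real.log y₀) * Real.exp (-σ' * u)) *
          Real.exp (-(1 / 2 * η) * E) := by gcongr
      _ = _ := by rw [hQ₂]; unfold gf; ring
  rcases lt_or_ge Y y₀ with hA | hA
  · -- near the origin
    have hnm : u ∉ {u : ℝ | y₀ ≤ hf η u ∧ hf η u < y₀ * 2 ^ (2 * n + 1)} :=
      fun h => absurd h.1 (not_le.2 hA)
    rw [Set.indicator_of_notMem hnm, sub_zero, hkth, norm_mul, Complex.norm_real,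
      Real.norm_of_nonneg hes.le]
    have hER : E ≤ R := by
      rw [hR, le_div_iff₀ hc1]
      calc E * Real.cos 1 ≤ E * Real.cos η := by gcongr; exact hcos.2
        _ = 2 * Real.pi * Y := by rw [hYE]; ring
        _ ≤ _ := by gcongr
    have h1 := hK z hzr0 (by rw [hzn]; exact hER)
    have h2 : Real.exp (-σ * u) ≤ Real.exp R * gf σ 1 u := by
      unfold gf
      rw [← Real.exp_add, ← Real.exp_add]
      apply Real.exp_le_exp.2
      rw [← hE]
      linarith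
    calc Real.exp (-σ * u) * ‖Kt a w b z‖ ≤ (Real.exp R * gf σ 1 u) * C₁ := by gcongr
      _ = Q₁ * gf σ 1 u := by rw [hQ₁]; ring
      _ ≤ _ := by
        have t1 : 0 ≤ Q₁ := by positivity
        have t2 : 0 ≤ Q₂ := by positivity
        have t3 : 0 ≤ Q₃ := by positivity
        have t4 : Q₁ * gf σ 1 u ≤ (Q₁ + Q₂ + Q₃) * gf σ 1 u := by gcongr; linarith
        have t5 : 0 ≤ (Q₁ + Q₂ + Q₃) * (gf σ' (1 / 2 * η) u + gf σ' (a / 4 * η) u) := by positivity
        nlinarith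
  · have hpolA := hpol hA
    rcases lt_or_ge Y (y₀ * 2 ^ (2 * n + 1)) with hB | hB
    · -- the blocks
      have hm' : u ∈ {u : ℝ | y₀ ≤ hf η u ∧ hf η u < y₀ * 2 ^ (2 * n + 1)} := ⟨hA, hB⟩
      rw [Set.indicator_of_mem hm', hkth]
      have e1 : ((Real.exp (-σ * u) : ℝ) : ℂ) * Kt a w b z -
          ((Real.exp (-σ * u) : ℝ) : ℂ) * KK a w (zr u η) =
          -(((Real.exp (-σ * u) : ℝ) : ℂ) * Pol r b z) := by
        unfold Kt
        rw [← hz]
        ring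
      rw [e1, norm_neg]
      refine hpolA.trans ?_
      have t1 : 0 ≤ Q₁ := by positivity
      have t2 : 0 ≤ Q₂ := by positivity
      have t3 : 0 ≤ Q₃ := by positivity
      have t4 : Q₂ * gf σ' (1 / 2 * η) u ≤ (Q₁ + Q₂ + Q₃) * gf σ' (1 / 2 * η) u := by
        gcongr
        linarith
      have t5 : 0 ≤ (Q₁ + Q₂ + Q₃) * (gf σ 1 u + gf σ' (a / 4 * η) u) := by positivity
      nlinarith
    · -- the tail
      have hnm : u ∉ {u : ℝ | y₀ ≤ hf η u ∧ hf η u < y₀ * 2 ^ (2 * n + 1)} :=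
        fun h => absurd h.2 (not_lt.2 hB)
      rw [Set.indicator_of_notMem hnm, sub_zero, hkth]
      have e1 : ((Real.exp (-σ * u) : ℝ) : ℂ) * Kt a w b z =
          ((Real.exp (-σ * u) : ℝ) : ℂ) * KK a w z -
            ((Real.exp (-σ * u) : ℝ) : ℂ) * Pol r b z := by
        unfold Kt
        ring
      rw [e1]
      refine (norm_sub_le _ _).trans ?_
      have hKK : ‖((Real.exp (-σ * u) : ℝ) : ℂ) * KK a w z‖ ≤ Q₃ * gf σ' (a / 4 * η) u := by
        rw [norm_mul, Complex.norm_real, Real.norm_of_nonneg hes.le]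
        have hx : 0 < E * Real.sin η := by rw [← hzr]; exact hzr0
        have hη2 : η ^ 2 * 2 ^ (2 * n + 1) = 2 := by
          rw [hη', ← pow_mul, mul_comm n 2, pow_succ, ← mul_assoc, ← mul_pow]
          norm_num
        have hY2 : 2 * y₀ ≤ η ^ 2 * Y := by
          calc 2 * y₀ = η ^ 2 * (y₀ * 2 ^ (2 * n + 1)) := by
                rw [mul_comm y₀, ← mul_assoc, hη2]
            _ ≤ η ^ 2 * Y := by gcongr
        have hηY : 2 * y₀ ≤ η * Y := by
          have hY0 : 0 ≤ Y := hy.le.trans hA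
          have : η ^ 2 * Y ≤ η * Y := by
            rw [sq, mul_assoc]
            have := mul_nonneg hη.le hY0
            nlinarith
          linarith
        have hδx : ∀ i, δ * (1 / 2 : ℝ) ^ 0 ≤ w i * (E * Real.sin η) := by
          intro i
          have hwi := hm i
          have hwi0 := (hw i).le
          have h3 : 3 * y₀ ≤ E * Real.sin η := by
            calc 3 * y₀ ≤ Real.pi * (η * Y) := by nlinarith
              _ = (2 * Real.pi * Y) * (η / 2) := by ring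
              _ ≤ E * Real.sin η := by gcongr
          calc δ * (1 / 2 : ℝ) ^ 0 = δ := by simp
            _ ≤ 3 * m₀ * y₀ := hδ2
            _ = m₀ * (3 * y₀) := by ring
            _ ≤ _ := by gcongr
        have h1 := KK_QQ (a := a) hw (Y := Y) (L := 0) hx hδ hδ1 hδx
        have h2 := QQ_le w 0 Y
        rw [pow_zero, one_pow] at h2
        have h3 : ‖KK a w z‖ ≤ Real.exp (-a * z.re) * (4 / δ) ^ r := by
          have e2 : z = ((E * Real.sin η : ℝ) : ℂ) + ((2 * Real.pi * Y : ℝ) : ℂ) * I := by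
            rw [hz, zr_hf]
          rw [← e2, ← hzr] at h1
          refine h1.trans ?_
          gcongr
          calc (4 / δ) ^ r * QQ w 0 Y ≤ (4 / δ) ^ r * 1 := by gcongr
            _ = _ := mul_one _
        have hEy : y₀ ≤ E := by nlinarith
        have hulog : Real.log y₀ ≤ -u := by
          rw [Real.log_le_iff_le_exp hy]
          exact hEy
        have h4 : Real.exp (-u / 2) ≤ η * E / y₀ := by
          have h5 : Real.exp (-u / 2) ^ 2 = E := by
            rw [← Real.exp_nat_mul, hE]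
            congr 1
            push_cast
            ring
          have h6 : E ≤ (η * E / y₀) ^ 2 := by
            rw [div_pow, le_div_iff₀ (by positivity)]
            have h7 : y₀ ≤ η ^ 2 * E := by
              have : η ^ 2 * Y ≤ η ^ 2 * E := by
                gcongr
                have hY0 : 0 ≤ Y := hy.le.trans hA
                nlinarith
              linarith
            have h8 : y₀ ^ 2 ≤ y₀ := by nlinarith
            calc E * y₀ ^ 2 ≤ E * (η ^ 2 * E) := by gcongr; linarith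
              _ = _ := by ring
          have h9 : Real.exp (-u / 2) ^ 2 ≤ (η * E / y₀) ^ 2 := by
            rw [h5]
            exact h6
          exact (abs_le_of_sq_le_sq' h9 (by positivity)).2
        have h5 : η * E / y₀ ≤ 4 / (a * y₀) * Real.exp (a / 4 * η * E) := by
          have h6 := Real.add_one_le_exp (a / 4 * η * E)
          have h7 : η * E / y₀ = 4 / (a * y₀) * (a / 4 * η * E) := by field_simp
          rw [h7]
          gcongr
          linarith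
        have h6 : Real.exp (-σ * u) ≤ Real.exp (-ε * Real.log y₀) *
            (Real.exp (-σ' * u) * Real.exp (-u / 2)) := by
          rw [← Real.exp_add, ← Real.exp_add]
          apply Real.exp_le_exp.2
          rw [hσ']
          have h3 : ε * Real.log y₀ ≤ ε * (-u) := mul_le_mul_of_nonneg_left hulog hε
          nlinarith
        have h7 : Real.exp (-a * z.re) ≤ Real.exp (-(a / 2) * (η * E)) := by
          apply Real.exp_le_exp.2
          nlinarith
        have h8 : Real.exp (a / 4 * η * E) * Real.exp (-(a / 2) * (η * E)) =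
            Real.exp (-(a / 4 * η) * E) := by
          rw [← Real.exp_add]
          congr 1
          ring
        calc Real.exp (-σ * u) * ‖KK a w z‖ ≤
            (Real.exp (-ε * Real.log y₀) * (Real.exp (-σ' * u) *
              (4 / (a * y₀) * Real.exp (a / 4 * η * E)))) *
              (Real.exp (-(a / 2) * (η * E)) * (4 / δ) ^ r) := by
              refine mul_le_mul (h6.trans ?_) (h3.trans ?_) (norm_nonneg _) (by positivity)
              · gcongr
                exact h4.trans h5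
              · gcongr
          _ = (4 / δ) ^ r * (Real.exp (-ε * Real.log y₀) * (4 / (a * y₀))) *
              ((Real.exp (a / 4 * η * E) * Real.exp (-(a / 2) * (η * E))) *
                Real.exp (-σ' * u)) := by ring
          _ = _ := by rw [h8, hQ₃]; unfold gf; rw [← hE]
      have t1 : 0 ≤ Q₁ := by positivity
      have t2 : 0 ≤ Q₂ := by positivity
      have t3 : 0 ≤ Q₃ := by positivity
      have t4 : Q₂ * gf σ' (1 / 2 * η) u ≤ (Q₁ + Q₂ + Q₃) * gf σ' (1 / 2 * η) u := by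
        gcongr
        linarith
      have t5 : Q₃ * gf σ' (a / 4 * η) u ≤ (Q₁ + Q₂ + Q₃) * gf σ' (a / 4 * η) u := by
        gcongr
        linarith
      have t6 : 0 ≤ (Q₁ + Q₂ + Q₃) * gf σ 1 u := by positivity
      calc _ ≤ Q₃ * gf σ' (a / 4 * η) u + Q₂ * gf σ' (1 / 2 * η) u := add_le_add hKK hpolA
        _ ≤ _ := by nlinarith

lemma half_rpow (n : ℕ) (s : ℝ) : ((1 / 2 : ℝ) ^ n) ^ (-s) = ((2 : ℝ) ^ n) ^ s := by
  have h1 : (1 / 2 : ℝ) ^ n = ((2 : ℝ) ^ n)⁻¹ := by rw [one_div, inv_pow]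
  rw [h1, Real.inv_rpow (by positivity), ← Real.rpow_neg (by positivity), neg_neg]

/-- the norm of the remainder -/
theorem rem_lint {r : ℕ} {a : ℝ} (ha : 0 < a) {w : Fin r → ℝ} (hw : ∀ j, 0 < w j) {b : ℕ → ℂ}
    {ρ C₀ : ℝ} (hρ : 0 < ρ) (h0 : ∀ z : ℂ, z ≠ 0 → ‖z‖ ≤ ρ → ‖Kt a w b z‖ ≤ C₀) {σ ε y₀ : ℝ}
    (hσ : 1 / 2 ≤ σ) (hε : 0 < ε) (hε1 : ε ≤ 1 / 2) (hy : 0 < y₀) (hy1 : y₀ ≤ 1)
    (hyw : ∀ j, w j * (2 * Real.pi * y₀ / Real.cos 1) ≤ 1 / 2) :
    ∃ C : ℝ, 0 ≤ C ∧ ∀ n : ℕ, ∫⁻ u, ‖rem a w b σ y₀ n u‖ₑ ≤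
      ENNReal.ofReal (C * ((2 : ℝ) ^ n) ^ (σ - 1 / 2 + ε)) := by
  obtain ⟨C, hC, hb⟩ := rem_le (σ := σ) ha hw hρ h0 hε.le hε1 hy hy1 hyw
  set σ' : ℝ := σ - 1 / 2 + ε with hσ'
  have hσ'0 : 0 < σ' := by rw [hσ']; linarith
  obtain ⟨G₁, hG₁, h1⟩ := gf_lint (σ := σ) (c := 1) (by linarith) one_pos
  obtain ⟨G₂, hG₂, h2⟩ := gf_lint_scale (σ := σ') (c := 1 / 2) hσ'0 (by norm_num)
  obtain ⟨G₃, hG₃, h3⟩ := gf_lint_scale (σ := σ') (c := a / 4) hσ'0 (by positivity)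
  refine ⟨C * (G₁ + G₂ + G₃), by positivity, fun n => ?_⟩
  set η : ℝ := (1 / 2 : ℝ) ^ n with hη'
  have hη : 0 < η := by positivity
  have m1 : Measurable fun u => ENNReal.ofReal (gf σ 1 u) := (gf_cont _ _).measurable.ennreal_ofReal
  have m2 : Measurable fun u => ENNReal.ofReal (gf σ' (1 / 2 * η) u) :=
    (gf_cont _ _).measurable.ennreal_ofReal
  have e2 := half_rpow n σ'
  rw [← hη'] at e2
  have hT1 : (1 : ℝ) ≤ ((2 : ℝ) ^ n) ^ σ' :=
    Real.one_le_rpow (one_le_pow₀ (by norm_num)) hσ'0.le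
  calc ∫⁻ u, ‖rem a w b σ y₀ n u‖ₑ ≤ ∫⁻ u, ENNReal.ofReal C * (ENNReal.ofReal (gf σ 1 u) +
        ENNReal.ofReal (gf σ' (1 / 2 * η) u) + ENNReal.ofReal (gf σ' (a / 4 * η) u)) := by
        refine lintegral_mono fun u => ?_
        have g1 := gf_pos σ 1 u
        have g2 := gf_pos σ' (1 / 2 * η) u
        have g3 := gf_pos σ' (a / 4 * η) u
        simp only
        rw [← ENNReal.ofReal_add g1.le g2.le, ← ENNReal.ofReal_add (by positivity) g3.le,
          ← ENNReal.ofReal_mul hC, ← ofReal_norm]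
        exact ENNReal.ofReal_le_ofReal (hb n u)
    _ = ENNReal.ofReal C * (ENNReal.ofReal G₁ + ENNReal.ofReal (G₂ * η ^ (-σ')) +
        ENNReal.ofReal (G₃ * η ^ (-σ'))) := by
        have m12 : Measurable fun u => ENNReal.ofReal (gf σ 1 u) +
          ENNReal.ofReal (gf σ' (1 / 2 * η) u) := m1.add m2
        rw [lintegral_const_mul' _ _ ENNReal.ofReal_ne_top,
          lintegral_add_left m12, lintegral_add_left m1, h1, h2 η hη, h3 η hη]
    _ ≤ _ := by
        rw [e2, ← ENNReal.ofReal_add (by positivity) (by positivity),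
          ← ENNReal.ofReal_add (by positivity) (by positivity), ← ENNReal.ofReal_mul hC]
        apply ENNReal.ofReal_le_ofReal
        calc C * (G₁ + G₂ * ((2 : ℝ) ^ n) ^ σ' + G₃ * ((2 : ℝ) ^ n) ^ σ') ≤
            C * (G₁ * ((2 : ℝ) ^ n) ^ σ' + G₂ * ((2 : ℝ) ^ n) ^ σ' +
              G₃ * ((2 : ℝ) ^ n) ^ σ') := by
              gcongr
              exact le_mul_of_one_le_right hG₁ hT1
          _ = _ := by ring

end Pool.Agent.T6.H79.BZ4
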