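import Pool.Agent.T6.H60.BD.D
import Pool.Agent.T6.H79.BZ4.Rem

set_option autoImplicit false

/-!
# Barnes zeta functions, fourth moment, part 12: bounds on vertical lines
-/

namespace Pool.Agent.T6.H79.BZ4

open Finset Filter Topology MeasureTheory Complex FourierTransform
open Pool.Agent.H131R5.BZ Pool.Agent.Y930.Bz Pool.Agent.Y616.BM Pool.Agent.T6.H60.BC
open Pool.Agent.T6.H60.BD

lemma sum_pow_le {ι : Type*} (s : Finset ι) (f : ι → ENNReal) {k : ℕ} (hk : k ≠ 0) :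
    (∑ i ∈ s, f i) ^ k ≤ (s.card : ENNReal) ^ k * ∑ i ∈ s, f i ^ k := by
  rcases s.eq_empty_or_nonempty with h | h
  · subst h
    simp [hk]
  · obtain ⟨i₀, hi, hmax⟩ := Finset.exists_max_image s f h
    calc (∑ i ∈ s, f i) ^ k ≤ (s.card • f i₀) ^ k := by
          gcongr
          exact Finset.sum_le_card_nsmul s f _ hmax
      _ = (s.card : ENNReal) ^ k * f i₀ ^ k := by rw [nsmul_eq_mul, mul_pow]
      _ ≤ _ := by
          gcongr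
          exact Finset.single_le_sum (f := fun i => f i ^ k) (fun _ _ => bot_le) hi

lemma add_pow4 (a b : ENNReal) : (a + b) ^ 4 ≤ 16 * (a ^ 4 + b ^ 4) := by
  rcases le_total a b with h | h
  · calc (a + b) ^ 4 ≤ (b + b) ^ 4 := by gcongr
      _ = 16 * b ^ 4 := by ring
      _ ≤ _ := by gcongr; exact le_add_self
  · calc (a + b) ^ 4 ≤ (a + a) ^ 4 := by gcongr
      _ = 16 * a ^ 4 := by ring
      _ ≤ _ := by gcongr; exact le_self_add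

lemma poly_le (q : ℕ) {ε : ℝ} (hε : 0 < ε) : ∃ C : ℝ, 0 ≤ C ∧ ∀ n : ℕ,
    ((n : ℝ) + 1) ^ q ≤ C * ((2 : ℝ) ^ n) ^ ε := by
  have hl : 0 < Real.log 2 := Real.log_pos (by norm_num)
  set b : ℝ := ε * Real.log 2 with hb
  have hb0 : 0 < b := by positivity
  refine ⟨(q.factorial : ℝ) / b ^ q * Real.exp b, by positivity, fun n => ?_⟩
  have h1 := pow_mul_exp_le (x := (n : ℝ) + 1) (by positivity) hb0 q
  have h2 : ((2 : ℝ) ^ n) ^ ε = Real.exp (b * n) := by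
    rw [← Real.rpow_natCast, ← Real.rpow_mul (by norm_num), Real.rpow_def_of_pos (by norm_num), hb]
    congr 1
    ring
  have h3 := Real.exp_pos (b * ((n : ℝ) + 1))
  rw [Real.exp_neg, ← div_eq_mul_inv, div_le_iff₀ h3] at h1
  calc ((n : ℝ) + 1) ^ q ≤ (q.factorial : ℝ) / b ^ q * Real.exp (b * ((n : ℝ) + 1)) := h1
    _ = _ := by
        have h4 : Real.exp (b * ((n : ℝ) + 1)) = Real.exp b * Real.exp (b * n) := by
          rw [← Real.exp_add]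
          congr 1
          ring
        rw [h2, h4]
        ring

lemma e_int {f : ℝ → ℂ} (hf : Integrable f) (ξ : ℝ) :
    Integrable fun u : ℝ => cexp (((-2 * Real.pi * u * ξ : ℝ) : ℂ) * I) • f u := by
  have hc : Continuous fun u : ℝ => cexp (((-2 * Real.pi * u * ξ : ℝ) : ℂ) * I) := by fun_prop
  have hs : AEStronglyMeasurable (fun u : ℝ => cexp (((-2 * Real.pi * u * ξ : ℝ) : ℂ) * I) • f u)
      volume := hc.aestronglyMeasurable.smul hf.aestronglyMeasurable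
  refine hf.mono hs (Eventually.of_forall fun u => ?_)
  rw [norm_smul, Complex.norm_exp_ofReal_mul_I, one_mul]

lemma four_dec {ι : Type*} (s : Finset ι) {k : ι → ℝ → ℂ} {R f : ℝ → ℂ}
    (hk : ∀ i ∈ s, Integrable (k i)) (hR : Integrable R) (hf : ∀ u, f u = ∑ i ∈ s, k i u + R u)
    (ξ : ℝ) : ‖𝓕 f ξ‖ₑ ≤ ∑ i ∈ s, ‖𝓕 (k i) ξ‖ₑ + ∫⁻ u, ‖R u‖ₑ := by
  have e1 : 𝓕 f ξ = ∑ i ∈ s, 𝓕 (k i) ξ + 𝓕 R ξ := by
    simp only [Real.fourier_real_eq_integral_exp_smul]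
    rw [← integral_finset_sum s fun i hi => e_int (hk i hi) ξ, ← integral_add
      (integrable_finset_sum s fun i hi => e_int (hk i hi) ξ) (e_int hR ξ)]
    refine integral_congr_ae (Eventually.of_forall fun u => ?_)
    simp only
    rw [hf u, smul_add, Finset.smul_sum]
  rw [e1]
  refine (enorm_add_le _ _).trans (add_le_add (enorm_sum_le _ _) (enorm_four_le R ξ))

lemma four_meas {k : ℝ → ℂ} (hk : Integrable k) : Measurable fun ξ : ℝ => ‖𝓕 k ξ‖ₑ := by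
  have hc : Continuous (𝓕 k) :=
    VectorFourier.fourierIntegral_continuous Real.continuous_fourierChar
      (by exact continuous_inner) hk
  exact hc.measurable.enorm

lemma four_scale {k : ℝ → ℂ} (hk : Integrable k) (y : ℝ) :
    ∫⁻ τ : ℝ, ‖𝓕 k ((2 * Real.pi)⁻¹ * (y + τ))‖ₑ ^ 4 =
      ENNReal.ofReal (2 * Real.pi) * ∫⁻ ξ : ℝ, ‖𝓕 k ξ‖ₑ ^ 4 := by
  have hm : Measurable fun ξ : ℝ => ‖𝓕 k ξ‖ₑ ^ 4 := (four_meas hk).pow_const 4
  rw [lintegral_add_left_eq_self (μ := (volume : Measure ℝ))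
    (fun τ : ℝ => ‖𝓕 k ((2 * Real.pi)⁻¹ * τ)‖ₑ ^ 4) y]
  have h1 : Measure.map (fun t : ℝ => (2 * Real.pi)⁻¹ * t) volume =
      ENNReal.ofReal (2 * Real.pi) • volume := by
    rw [Real.map_volume_mul_left (by positivity), inv_inv, abs_of_pos (by positivity)]
  rw [← lintegral_map (f := fun ξ : ℝ => ‖𝓕 k ξ‖ₑ ^ 4) hm
    (measurable_const_mul _), h1, lintegral_smul_measure, smul_eq_mul]

section
variable {r : ℕ} {a : ℝ} {w : Fin r → ℝ} {b : ℕ → ℂ} {ρ C₀ σ y₀ : ℝ}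

lemma rem_spec (a : ℝ) (w : Fin r → ℝ) (b : ℕ → ℂ) (σ y₀ : ℝ) (n : ℕ) (u : ℝ) :
    kth a w b σ (Real.pi / 2 - (1 / 2 : ℝ) ^ n) u =
      ∑ j ∈ Finset.range (2 * n + 1), kb a w σ ((1 / 2 : ℝ) ^ n) (y₀ * 2 ^ j) u +
        rem a w b σ y₀ n u := by
  unfold rem
  ring

lemma eta_le (n : ℕ) : (1 / 2 : ℝ) ^ n ≤ 1 := pow_le_one₀ (by norm_num) (by norm_num)

lemma theta_bds (n : ℕ) : 0 ≤ Real.pi / 2 - (1 / 2 : ℝ) ^ n ∧
    Real.pi / 2 - (1 / 2 : ℝ) ^ n < Real.pi / 2 := by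
  have h1 := eta_le n
  have h2 : (0 : ℝ) < (1 / 2 : ℝ) ^ n := by positivity
  have h3 := Real.pi_gt_three
  constructor <;> linarith

lemma kb_int' (ha : 0 < a) (hw : ∀ j, 0 < w j) (hσ : 0 < σ) (hy : 0 < y₀) (n j : ℕ) :
    Integrable (kb a w σ ((1 / 2 : ℝ) ^ n) (y₀ * 2 ^ j)) ∧
      ∃ δ : ℝ, δ = min 1 (3 * (exists_low hw).choose * y₀) ∧
      ∫⁻ u, ‖kb a w σ ((1 / 2 : ℝ) ^ n) (y₀ * 2 ^ j) u‖ₑ ≤
        ENNReal.ofReal (Hc r a σ δ ((1 / 2 : ℝ) ^ n) (y₀ * 2 ^ j) * ((2 : ℝ) ^ n) ^ r) := by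
  obtain ⟨hm0, hm1, hm⟩ := (exists_low hw).choose_spec
  set m₀ := (exists_low hw).choose with hm₀
  set δ : ℝ := min 1 (3 * m₀ * y₀) with hδd
  have hδ : 0 < δ := lt_min one_pos (by positivity)
  have hδ1 : δ ≤ 1 := min_le_left _ _
  have hδ2 : δ ≤ 3 * m₀ * y₀ := min_le_right _ _
  have hM : 0 < y₀ * 2 ^ j := by positivity
  have hη : (0 : ℝ) < (1 / 2 : ℝ) ^ n := by positivity
  have hδx : ∀ i, δ * (1 / 2 : ℝ) ^ n ≤ w i * (3 * (y₀ * 2 ^ j) * (1 / 2 : ℝ) ^ n) := by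
    intro i
    have hwi := hm i
    have hwi0 := (hw i).le
    have h1 : (1 : ℝ) ≤ 2 ^ j := one_le_pow₀ (by norm_num)
    calc δ * (1 / 2 : ℝ) ^ n ≤ (3 * m₀ * y₀) * (1 / 2 : ℝ) ^ n := by gcongr
      _ = m₀ * (3 * (y₀ * 1) * (1 / 2 : ℝ) ^ n) := by ring
      _ ≤ _ := by gcongr
  refine ⟨kb_int ha hw hσ hη (eta_le n) hM hδ hδ1 hδx, δ, rfl, ?_⟩
  have h1 := kb_lint (i := 1) ha hw hσ hη (eta_le n) hM hδ hδ1 hδx one_ne_zero
  simp only [pow_one] at h1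
  have hH := Hc_nonneg (r := r) (a := a) (σ := σ) (η := (1 / 2 : ℝ) ^ n) hδ hM
  refine h1.trans ?_
  calc _ ≤ ENNReal.ofReal (Hc r a σ δ ((1 / 2 : ℝ) ^ n) (y₀ * 2 ^ j) * (y₀ * 2 ^ j)⁻¹) *
        ∫⁻ _Y in Set.Icc (y₀ * 2 ^ j) (2 * (y₀ * 2 ^ j)), ENNReal.ofReal (((2 : ℝ) ^ n) ^ r) := by
        gcongr
        exact QQ_le _ _ _
    _ = _ := by
        rw [setLIntegral_const, Real.volume_Icc, ← ENNReal.ofReal_mul (by positivity),
          ← ENNReal.ofReal_mul (by positivity)]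
        congr 1
        field_simp
        ring

lemma rem_int (ha : 0 < a) (hw : ∀ j, 0 < w j) (hρ : 0 < ρ) (hρ1 : ρ ≤ 1)
    (h0 : ∀ z : ℂ, z ≠ 0 → ‖z‖ ≤ ρ → ‖Kt a w b z‖ ≤ C₀) (hσ : 0 < σ) (hy : 0 < y₀) (n : ℕ) :
    Integrable (rem a w b σ y₀ n) := by
  unfold rem
  refine (kth_good ha hw hρ hρ1 h0 (theta_bds n).1 (theta_bds n).2 hσ).1.sub ?_
  exact integrable_finset_sum _ fun j _ => (kb_int' ha hw hσ hy n j).1

/-- the fourth moment over a window -/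
theorem window {d : ℕ} (hd : 1 ≤ d) (hdr : d ≤ r) (ha : 0 < a) (hw : ∀ j, 0 < w j) (hρ : 0 < ρ)
    (hρ1 : ρ ≤ 1) (h0 : ∀ z : ℂ, z ≠ 0 → ‖z‖ ≤ ρ → ‖Kt a w b z‖ ≤ C₀) (hy : 0 < y₀) (hy1 : y₀ ≤ 1)
    (hyw : ∀ j, w j * (2 * Real.pi * y₀ / Real.cos 1) ≤ 1 / 2) {q : ℕ}
    (hB : ∃ B : ℝ, 0 ≤ B ∧ ∀ n : ℕ,
      ∑ j ∈ Finset.range (2 * n + 1), ∫⁻ ξ : ℝ,
        ‖𝓕 (kb a w ((r : ℝ) - (d : ℝ) / 2) ((1 / 2 : ℝ) ^ n) (y₀ * 2 ^ j)) ξ‖ₑ ^ 4 ≤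
      ENNReal.ofReal (B * ((n : ℝ) + 1) ^ q * ((2 : ℝ) ^ n) ^ (4 * r - 2 * d - 1)))
    {ε : ℝ} (hε : 0 < ε) (hε1 : ε ≤ 1) : ∃ C : ℝ, 0 ≤ C ∧ ∀ (n : ℕ) (y : ℝ),
      ∫⁻ τ in Set.Icc ((2 : ℝ) ^ n) (2 * 2 ^ n),
        ‖𝓕 (kth a w b ((r : ℝ) - (d : ℝ) / 2) (Real.pi / 2 - (1 / 2 : ℝ) ^ n))
          ((2 * Real.pi)⁻¹ * (y + τ))‖ₑ ^ 4 ≤
      ENNReal.ofReal (C * ((2 : ℝ) ^ n) ^ (4 * ((r : ℝ) - (d : ℝ) / 2) - 1 + ε)) := by
  obtain ⟨B, hB0, hB⟩ := hB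
  set σ : ℝ := (r : ℝ) - (d : ℝ) / 2 with hσd
  have hdr' : (d : ℝ) ≤ r := by exact_mod_cast hdr
  have hd' : (1 : ℝ) ≤ d := by exact_mod_cast hd
  have hσ : 1 / 2 ≤ σ := by rw [hσd]; linarith
  obtain ⟨C₁, hC₁, hrem⟩ := rem_lint (σ := σ) ha hw hρ h0 hσ (ε := ε / 4) (by positivity)
    (by linarith) hy hy1 hyw
  obtain ⟨C₂, hC₂, hpoly⟩ := poly_le (q + 4) hε
  have hpi := Real.pi_pos
  refine ⟨16 * (16 * (2 * Real.pi) * B * C₂ + C₁ ^ 4), by positivity, fun n y => ?_⟩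
  set T : ℝ := (2 : ℝ) ^ n with hT
  have hT1 : 1 ≤ T := one_le_pow₀ (by norm_num)
  have hT0 : 0 < T := by positivity
  set η : ℝ := (1 / 2 : ℝ) ^ n with hη
  set f := kth a w b σ (Real.pi / 2 - η) with hf
  set k : ℕ → ℝ → ℂ := fun j => kb a w σ η (y₀ * 2 ^ j) with hk
  set R := rem a w b σ y₀ n with hR
  have hki : ∀ j, Integrable (k j) := fun j => (kb_int' ha hw (by linarith) hy n j).1
  have hRi : Integrable R := rem_int ha hw hρ hρ1 h0 (by linarith) hy n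
  have hdec : ∀ u, f u = ∑ j ∈ Finset.range (2 * n + 1), k j u + R u := fun u =>
    rem_spec a w b σ y₀ n u
  have hpt : ∀ ξ, ‖𝓕 f ξ‖ₑ ^ 4 ≤ 16 * (((2 * n + 1 : ℕ) : ENNReal) ^ 4 *
      (∑ j ∈ Finset.range (2 * n + 1), ‖𝓕 (k j) ξ‖ₑ ^ 4) +
      ENNReal.ofReal (C₁ * T ^ (σ - 1 / 2 + ε / 4)) ^ 4) := by
    intro ξ
    have h1 := four_dec (Finset.range (2 * n + 1)) (fun j _ => hki j) hRi hdec ξ
    have h2 : ∫⁻ u, ‖R u‖ₑ ≤ ENNReal.ofReal (C₁ * T ^ (σ - 1 / 2 + ε / 4)) := hrem n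
    calc ‖𝓕 f ξ‖ₑ ^ 4 ≤ (∑ j ∈ Finset.range (2 * n + 1), ‖𝓕 (k j) ξ‖ₑ +
          ENNReal.ofReal (C₁ * T ^ (σ - 1 / 2 + ε / 4))) ^ 4 := by
          gcongr
          exact h1.trans (add_le_add le_rfl h2)
      _ ≤ 16 * ((∑ j ∈ Finset.range (2 * n + 1), ‖𝓕 (k j) ξ‖ₑ) ^ 4 +
          ENNReal.ofReal (C₁ * T ^ (σ - 1 / 2 + ε / 4)) ^ 4) := add_pow4 _ _
      _ ≤ _ := by
          gcongr
          have h3 := sum_pow_le (Finset.range (2 * n + 1)) (fun j => ‖𝓕 (k j) ξ‖ₑ)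
            (k := 4) (by norm_num)
          rwa [Finset.card_range] at h3
  set R4 : ENNReal := ENNReal.ofReal (C₁ * T ^ (σ - 1 / 2 + ε / 4)) ^ 4 with hR4
  have hkm : ∀ j, Measurable fun τ : ℝ => ‖𝓕 (k j) ((2 * Real.pi)⁻¹ * (y + τ))‖ₑ ^ 4 := by
    intro j
    have h4 : Measurable fun τ : ℝ => (2 * Real.pi)⁻¹ * (y + τ) := by fun_prop
    exact ((four_meas (hki j)).comp h4).pow_const 4
  calc ∫⁻ τ in Set.Icc T (2 * T), ‖𝓕 f ((2 * Real.pi)⁻¹ * (y + τ))‖ₑ ^ 4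
      ≤ ∫⁻ τ in Set.Icc T (2 * T), (16 * ((2 * n + 1 : ℕ) : ENNReal) ^ 4 *
        (∑ j ∈ Finset.range (2 * n + 1), ‖𝓕 (k j) ((2 * Real.pi)⁻¹ * (y + τ))‖ₑ ^ 4) +
        16 * R4) := by
        refine lintegral_mono fun τ => (hpt _).trans (le_of_eq ?_)
        ring
    _ = 16 * ((2 * n + 1 : ℕ) : ENNReal) ^ 4 * (∑ j ∈ Finset.range (2 * n + 1),
        ∫⁻ τ in Set.Icc T (2 * T), ‖𝓕 (k j) ((2 * Real.pi)⁻¹ * (y + τ))‖ₑ ^ 4) +
        16 * R4 * ENNReal.ofReal T := by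
        rw [lintegral_add_right _ measurable_const, lintegral_const_mul _
          (Finset.measurable_fun_sum _ fun j _ => hkm j), lintegral_finsetSum _ fun j _ => hkm j,
          setLIntegral_const, Real.volume_Icc]
        congr 3
        ring
    _ ≤ 16 * ((2 * n + 1 : ℕ) : ENNReal) ^ 4 * (ENNReal.ofReal (2 * Real.pi) *
        ENNReal.ofReal (B * ((n : ℝ) + 1) ^ q * T ^ (4 * r - 2 * d - 1))) +
        16 * R4 * ENNReal.ofReal T := by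
        gcongr
        calc (∑ j ∈ Finset.range (2 * n + 1),
            ∫⁻ τ in Set.Icc T (2 * T), ‖𝓕 (k j) ((2 * Real.pi)⁻¹ * (y + τ))‖ₑ ^ 4) ≤
            ∑ j ∈ Finset.range (2 * n + 1), ENNReal.ofReal (2 * Real.pi) *
              ∫⁻ ξ : ℝ, ‖𝓕 (k j) ξ‖ₑ ^ 4 := by
              refine Finset.sum_le_sum fun j _ => ?_
              refine (setLIntegral_le_lintegral _ _).trans (le_of_eq ?_)
              exact four_scale (hki j) y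
          _ = ENNReal.ofReal (2 * Real.pi) * ∑ j ∈ Finset.range (2 * n + 1),
              ∫⁻ ξ : ℝ, ‖𝓕 (k j) ξ‖ₑ ^ 4 := (Finset.mul_sum _ _ _).symm
          _ ≤ _ := by
              gcongr
              exact hB n
    _ = ENNReal.ofReal (16 * ((2 * n + 1 : ℕ) : ℝ) ^ 4 * (2 * Real.pi *
        (B * ((n : ℝ) + 1) ^ q * T ^ (4 * r - 2 * d - 1))) +
        16 * (C₁ * T ^ (σ - 1 / 2 + ε / 4)) ^ 4 * T) := by
        rw [hR4, ENNReal.ofReal_add (by positivity) (by positivity),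
          ENNReal.ofReal_mul (show (0 : ℝ) ≤ 16 * ((2 * n + 1 : ℕ) : ℝ) ^ 4 by positivity),
          ENNReal.ofReal_mul (show (0 : ℝ) ≤ 16 by norm_num),
          ENNReal.ofReal_mul (show (0 : ℝ) ≤ 2 * Real.pi by positivity),
          ENNReal.ofReal_mul (show (0 : ℝ) ≤ 16 * (C₁ * T ^ (σ - 1 / 2 + ε / 4)) ^ 4 by positivity),
          ENNReal.ofReal_mul (show (0 : ℝ) ≤ 16 by norm_num),
          ENNReal.ofReal_pow (show (0 : ℝ) ≤ C₁ * T ^ (σ - 1 / 2 + ε / 4) by positivity),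
          ENNReal.ofReal_pow (Nat.cast_nonneg _), ENNReal.ofReal_natCast]
        norm_num
    _ ≤ _ := by
        apply ENNReal.ofReal_le_ofReal
        have hp : T ^ (4 * r - 2 * d - 1) = T ^ (4 * σ - 1) := by
          rw [← Real.rpow_natCast T]
          congr 1
          have h5 : ((4 * r - 2 * d - 1 : ℕ) : ℝ) = 4 * r - 2 * d - 1 := by
            rw [Nat.cast_sub (by omega), Nat.cast_sub (by omega)]
            push_cast
            ring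
          rw [h5, hσd]
          ring
        have hn4 : ((2 * n + 1 : ℕ) : ℝ) ^ 4 ≤ 16 * ((n : ℝ) + 1) ^ 4 := by
          have h6 : ((2 * n + 1 : ℕ) : ℝ) ≤ 2 * ((n : ℝ) + 1) := by
            push_cast
            linarith
          calc ((2 * n + 1 : ℕ) : ℝ) ^ 4 ≤ (2 * ((n : ℝ) + 1)) ^ 4 := by gcongr
            _ = _ := by ring
        have hrem4 : (C₁ * T ^ (σ - 1 / 2 + ε / 4)) ^ 4 * T = C₁ ^ 4 * T ^ (4 * σ - 1 + ε) := by
          rw [mul_pow, ← Real.rpow_natCast (T ^ _), ← Real.rpow_mul hT0.le, mul_assoc]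
          congr 1
          nth_rewrite 2 [← Real.rpow_one T]
          rw [← Real.rpow_add hT0]
          congr 1
          push_cast
          ring
        have hpo := hpoly n
        have hsplit : T ^ (4 * σ - 1) * T ^ ε = T ^ (4 * σ - 1 + ε) := by
          rw [← Real.rpow_add hT0]
        rw [hp]
        calc 16 * ((2 * n + 1 : ℕ) : ℝ) ^ 4 * (2 * Real.pi * (B * ((n : ℝ) + 1) ^ q *
              T ^ (4 * σ - 1))) + 16 * (C₁ * T ^ (σ - 1 / 2 + ε / 4)) ^ 4 * T ≤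
            16 * (16 * ((n : ℝ) + 1) ^ 4) * (2 * Real.pi * (B * ((n : ℝ) + 1) ^ q *
              T ^ (4 * σ - 1))) + 16 * (C₁ * T ^ (σ - 1 / 2 + ε / 4)) ^ 4 * T := by gcongr
          _ = 16 * (16 * (2 * Real.pi) * B * ((n : ℝ) + 1) ^ (q + 4) * T ^ (4 * σ - 1)) +
              16 * ((C₁ * T ^ (σ - 1 / 2 + ε / 4)) ^ 4 * T) := by ring
          _ ≤ 16 * (16 * (2 * Real.pi) * B * (C₂ * T ^ ε) * T ^ (4 * σ - 1)) +
              16 * (C₁ ^ 4 * T ^ (4 * σ - 1 + ε)) := by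
              rw [hrem4]
              gcongr
          _ = 16 * (16 * (2 * Real.pi) * B * C₂ * (T ^ (4 * σ - 1) * T ^ ε)) +
              16 * (C₁ ^ 4 * T ^ (4 * σ - 1 + ε)) := by ring
          _ = _ := by rw [hsplit]; ring

end

end Pool.Agent.T6.H79.BZ4
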